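import Pool.Agent.Q297.CodedChains

/-!
# Embeddings and amalgamation of the coded chains
-/

namespace Pool.Agent.Q297.CodedChains

open Pool.Agent.Q297.Residuated

/-! ## Embeddings of index structures -/

/-- Embeddings of index structures. -/
structure Emb {S : ℕ → Bool} (𝒳 𝒴 : Idx S) where
  f : 𝒳.X → 𝒴.X
  le_iff : ∀ x y, f x ≤ f y ↔ x ≤ y
  map_z : f 𝒳.z = 𝒴.z
  map_succ : ∀ x, f (𝒳.succ x) = 𝒴.succ (f x)
  map_sh : ∀ x, f (𝒳.sh x) = 𝒴.sh (f x)

namespace Emb

variable {S : ℕ → Bool} {𝒳 𝒴 : Idx S} (e : Emb 𝒳 𝒴)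

theorem inj {x y : 𝒳.X} (h : e.f x = e.f y) : x = y :=
  le_antisymm ((e.le_iff _ _).mp h.le) ((e.le_iff _ _).mp h.ge)

theorem map_pred (x : 𝒳.X) : e.f (𝒳.pred x) = 𝒴.pred (e.f x) := by
  by_cases h : x = 𝒳.z
  · rw [h, 𝒳.pred_z, e.map_z, 𝒴.pred_z]
  · conv_rhs => rw [← 𝒳.succ_pred h, e.map_succ, 𝒴.pred_succ]

theorem map_ad (x : 𝒳.X) : e.f (𝒳.ad x) = 𝒴.ad (e.f x) := by
  unfold Idx.ad
  by_cases h : x ≤ 𝒳.sh (𝒳.pred (𝒳.pred (𝒳.pred x)))
  · rw [if_pos h, if_pos, e.map_pred, e.map_pred, e.map_pred]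
    rwa [← e.map_pred, ← e.map_pred, ← e.map_pred, ← e.map_sh, e.le_iff]
  · rw [if_neg h, if_neg, e.map_pred, e.map_pred]
    rwa [← e.map_pred, ← e.map_pred, ← e.map_pred, ← e.map_sh, e.le_iff]

theorem map_std (n : ℕ) : e.f (𝒳.std n) = 𝒴.std n := by
  induction n with
  | zero => exact e.map_z
  | succ n ih => rw [𝒳.std_succ, e.map_succ, ih, 𝒴.std_succ]

theorem map_shf (a : Fin 3) (x : 𝒳.X) : e.f (𝒳.shf a x) = 𝒴.shf a (e.f x) := by
  match a with
  | 0 => rfl
  | 1 => exact e.map_succ x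
  | 2 => exact e.map_sh x

theorem map_adf (a : Fin 3) (x : 𝒳.X) : e.f (𝒳.adf a x) = 𝒴.adf a (e.f x) := by
  match a with
  | 0 => rfl
  | 1 => exact e.map_pred x
  | 2 => exact e.map_ad x

/-- The induced map of the chains. -/
def map : El 𝒳.X → El 𝒴.X
  | .one => .one
  | .w a => .w a
  | .u x => .u (e.f x)
  | .v x => .v (e.f x)
  | .zero => .zero

theorem map_le_iff (x y : El 𝒳.X) : e.map x ≤ e.map y ↔ x ≤ y := by
  cases x <;> cases y <;> first | exact Iff.rfl | exact e.le_iff _ _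

theorem map_inj {x y : El 𝒳.X} (h : e.map x = e.map y) : x = y :=
  le_antisymm ((e.map_le_iff _ _).mp h.le) ((e.map_le_iff _ _).mp h.ge)

theorem map_one : e.map 1 = 1 := rfl

theorem map_mul (x y : El 𝒳.X) : e.map (x * y) = e.map x * e.map y := by
  cases x <;> cases y <;> try rfl
  · exact congrArg El.u (e.map_std _)
  · exact congrArg El.v (e.map_shf _ _)
  · exact congrArg El.v (e.map_shf _ _)

theorem map_inf (x y : El 𝒳.X) : e.map (x ⊓ y) = e.map x ⊓ e.map y := by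
  rcases le_total x y with h | h
  · rw [inf_eq_left.mpr h, inf_eq_left.mpr ((e.map_le_iff _ _).mpr h)]
  · rw [inf_eq_right.mpr h, inf_eq_right.mpr ((e.map_le_iff _ _).mpr h)]

theorem map_sup (x y : El 𝒳.X) : e.map (x ⊔ y) = e.map x ⊔ e.map y := by
  rcases le_total x y with h | h
  · rw [sup_eq_right.mpr h, sup_eq_right.mpr ((e.map_le_iff _ _).mpr h)]
  · rw [sup_eq_left.mpr h, sup_eq_left.mpr ((e.map_le_iff _ _).mpr h)]

theorem map_imp (x y : El 𝒳.X) :
    e.map (FLewAlgebra.imp x y) = FLewAlgebra.imp (e.map x) (e.map y) := by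
  change e.map (El.imp' x y) = El.imp' (e.map x) (e.map y)
  unfold El.imp'
  by_cases h : x ≤ y
  · rw [if_pos h, if_pos ((e.map_le_iff _ _).mpr h)]; rfl
  rw [if_neg h, if_neg (fun h' => h ((e.map_le_iff _ _).mp h'))]
  cases x with
  | one => rfl
  | w a =>
    cases y with
    | one => exact absurd (El.le_one'' _) h
    | w b => rfl
    | u i =>
      dsimp only [map]
      simp only [← e.map_std, e.le_iff]
      split_ifs
      · rfl
      · rfl
      · rfl
      · exact congrArg El.u e.map_z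
    | v i => exact congrArg El.u (e.map_adf a i)
    | zero => exact congrArg El.v e.map_z
  | u i =>
    cases y with
    | one => exact congrArg El.u e.map_z
    | w b => exact congrArg El.u e.map_z
    | u j => rfl
    | v j =>
      dsimp only [map]
      simp only [← e.map_succ, ← e.map_sh, e.le_iff]
      split_ifs
      · rfl
      · rfl
      · rfl
      · exact congrArg El.u e.map_z
    | zero => exact congrArg El.u e.map_z
  | v i => rfl
  | zero => rfl

theorem map_eval (v : ℕ → El 𝒳.X) (φ : Fm) :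
    e.map (φ.eval v) = φ.eval (fun n => e.map (v n)) := by
  induction φ with
  | var n => rfl
  | zero => rfl
  | one => rfl
  | and φ ψ ih1 ih2 => simp only [Fm.eval, ← ih1, ← ih2, map_inf]
  | or φ ψ ih1 ih2 => simp only [Fm.eval, ← ih1, ← ih2, map_sup]
  | mul φ ψ ih1 ih2 => simp only [Fm.eval, ← ih1, ← ih2, map_mul]
  | imp φ ψ ih1 ih2 => simp only [Fm.eval, ← ih1, ← ih2, map_imp]

theorem map_eval_eq_one (v : ℕ → El 𝒳.X) (φ : Fm) :
    φ.eval (fun n => e.map (v n)) = 1 ↔ φ.eval v = 1 := by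
  rw [← e.map_eval, ← e.map_one]
  exact ⟨fun h => e.map_inj h, fun h => congrArg _ h⟩

end Emb

/-! ## Amalgamation of index structures -/

section Amalgam

variable {S : ℕ → Bool} {𝒳 𝒴 : Idx S}

/-- A partial isomorphism between index structures, containing the least elements and closed
under all operations. -/
structure PIso (𝒳 𝒴 : Idx S) where
  R : 𝒳.X → 𝒴.X → Prop
  zz : R 𝒳.z 𝒴.z
  le_iff : ∀ {x x' y y'}, R x x' → R y y' → (x ≤ y ↔ x' ≤ y')
  succ : ∀ {x x'}, R x x' → R (𝒳.succ x) (𝒴.succ x')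
  pred : ∀ {x x'}, R (𝒳.succ x) (𝒴.succ x') → R x x'
  sh : ∀ {x x'}, R x x' → R (𝒳.sh x) (𝒴.sh x')

namespace PIso

variable (r : PIso 𝒳 𝒴)

theorem eq_iff {x x' y y'} (h : r.R x x') (h' : r.R y y') : x = y ↔ x' = y' := by
  rw [le_antisymm_iff, le_antisymm_iff, r.le_iff h h', r.le_iff h' h]

/-- The range of the partial isomorphism. -/
def ran (y : 𝒴.X) : Prop := ∃ c, r.R c y

theorem ran_z : r.ran 𝒴.z := ⟨_, r.zz⟩

theorem ran_succ {y : 𝒴.X} : r.ran (𝒴.succ y) ↔ r.ran y := by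
  constructor
  · rintro ⟨c, hc⟩
    have hcz : c ≠ 𝒳.z := by
      rintro rfl
      exact 𝒴.succ_ne_z y ((r.eq_iff hc r.zz).mp rfl)
    obtain ⟨d, rfl⟩ := 𝒳.exists_pred c hcz
    exact ⟨d, r.pred hc⟩
  · rintro ⟨c, hc⟩
    exact ⟨_, r.succ hc⟩

theorem ran_sh {y : 𝒴.X} : r.ran (𝒴.sh y) ↔ r.ran y := by
  rcases 𝒴.sh_or y with h | h <;> rw [h]
  · rw [r.ran_succ, r.ran_succ]
  · rw [r.ran_succ, r.ran_succ, r.ran_succ]

/-- The carrier of the amalgam. -/
inductive Am (r : PIso 𝒳 𝒴) : Type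
  | old (x : 𝒳.X) : Am r
  | new (y : 𝒴.X) (h : ¬ r.ran y) : Am r

theorem new_eq {a b : 𝒴.X} {ha : ¬ r.ran a} {hb : ¬ r.ran b} (h : a = b) :
    (Am.new a ha : Am r) = Am.new b hb := by subst h; rfl

/-- The new element `a` lies below `x`. -/
def W (a : 𝒴.X) (x : 𝒳.X) : Prop := ∃ c c', r.R c c' ∧ a < c' ∧ c ≤ x

/-- The order of the amalgam. -/
def amLe : Am r → Am r → Prop
  | .old x, .old y => x ≤ y
  | .new a _, .new b _ => a ≤ b
  | .new a _, .old x => r.W a x
  | .old x, .new a _ => ¬ r.W a x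

noncomputable instance : LinearOrder (Am r) where
  le := r.amLe
  le_refl := by
    rintro (x | ⟨a, ha⟩)
    · exact le_refl x
    · exact le_refl a
  le_trans := by
    rintro (x | ⟨a, ha⟩) (y | ⟨b, hb⟩) (z | ⟨c, hc⟩) h1 h2
    · exact le_trans h1 h2
    · rintro ⟨d, d', h3, h4, h5⟩
      exact h2 ⟨d, d', h3, h4, h5.trans h1⟩
    · change x ≤ z
      by_contra hcon
      rw [not_le] at hcon
      obtain ⟨d, d', h3, h4, h5⟩ := h2
      exact h1 ⟨d, d', h3, h4, h5.trans hcon.le⟩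
    · rintro ⟨d, d', h3, h4, h5⟩
      exact h1 ⟨d, d', h3, lt_of_le_of_lt h2 h4, h5⟩
    · obtain ⟨d, d', h3, h4, h5⟩ := h1
      exact ⟨d, d', h3, h4, h5.trans h2⟩
    · change a ≤ c
      by_contra hcon
      rw [not_le] at hcon
      obtain ⟨d, d', h3, h4, h5⟩ := h1
      exact h2 ⟨d, d', h3, hcon.trans h4, h5⟩
    · obtain ⟨d, d', h3, h4, h5⟩ := h2
      exact ⟨d, d', h3, lt_of_le_of_lt h1 h4, h5⟩
    · exact le_trans (α := 𝒴.X) h1 h2
  le_antisymm := by
    rintro (x | ⟨a, ha⟩) (y | ⟨b, hb⟩) h1 h2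
    · exact congrArg Am.old (le_antisymm h1 h2)
    · exact absurd h2 h1
    · exact absurd h1 h2
    · exact r.new_eq (le_antisymm h1 h2)
  le_total := by
    rintro (x | ⟨a, ha⟩) (y | ⟨b, hb⟩)
    · exact le_total x y
    · exact (Classical.em (r.W b x)).symm
    · exact Classical.em (r.W a y)
    · exact le_total a b
  toDecidableLE := Classical.decRel _

theorem am_succ_iff1 {a : 𝒴.X} (ha : ¬ r.ran a) {x : 𝒳.X} :
    r.W (𝒴.succ a) x ↔ r.W a x := by
  constructor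
  · rintro ⟨c, c', h1, h2, h3⟩
    exact ⟨c, c', h1, (𝒴.lt_succ a).trans h2, h3⟩
  · rintro ⟨c, c', h1, h2, h3⟩
    refine ⟨c, c', h1, ?_, h3⟩
    rw [← 𝒴.succ_le] at h2
    refine lt_of_le_of_ne h2 ?_
    rintro rfl
    exact ha (r.ran_succ.mp ⟨c, h1⟩)

theorem am_succ_iff2 {a : 𝒴.X} (ha : ¬ r.ran a) {x : 𝒳.X} :
    r.W a (𝒳.succ x) ↔ r.W a x := by
  constructor
  · rintro ⟨c, c', h1, h2, h3⟩
    rcases h3.eq_or_lt with rfl | h3
    · have hz : c' ≠ 𝒴.z := ((𝒴.z_le a).trans_lt h2).ne'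
      obtain ⟨d', rfl⟩ := 𝒴.exists_pred c' hz
      have hR := r.pred h1
      refine ⟨x, d', hR, ?_, le_rfl⟩
      refine lt_of_le_of_ne (𝒴.lt_succ_iff.mp h2) ?_
      rintro rfl
      exact ha ⟨x, hR⟩
    · exact ⟨c, c', h1, h2, 𝒳.lt_succ_iff.mp h3⟩
  · rintro ⟨c, c', h1, h2, h3⟩
    exact ⟨c, c', h1, h2, h3.trans (𝒳.le_succ x)⟩

/-- The successor function of the amalgam. -/
def amSucc : Am r → Am r
  | .old x => .old (𝒳.succ x)
  | .new a ha => .new (𝒴.succ a) fun h => ha (r.ran_succ.mp h)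

/-- The function `sh` of the amalgam. -/
def amSh : Am r → Am r
  | .old x => .old (𝒳.sh x)
  | .new a ha => .new (𝒴.sh a) fun h => ha (r.ran_sh.mp h)

theorem amSucc_iter (n : ℕ) : r.amSucc^[n] (.old 𝒳.z) = .old (𝒳.succ^[n] 𝒳.z) := by
  induction n with
  | zero => rfl
  | succ n ih =>
    rw [Function.iterate_succ_apply', Function.iterate_succ_apply', ih]
    rfl

/-- The amalgam. -/
noncomputable def amalgam : Idx S where
  X := Am r
  z := .old 𝒳.z
  succ := r.amSucc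
  sh := r.amSh
  z_le := by
    rintro (x | ⟨a, ha⟩)
    · exact 𝒳.z_le x
    · rintro ⟨c, c', h1, h2, h3⟩
      have hc : c = 𝒳.z := le_antisymm h3 (𝒳.z_le c)
      have : c' = 𝒴.z := (r.eq_iff h1 r.zz).mp hc
      rw [this] at h2
      exact absurd h2 (not_lt.mpr (𝒴.z_le _))
  succ_le := by
    intro X Y
    rw [← not_le]
    revert X Y
    rintro (x | ⟨a, ha⟩) (y | ⟨b, hb⟩)
    · exact (𝒳.succ_le x y).trans not_le.symm
    · exact not_congr (r.am_succ_iff2 hb)
    · exact (r.am_succ_iff1 ha).trans (not_not (a := r.W a y)).symm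
    · exact (𝒴.succ_le a b).trans not_le.symm
  exists_pred := by
    rintro (x | ⟨a, ha⟩) h
    · obtain ⟨y, hy⟩ := 𝒳.exists_pred x (fun h' => h (congrArg Am.old h'))
      exact ⟨.old y, congrArg Am.old hy⟩
    · obtain ⟨b, rfl⟩ := 𝒴.exists_pred a (fun h' => ha (by rw [h']; exact r.ran_z))
      exact ⟨.new b fun h' => ha (r.ran_succ.mpr h'), rfl⟩
  sh_or := by
    rintro (x | ⟨a, ha⟩)
    · exact (𝒳.sh_or x).imp (fun h => congrArg Am.old h) (fun h => congrArg Am.old h)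
    · exact (𝒴.sh_or a).imp (fun h => r.new_eq h) (fun h => r.new_eq h)
  sh_std := by
    intro n
    rw [amSucc_iter, amSucc_iter]
    exact congrArg Am.old (𝒳.sh_std n)

/-- The first embedding. -/
noncomputable def emb1 : Emb 𝒳 r.amalgam where
  f := Am.old
  le_iff _ _ := Iff.rfl
  map_z := rfl
  map_succ _ := rfl
  map_sh _ := rfl

open Classical in
/-- The second embedding. -/
noncomputable def g (y : 𝒴.X) : Am r :=
  if h : r.ran y then .old (Classical.choose (id h : ∃ c, r.R c y)) else .new y h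

theorem g_of_R {c : 𝒳.X} {y : 𝒴.X} (h : r.R c y) : r.g y = .old c := by
  have hy : r.ran y := ⟨c, h⟩
  unfold g
  rw [dif_pos hy]
  exact congrArg Am.old ((r.eq_iff (Classical.choose_spec (id hy : ∃ c, r.R c y)) h).mpr rfl)

theorem g_of_not {y : 𝒴.X} (h : ¬ r.ran y) : r.g y = .new y h := dif_neg h

/-- The second embedding. -/
noncomputable def emb2 : Emb 𝒴 r.amalgam where
  f := r.g
  le_iff := by
    intro x y
    change r.amLe (r.g x) (r.g y) ↔ x ≤ y
    by_cases hx : r.ran x <;> by_cases hy : r.ran y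
    · obtain ⟨c, hc⟩ := hx
      obtain ⟨d, hd⟩ := hy
      rw [r.g_of_R hc, r.g_of_R hd]
      exact r.le_iff hc hd
    · obtain ⟨c, hc⟩ := hx
      rw [r.g_of_R hc, r.g_of_not hy]
      change ¬ r.W y c ↔ _
      rw [← not_lt, not_iff_not]
      constructor
      · rintro ⟨d, d', h1, h2, h3⟩
        exact h2.trans_le ((r.le_iff h1 hc).mp h3)
      · intro h
        exact ⟨c, x, hc, h, le_rfl⟩
    · obtain ⟨d, hd⟩ := hy
      rw [r.g_of_not hx, r.g_of_R hd]
      change r.W x d ↔ _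
      constructor
      · rintro ⟨c, c', h1, h2, h3⟩
        exact h2.le.trans ((r.le_iff h1 hd).mp h3)
      · intro h
        refine ⟨d, y, hd, lt_of_le_of_ne h ?_, le_rfl⟩
        rintro rfl
        exact hx ⟨d, hd⟩
    · rw [r.g_of_not hx, r.g_of_not hy]
      exact Iff.rfl
  map_z := r.g_of_R r.zz
  map_succ := by
    intro x
    by_cases hx : r.ran x
    · obtain ⟨c, hc⟩ := hx
      rw [r.g_of_R hc, r.g_of_R (r.succ hc)]
      rfl
    · rw [r.g_of_not hx, r.g_of_not (fun h => hx (r.ran_succ.mp h))]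
      rfl
  map_sh := by
    intro x
    by_cases hx : r.ran x
    · obtain ⟨c, hc⟩ := hx
      rw [r.g_of_R hc, r.g_of_R (r.sh hc)]
      rfl
    · rw [r.g_of_not hx, r.g_of_not (fun h => hx (r.ran_sh.mp h))]
      rfl

theorem emb_eq {c : 𝒳.X} {y : 𝒴.X} (h : r.R c y) : r.emb1.f c = r.emb2.f y :=
  (r.g_of_R h).symm

end PIso

end Amalgam

end Pool.Agent.Q297.CodedChains
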