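import Pool.Agent.Q297.Residuated
import Mathlib.Order.Filter.Ultrafilter.Basic

/-!
# A family of MTL-chains coding a set of natural numbers
-/

namespace Pool.Agent.Q297.CodedChains

open Pool.Agent.Q297.Residuated

/-- Index structures: discrete linear orders with a least element `z`, a successor function,
predecessors of all elements other than `z`, and a function `sh` with `sh x ∈ {x + 2, x + 3}`
whose values on the standard elements code `S`. -/
structure Idx (S : ℕ → Bool) where
  X : Type
  [ord : LinearOrder X]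
  z : X
  succ : X → X
  sh : X → X
  z_le : ∀ x, z ≤ x
  succ_le : ∀ x y, succ x ≤ y ↔ x < y
  exists_pred : ∀ x, x ≠ z → ∃ y, succ y = x
  sh_or : ∀ x, sh x = succ (succ x) ∨ sh x = succ (succ (succ x))
  sh_std : ∀ n, sh (succ^[n] z) = succ^[if 5 ≤ n ∧ S (n - 5) then n + 3 else n + 2] z

attribute [instance] Idx.ord

namespace Idx

variable {S : ℕ → Bool} (𝒳 : Idx S)

theorem lt_succ (x : 𝒳.X) : x < 𝒳.succ x := (𝒳.succ_le _ _).mp le_rfl

theorem le_succ (x : 𝒳.X) : x ≤ 𝒳.succ x := (𝒳.lt_succ x).le

theorem lt_succ_iff {x y : 𝒳.X} : x < 𝒳.succ y ↔ x ≤ y := by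
  constructor
  · intro h
    by_contra hcon
    rw [not_le, ← 𝒳.succ_le] at hcon
    exact absurd h (not_lt.mpr hcon)
  · intro h
    exact h.trans_lt (𝒳.lt_succ y)

theorem succ_le_succ {x y : 𝒳.X} : 𝒳.succ x ≤ 𝒳.succ y ↔ x ≤ y := by
  rw [𝒳.succ_le, 𝒳.lt_succ_iff]

theorem succ_inj {x y : 𝒳.X} (h : 𝒳.succ x = 𝒳.succ y) : x = y :=
  le_antisymm (𝒳.succ_le_succ.mp h.le) (𝒳.succ_le_succ.mp h.ge)

theorem succ_ne_z (x : 𝒳.X) : 𝒳.succ x ≠ 𝒳.z :=
  ((𝒳.z_le x).trans_lt (𝒳.lt_succ x)).ne'

open Classical in
/-- The predecessor function. -/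
noncomputable def pred (x : 𝒳.X) : 𝒳.X :=
  if h : x = 𝒳.z then 𝒳.z else Classical.choose (𝒳.exists_pred x h)

theorem pred_z : 𝒳.pred 𝒳.z = 𝒳.z := by simp [pred]

theorem succ_pred {x : 𝒳.X} (h : x ≠ 𝒳.z) : 𝒳.succ (𝒳.pred x) = x := by
  rw [pred, dif_neg h]
  exact Classical.choose_spec (𝒳.exists_pred x h)

theorem pred_succ (x : 𝒳.X) : 𝒳.pred (𝒳.succ x) = x :=
  𝒳.succ_inj (𝒳.succ_pred (𝒳.succ_ne_z x))

theorem le_succ_pred (x : 𝒳.X) : x ≤ 𝒳.succ (𝒳.pred x) := by
  by_cases h : x = 𝒳.z
  · rw [h]; exact 𝒳.z_le _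
  · rw [𝒳.succ_pred h]

theorem pred_le_iff {x y : 𝒳.X} : 𝒳.pred x ≤ y ↔ x ≤ 𝒳.succ y := by
  by_cases h : x = 𝒳.z
  · rw [h, pred_z]
    exact ⟨fun _ => 𝒳.z_le _, fun _ => 𝒳.z_le _⟩
  · conv_rhs => rw [← 𝒳.succ_pred h]
    rw [𝒳.succ_le_succ]

theorem succ2_le_sh (x : 𝒳.X) : 𝒳.succ (𝒳.succ x) ≤ 𝒳.sh x := by
  rcases 𝒳.sh_or x with h | h <;> rw [h]
  exact 𝒳.le_succ _

theorem sh_le_succ3 (x : 𝒳.X) : 𝒳.sh x ≤ 𝒳.succ (𝒳.succ (𝒳.succ x)) := by
  rcases 𝒳.sh_or x with h | h <;> rw [h]
  exact 𝒳.le_succ _

theorem sh_mono {x y : 𝒳.X} (h : x ≤ y) : 𝒳.sh x ≤ 𝒳.sh y := by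
  rcases h.eq_or_lt with rfl | h
  · exact le_rfl
  · rw [← 𝒳.succ_le] at h
    refine (𝒳.sh_le_succ3 x).trans (le_trans ?_ (𝒳.succ2_le_sh y))
    rwa [𝒳.succ_le_succ, 𝒳.succ_le_succ]

open Classical in
/-- The lower adjoint of `sh`. -/
noncomputable def ad (x : 𝒳.X) : 𝒳.X :=
  if x ≤ 𝒳.sh (𝒳.pred (𝒳.pred (𝒳.pred x))) then 𝒳.pred (𝒳.pred (𝒳.pred x))
  else 𝒳.pred (𝒳.pred x)

theorem ad_le_iff {x y : 𝒳.X} : 𝒳.ad x ≤ y ↔ x ≤ 𝒳.sh y := by
  have h3 : x ≤ 𝒳.sh y → 𝒳.pred (𝒳.pred (𝒳.pred x)) ≤ y := by
    intro h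
    rw [pred_le_iff, pred_le_iff, pred_le_iff]
    exact h.trans (𝒳.sh_le_succ3 y)
  rw [ad]
  split_ifs with h
  · exact ⟨fun h' => h.trans (𝒳.sh_mono h'), h3⟩
  · constructor
    · intro h'
      rw [pred_le_iff, pred_le_iff] at h'
      exact h'.trans (𝒳.succ2_le_sh y)
    · intro h'
      have h4 := h3 h'
      rcases h4.eq_or_lt with h5 | h5
      · rw [h5] at h; exact absurd h' h
      · rw [← 𝒳.succ_le] at h5
        exact (𝒳.le_succ_pred _).trans h5

/-- The standard elements. -/
def std (n : ℕ) : 𝒳.X := 𝒳.succ^[n] 𝒳.z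

theorem std_zero : 𝒳.std 0 = 𝒳.z := rfl

theorem std_succ (n : ℕ) : 𝒳.std (n + 1) = 𝒳.succ (𝒳.std n) := Function.iterate_succ_apply' _ _ _

theorem std_le_std {m n : ℕ} : 𝒳.std m ≤ 𝒳.std n ↔ m ≤ n := by
  induction m generalizing n with
  | zero => exact ⟨fun _ => Nat.zero_le _, fun _ => 𝒳.z_le _⟩
  | succ m ih =>
    cases n with
    | zero =>
      rw [std_succ, std_zero, 𝒳.succ_le]
      exact ⟨fun h => absurd h (not_lt.mpr (𝒳.z_le _)), fun h => absurd h (by omega)⟩
    | succ n => rw [std_succ, std_succ, 𝒳.succ_le_succ, ih]; omega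

/-- The shift by `w a`. -/
def shf (a : Fin 3) : 𝒳.X → 𝒳.X :=
  match a with
  | 0 => id
  | 1 => 𝒳.succ
  | 2 => 𝒳.sh

/-- The lower adjoint of the shift by `w a`. -/
noncomputable def adf (a : Fin 3) : 𝒳.X → 𝒳.X :=
  match a with
  | 0 => id
  | 1 => 𝒳.pred
  | 2 => 𝒳.ad

theorem adf_le_iff {a : Fin 3} {x y : 𝒳.X} : 𝒳.adf a x ≤ y ↔ x ≤ 𝒳.shf a y := by
  match a with
  | 0 => exact Iff.rfl
  | 1 => exact 𝒳.pred_le_iff
  | 2 => exact 𝒳.ad_le_iff

theorem shf_le_shf {a b : Fin 3} (h : a ≤ b) (x : 𝒳.X) : 𝒳.shf a x ≤ 𝒳.shf b x := by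
  have h1 : x ≤ 𝒳.succ x := 𝒳.le_succ x
  have h2 : 𝒳.succ x ≤ 𝒳.sh x := (𝒳.le_succ _).trans (𝒳.succ2_le_sh x)
  match a, b with
  | 0, 0 => exact le_rfl
  | 0, 1 => exact h1
  | 0, 2 => exact h1.trans h2
  | 1, 1 => exact le_rfl
  | 1, 2 => exact h2
  | 2, 2 => exact le_rfl

end Idx

/-- The elements of the chain: `1 > w 0 > w 1 > w 2 > u x > v y > 0`, with `u x > u y` and
`v x > v y` for `x < y`. -/
inductive El (X : Type) : Type
  | one : El X
  | w : Fin 3 → El X
  | u : X → El X
  | v : X → El X
  | zero : El X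

namespace El

variable {S : ℕ → Bool} {𝒳 : Idx S}

/-- The order of the chain. -/
def le' {X : Type} [LinearOrder X] : El X → El X → Prop
  | zero, _ => True
  | _, one => True
  | w a, w b => b ≤ a
  | u x, u y => y ≤ x
  | v x, v y => y ≤ x
  | u _, w _ => True
  | v _, w _ => True
  | v _, u _ => True
  | _, _ => False

noncomputable instance {X : Type} [LinearOrder X] : LinearOrder (El X) where
  le := le'
  le_refl x := by cases x <;> simp [le']
  le_trans x y z := by
    cases x <;> cases y <;> cases z <;> simp only [le', implies_true, forall_const,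
      false_imp_iff, imp_self, imp_false] <;>
      exact fun h1 h2 => le_trans h2 h1
  le_antisymm x y := by
    cases x <;> cases y <;> simp only [le', implies_true, forall_const,
      false_imp_iff, imp_self, w.injEq, u.injEq, v.injEq, reduceCtorEq] <;>
      exact fun h1 h2 => le_antisymm h2 h1
  le_total x y := by
    cases x <;> cases y <;> simp only [le', or_true, true_or, or_self] <;> exact le_total _ _
  toDecidableLE := Classical.decRel _

/-- The multiplication of the chain. -/
def mul' : El 𝒳.X → El 𝒳.X → El 𝒳.X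
  | one, y => y
  | x, one => x
  | w a, w b => u (𝒳.std (a.val + b.val + 1))
  | w a, u x => v (𝒳.shf a x)
  | u x, w a => v (𝒳.shf a x)
  | _, _ => zero

open Classical in
/-- The residual of the chain. -/
noncomputable def imp' (x y : El 𝒳.X) : El 𝒳.X :=
  if x ≤ y then one else
    match x, y with
    | one, y => y
    | w _, w _ => w 0
    | w a, u x =>
      if x ≤ 𝒳.std (a.val + 1) then w 0
      else if x ≤ 𝒳.std (a.val + 2) then w 1
      else if x ≤ 𝒳.std (a.val + 3) then w 2
      else u 𝒳.z
    | w a, v x => u (𝒳.adf a x)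
    | w _, _ => v 𝒳.z
    | u x, v y =>
      if y ≤ x then w 0
      else if y ≤ 𝒳.succ x then w 1
      else if y ≤ 𝒳.sh x then w 2
      else u 𝒳.z
    | u _, u _ => w 0
    | u _, _ => u 𝒳.z
    | _, _ => w 0


theorem mul_comm' (x y : El 𝒳.X) : mul' x y = mul' y x := by
  cases x <;> cases y <;> try rfl
  rename_i a b
  change u (𝒳.std _) = u (𝒳.std _)
  rw [add_comm a.val]

theorem one_mul'' (x : El 𝒳.X) : mul' one x = x := by cases x <;> rfl

theorem mul_one'' (x : El 𝒳.X) : mul' x one = x := by cases x <;> rfl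

theorem shf_std_small (a : Fin 3) {n : ℕ} (hn : n ≤ 4) : 𝒳.shf a (𝒳.std n) = 𝒳.std (n + a) := by
  match a with
  | 0 => rfl
  | 1 => exact (𝒳.std_succ n).symm
  | 2 =>
    change 𝒳.sh (𝒳.succ^[n] 𝒳.z) = 𝒳.succ^[n + 2] 𝒳.z
    rw [𝒳.sh_std, if_neg (by omega)]

theorem mul_assoc' (x y z : El 𝒳.X) : mul' (mul' x y) z = mul' x (mul' y z) := by
  cases x <;> cases y <;> cases z <;> try rfl
  rename_i a b c
  change v (𝒳.shf c (𝒳.std (a + b + 1))) = v (𝒳.shf a (𝒳.std (b + c + 1)))
  by_cases hac : a = c
  · subst hac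
    rw [add_comm a.val]
  by_cases h5 : a.val + b.val = 4
  · have ha : a = 2 := by omega
    have hb : b = 2 := by omega
    subst ha hb
    have hc : c = 0 ∨ c = 1 := by omega
    rcases hc with rfl | rfl
    · rw [shf_std_small 2 (by simp)]; rfl
    · rw [shf_std_small 2 (by simp)]
      exact congrArg v (𝒳.std_succ 5).symm
  by_cases h6 : b.val + c.val = 4
  · have hc : c = 2 := by omega
    have hb : b = 2 := by omega
    subst hc hb
    have ha : a = 0 ∨ a = 1 := by omega
    rcases ha with rfl | rfl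
    · rw [shf_std_small 2 (by simp)]; rfl
    · rw [shf_std_small 2 (by simp)]
      exact congrArg v (𝒳.std_succ 5)
  rw [shf_std_small c (by omega), shf_std_small a (by omega)]
  congr 2
  omega

theorem le_def {x y : El 𝒳.X} : x ≤ y ↔ le' x y := Iff.rfl


theorem mul_le_right' (a b : El 𝒳.X) : mul' a b ≤ b := by
  cases a <;> cases b <;> simp only [mul', le_def, le'] <;> exact le_rfl

theorem le_one'' (x : El 𝒳.X) : x ≤ one := by cases x <;> trivial

theorem first_iff {P : Fin 3 → Prop} [∀ i, Decidable (P i)] (h01 : P 0 → P 1) (h12 : P 1 → P 2) (c : Fin 3) (t : 𝒳.X) :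
    (w c : El 𝒳.X) ≤ (if P 0 then w 0 else if P 1 then w 1 else if P 2 then w 2 else u t) ↔
      P c := by
  have key : ∀ b : Fin 3, ((w c : El 𝒳.X) ≤ w b) ↔ b ≤ c := fun b => Iff.rfl
  have key' : ¬ ((w c : El 𝒳.X) ≤ u t) := id
  by_cases h0 : P 0
  · rw [if_pos h0, key]
    refine iff_of_true (Fin.zero_le c) ?_
    rcases (by omega : c = 0 ∨ c = 1 ∨ c = 2) with rfl | rfl | rfl
    · exact h0
    · exact h01 h0
    · exact h12 (h01 h0)
  rw [if_neg h0]
  by_cases h1 : P 1
  · rw [if_pos h1, key]
    rcases (by omega : c = 0 ∨ c = 1 ∨ c = 2) with rfl | rfl | rfl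
    · exact iff_of_false (by decide) h0
    · exact iff_of_true (by decide) h1
    · exact iff_of_true (by decide) (h12 h1)
  rw [if_neg h1]
  by_cases h2 : P 2
  · rw [if_pos h2, key]
    rcases (by omega : c = 0 ∨ c = 1 ∨ c = 2) with rfl | rfl | rfl
    · exact iff_of_false (by decide) h0
    · exact iff_of_false (by decide) h1
    · exact iff_of_true (by decide) h2
  rw [if_neg h2]
  refine iff_of_false key' ?_
  rcases (by omega : c = 0 ∨ c = 1 ∨ c = 2) with rfl | rfl | rfl <;> assumption

theorem resid' (x y z : El 𝒳.X) : mul' x y ≤ z ↔ x ≤ imp' y z := by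
  unfold imp'
  by_cases h : y ≤ z
  · rw [if_pos h]
    exact ⟨fun _ => le_one'' x, fun _ => (mul_le_right' x y).trans h⟩
  rw [if_neg h]
  cases y with
  | one => rw [mul_one'']
  | w a =>
    cases z with
    | one => exact absurd (le_one'' _) h
    | w b =>
      cases x with
      | one => exact iff_of_false h (by simp [le_def, le'])
      | w c => exact iff_of_true trivial (Fin.zero_le c)
      | u x => exact iff_of_true trivial trivial
      | v x => exact iff_of_true trivial trivial
      | zero => exact iff_of_true trivial trivial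
    | u i =>
      cases x with
      | one =>
        refine iff_of_false h ?_
        dsimp only
        split_ifs <;> simp [le_def, le']
      | w c =>
        change i ≤ 𝒳.std (c.val + a.val + 1) ↔ _
        have hm : ∀ {m n : ℕ}, m ≤ n → i ≤ 𝒳.std m → i ≤ 𝒳.std n :=
          fun hmn h => h.trans (𝒳.std_le_std.mpr hmn)
        rw [show c.val + a.val + 1 = a.val + (c.val + 1) by omega]
        exact (first_iff (P := fun c : Fin 3 => i ≤ 𝒳.std (a.val + (c.val + 1)))
          (hm (by simp)) (hm (by simp)) c 𝒳.z).symm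
      | u x => 
        refine iff_of_true trivial ?_
        dsimp only
        split_ifs <;> simp [le_def, le', 𝒳.z_le]
      | v x => 
        refine iff_of_true trivial ?_
        dsimp only
        split_ifs <;> simp [le_def, le']
      | zero => exact iff_of_true trivial trivial
    | v i =>
      cases x with
      | one => exact iff_of_false h (by simp [le_def, le'])
      | w c => exact iff_of_false (by simp [le_def, le', mul']) (by simp [le_def, le'])
      | u x => exact 𝒳.adf_le_iff.symm
      | v x => exact iff_of_true trivial trivial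
      | zero => exact iff_of_true trivial trivial
    | zero =>
      cases x with
      | one => exact iff_of_false h (by simp [le_def, le'])
      | w c => exact iff_of_false (by simp [le_def, le', mul']) (by simp [le_def, le'])
      | u x => exact iff_of_false (by simp [le_def, le', mul']) (by simp [le_def, le'])
      | v x => exact iff_of_true trivial (𝒳.z_le x)
      | zero => exact iff_of_true trivial trivial
  | u j =>
    cases z with
    | one => exact absurd (le_one'' _) h
    | w b => exact absurd trivial h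
    | u i =>
      cases x with
      | one => exact iff_of_false h (by simp [le_def, le'])
      | w c => exact iff_of_true trivial (Fin.zero_le c)
      | u x => exact iff_of_true trivial trivial
      | v x => exact iff_of_true trivial trivial
      | zero => exact iff_of_true trivial trivial
    | v i =>
      cases x with
      | one =>
        refine iff_of_false h ?_
        dsimp only
        split_ifs <;> simp [le_def, le']
      | w c =>
        change i ≤ 𝒳.shf c j ↔ _
        exact (first_iff (P := fun c : Fin 3 => i ≤ 𝒳.shf c j)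
          (fun h => h.trans (𝒳.shf_le_shf (by decide) j))
          (fun h => h.trans (𝒳.shf_le_shf (by decide) j)) c 𝒳.z).symm
      | u x => 
        refine iff_of_true trivial ?_
        dsimp only
        split_ifs <;> simp [le_def, le', 𝒳.z_le]
      | v x => 
        refine iff_of_true trivial ?_
        dsimp only
        split_ifs <;> simp [le_def, le']
      | zero => exact iff_of_true trivial trivial
    | zero =>
      cases x with
      | one => exact iff_of_false h (by simp [le_def, le'])
      | w c => exact iff_of_false (by simp [le_def, le', mul']) (by simp [le_def, le'])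
      | u x => exact iff_of_true trivial (𝒳.z_le x)
      | v x => exact iff_of_true trivial trivial
      | zero => exact iff_of_true trivial trivial
  | v j =>
    cases x with
    | one => exact iff_of_false h (by cases z <;> simp [le_def, le'])
    | w c => exact iff_of_true (by cases z <;> trivial) (by cases z <;> exact Fin.zero_le c)
    | u x => exact iff_of_true (by cases z <;> trivial) (by cases z <;> trivial)
    | v x => exact iff_of_true (by cases z <;> trivial) (by cases z <;> trivial)
    | zero => exact iff_of_true (by cases z <;> trivial) (by cases z <;> trivial)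
  | zero => exact absurd (by cases z <;> trivial) h

noncomputable instance : CommMonoid (El 𝒳.X) where
  mul := mul'
  one := one
  mul_assoc := mul_assoc'
  one_mul := one_mul''
  mul_one := mul_one''
  mul_comm := mul_comm'

noncomputable instance : MTLAlgebra (El 𝒳.X) where
  bot := zero
  imp := imp'
  fbot_le' := by intro x; cases x <;> trivial
  le_one' := le_one''
  residuation := resid'
  prelinearity := by
    intro x y
    rcases le_total x y with h | h
    · have : imp' x y = one := by unfold imp'; rw [if_pos h]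
      rw [this]
      exact sup_eq_left.mpr (le_one'' _)
    · have : imp' y x = one := by unfold imp'; rw [if_pos h]
      rw [this]
      exact sup_eq_right.mpr (le_one'' _)

theorem pow_four (x : El 𝒳.X) (h : x ≠ 1) : x ^ 4 = FLewAlgebra.bot := by
  have : x ^ 4 = (x * x) * (x * x) := by
    simp only [pow_succ, pow_zero, one_mul, mul_assoc]
  rw [this]
  cases x with
  | one => exact absurd rfl h
  | w a => rfl
  | u x => rfl
  | v x => rfl
  | zero => rfl

end El

end Pool.Agent.Q297.CodedChains
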