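import Pool.Agent.Q297.CodedGlue
import Mathlib.Order.Filter.Ultrafilter.Basic

/-!
# Compactness for the coded chains, by ultraproducts of the index structures
-/

namespace Pool.Agent.Q297.CodedChains

open Pool.Agent.Q297.Residuated Filter

variable {S : ℕ → Bool}

section Ultraproduct

variable {I : Type} (U : Ultrafilter I) (𝒳 : I → Idx S)

/-- Equality almost everywhere. -/
def upSetoid : Setoid (∀ i, (𝒳 i).X) where
  r x y := ∀ᶠ i in U, x i = y i
  iseqv := ⟨fun _ => Eventually.of_forall fun _ => rfl, fun h => h.mono fun _ h => h.symm,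
    fun h h' => by filter_upwards [h, h'] with i h1 h2 using h1.trans h2⟩

/-- The carrier of the ultraproduct. -/
def UP : Type := Quotient (upSetoid U 𝒳)

namespace UP

variable {U 𝒳}

/-- The class of a family. -/
def mk (x : ∀ i, (𝒳 i).X) : UP U 𝒳 := Quotient.mk (upSetoid U 𝒳) x

theorem ind {p : UP U 𝒳 → Prop} (h : ∀ x, p (mk x)) (ξ : UP U 𝒳) : p ξ := Quotient.ind h ξ

theorem mk_eq {x y : ∀ i, (𝒳 i).X} : (mk x : UP U 𝒳) = mk y ↔ ∀ᶠ i in U, x i = y i :=
  ⟨fun h => Quotient.exact h, fun h => Quotient.sound h⟩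

/-- The order of the ultraproduct. -/
def le' : UP U 𝒳 → UP U 𝒳 → Prop :=
  Quotient.lift₂ (fun x y => ∀ᶠ i in U, x i ≤ y i) (by
    intro x y x' y' h h'
    refine propext ⟨fun h1 => ?_, fun h1 => ?_⟩
    · filter_upwards [h, h', h1] with i h h' h1
      rwa [← h, ← h']
    · filter_upwards [h, h', h1] with i h h' h1
      rwa [h, h'])

noncomputable instance : LinearOrder (UP U 𝒳) where
  le := le'
  le_refl := by
    refine ind fun x => ?_
    exact Eventually.of_forall fun i => le_rfl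
  le_trans := by
    refine ind fun x => ind fun y => ind fun z => ?_
    intro h1 h2
    change ∀ᶠ i in U, x i ≤ z i
    filter_upwards [h1, h2] with i h1 h2 using h1.trans h2
  le_antisymm := by
    refine ind fun x => ind fun y => ?_
    intro h1 h2
    rw [mk_eq]
    filter_upwards [h1, h2] with i h1 h2 using le_antisymm h1 h2
  le_total := by
    refine ind fun x => ind fun y => ?_
    change (∀ᶠ i in U, x i ≤ y i) ∨ (∀ᶠ i in U, y i ≤ x i)
    rw [← Ultrafilter.eventually_or]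
    exact Eventually.of_forall fun i => le_total _ _
  toDecidableLE := Classical.decRel _

theorem mk_le {x y : ∀ i, (𝒳 i).X} : (mk x : UP U 𝒳) ≤ mk y ↔ ∀ᶠ i in U, x i ≤ y i := Iff.rfl

theorem mk_lt {x y : ∀ i, (𝒳 i).X} : (mk x : UP U 𝒳) < mk y ↔ ∀ᶠ i in U, x i < y i := by
  rw [← not_le, mk_le, ← Ultrafilter.eventually_not]
  simp only [not_le]

/-- Lifting of functions. -/
def lift (f : ∀ i, (𝒳 i).X → (𝒳 i).X) : UP U 𝒳 → UP U 𝒳 :=
  Quotient.map (fun x i => f i (x i)) fun _ _ h => h.mono fun i h => congrArg (f i) h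

theorem lift_mk (f : ∀ i, (𝒳 i).X → (𝒳 i).X) (x : ∀ i, (𝒳 i).X) :
    lift f (mk x : UP U 𝒳) = mk fun i => f i (x i) := rfl

theorem lift_iter (f : ∀ i, (𝒳 i).X → (𝒳 i).X) (x : ∀ i, (𝒳 i).X) (n : ℕ) :
    (lift f)^[n] (mk x : UP U 𝒳) = mk fun i => (f i)^[n] (x i) := by
  induction n with
  | zero => rfl
  | succ n ih =>
    rw [Function.iterate_succ_apply', ih, lift_mk]
    congr 1
    funext i
    rw [Function.iterate_succ_apply']

end UP

/-- The ultraproduct of index structures. -/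
noncomputable def upIdx : Idx S where
  X := UP U 𝒳
  z := UP.mk fun i => (𝒳 i).z
  succ := UP.lift fun i => (𝒳 i).succ
  sh := UP.lift fun i => (𝒳 i).sh
  z_le := UP.ind fun x => Eventually.of_forall fun i => (𝒳 i).z_le _
  succ_le := by
    refine UP.ind fun x => UP.ind fun y => ?_
    rw [UP.lift_mk, UP.mk_le, UP.mk_lt]
    simp only [Idx.succ_le]
  exists_pred := by
    refine UP.ind fun x => ?_
    intro h
    refine ⟨UP.mk fun i => (𝒳 i).pred (x i), ?_⟩
    rw [Ne, UP.mk_eq, ← Ultrafilter.eventually_not] at h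
    rw [UP.lift_mk, UP.mk_eq]
    filter_upwards [h] with i h using (𝒳 i).succ_pred h
  sh_or := by
    refine UP.ind fun x => ?_
    simp only [UP.lift_mk, UP.mk_eq]
    rw [← Ultrafilter.eventually_or]
    exact Eventually.of_forall fun i => (𝒳 i).sh_or _
  sh_std := by
    intro n
    rw [UP.lift_iter, UP.lift_iter, UP.lift_mk, UP.mk_eq]
    exact Eventually.of_forall fun i => (𝒳 i).sh_std n

variable {U 𝒳}

/-- The class of a family, as an element of the ultraproduct index structure. -/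
def mk (x : ∀ i, (𝒳 i).X) : (upIdx U 𝒳).X := (UP.mk x : UP U 𝒳)

theorem mk_ind {p : (upIdx U 𝒳).X → Prop} (h : ∀ x, p (mk x)) (ξ : (upIdx U 𝒳).X) : p ξ :=
  UP.ind (p := p) h ξ

theorem mk_surj (ξ : (upIdx U 𝒳).X) : ∃ x, ξ = mk x :=
  mk_ind (p := fun ξ => ∃ x, ξ = mk x) (fun x => ⟨x, rfl⟩) ξ

theorem mk_eq {x y : ∀ i, (𝒳 i).X} :
    (mk x : (upIdx U 𝒳).X) = mk y ↔ ∀ᶠ i in U, x i = y i := UP.mk_eq

theorem up_le {x y : ∀ i, (𝒳 i).X} :
    (mk x : (upIdx U 𝒳).X) ≤ mk y ↔ ∀ᶠ i in U, x i ≤ y i := Iff.rfl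

theorem up_not_le {x y : ∀ i, (𝒳 i).X} :
    ¬ (mk x : (upIdx U 𝒳).X) ≤ mk y ↔ ∀ᶠ i in U, ¬ x i ≤ y i := by
  rw [up_le, Ultrafilter.eventually_not]

theorem up_z : (upIdx U 𝒳).z = mk fun i => (𝒳 i).z := rfl

theorem up_std (n : ℕ) : (upIdx U 𝒳).std n = mk fun i => (𝒳 i).std n := UP.lift_iter _ _ n

theorem up_succ (x : ∀ i, (𝒳 i).X) :
    (upIdx U 𝒳).succ (mk x) = mk fun i => (𝒳 i).succ (x i) := rfl

theorem up_sh (x : ∀ i, (𝒳 i).X) : (upIdx U 𝒳).sh (mk x) = mk fun i => (𝒳 i).sh (x i) := rfl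

theorem up_pred (x : ∀ i, (𝒳 i).X) :
    (upIdx U 𝒳).pred (mk x) = mk fun i => (𝒳 i).pred (x i) := by
  by_cases h : (mk x : (upIdx U 𝒳).X) = (upIdx U 𝒳).z
  · rw [h, Idx.pred_z, up_z, mk_eq]
    rw [up_z, mk_eq] at h
    filter_upwards [h] with i h
    rw [h, Idx.pred_z]
  · have h1 : ∀ᶠ i in U, ¬ x i = (𝒳 i).z := by
      rw [Ultrafilter.eventually_not]
      exact fun h' => h (mk_eq.mpr h')
    have h2 : (mk x : (upIdx U 𝒳).X) = (upIdx U 𝒳).succ (mk fun i => (𝒳 i).pred (x i)) := by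
      rw [up_succ, mk_eq]
      filter_upwards [h1] with i h1 using ((𝒳 i).succ_pred h1).symm
    rw [h2, Idx.pred_succ]

theorem up_ad (x : ∀ i, (𝒳 i).X) :
    (upIdx U 𝒳).ad (mk x) = mk fun i => (𝒳 i).ad (x i) := by
  unfold Idx.ad
  simp only [up_pred, up_sh]
  by_cases h : (mk x : (upIdx U 𝒳).X) ≤
      mk fun i => (𝒳 i).sh ((𝒳 i).pred ((𝒳 i).pred ((𝒳 i).pred (x i))))
  · rw [if_pos h, mk_eq]
    filter_upwards [up_le.mp h] with i h
    rw [if_pos h]
  · rw [if_neg h, mk_eq]
    filter_upwards [up_not_le.mp h] with i h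
    rw [if_neg h]

theorem up_shf (a : Fin 3) (x : ∀ i, (𝒳 i).X) :
    (upIdx U 𝒳).shf a (mk x) = mk fun i => (𝒳 i).shf a (x i) := by
  match a with
  | 0 => rfl
  | 1 => rfl
  | 2 => rfl

theorem up_adf (a : Fin 3) (x : ∀ i, (𝒳 i).X) :
    (upIdx U 𝒳).adf a (mk x) = mk fun i => (𝒳 i).adf a (x i) := by
  match a with
  | 0 => rfl
  | 1 => exact up_pred x
  | 2 => exact up_ad x

/-- `α` is the limit of the family `a` of elements of the chains. -/
def Lim (a : ∀ i, El (𝒳 i).X) : El (upIdx U 𝒳).X → Prop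
  | .one => ∀ᶠ i in U, a i = .one
  | .w c => ∀ᶠ i in U, a i = .w c
  | .u ξ => ∃ x : ∀ i, (𝒳 i).X, ξ = mk x ∧ ∀ᶠ i in U, a i = .u (x i)
  | .v ξ => ∃ x : ∀ i, (𝒳 i).X, ξ = mk x ∧ ∀ᶠ i in U, a i = .v (x i)
  | .zero => ∀ᶠ i in U, a i = .zero

theorem Lim.iZ {a : ∀ i, El (𝒳 i).X} (h : ∀ᶠ i in U, a i = .zero) :
    Lim a (El.zero : El (upIdx U 𝒳).X) := h

theorem Lim.iO {a : ∀ i, El (𝒳 i).X} (h : ∀ᶠ i in U, a i = .one) :
    Lim a (El.one : El (upIdx U 𝒳).X) := h

theorem Lim.iW {a : ∀ i, El (𝒳 i).X} {c : Fin 3} (h : ∀ᶠ i in U, a i = .w c) :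
    Lim a (El.w c : El (upIdx U 𝒳).X) := h

theorem exists_lim (a : ∀ i, El (𝒳 i).X) : ∃ α : El (upIdx U 𝒳).X, Lim a α := by
  have h : ∀ᶠ i in U, a i = .one ∨ a i = .w 0 ∨ a i = .w 1 ∨ a i = .w 2 ∨ (∃ x, a i = .u x) ∨
      (∃ x, a i = .v x) ∨ a i = .zero := by
    refine Eventually.of_forall fun i => ?_
    cases a i with
    | one => simp
    | w c =>
      rcases (by omega : c = 0 ∨ c = 1 ∨ c = 2) with rfl | rfl | rfl <;> simp
    | u x => simp
    | v x => simp
    | zero => simp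
  simp only [Ultrafilter.eventually_or] at h
  rcases h with h | h | h | h | h | h | h
  · exact ⟨.one, h⟩
  · exact ⟨.w 0, h⟩
  · exact ⟨.w 1, h⟩
  · exact ⟨.w 2, h⟩
  · classical
    refine ⟨.u (mk fun i => if h : ∃ x, a i = .u x then Classical.choose h else (𝒳 i).z),
      _, rfl, ?_⟩
    filter_upwards [h] with i h
    rw [dif_pos h]
    exact Classical.choose_spec h
  · classical
    refine ⟨.v (mk fun i => if h : ∃ x, a i = .v x then Classical.choose h else (𝒳 i).z),
      _, rfl, ?_⟩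
    filter_upwards [h] with i h
    rw [dif_pos h]
    exact Classical.choose_spec h
  · exact ⟨.zero, h⟩

theorem Lim.congr {a b : ∀ i, El (𝒳 i).X} {α : El (upIdx U 𝒳).X} (h : Lim a α)
    (hab : ∀ᶠ i in U, a i = b i) : Lim b α := by
  cases α with
  | one => filter_upwards [h, hab] with i h1 h2 using h2.symm.trans h1
  | w c => filter_upwards [h, hab] with i h1 h2 using h2.symm.trans h1
  | u ξ =>
    obtain ⟨x, rfl, h⟩ := h
    exact ⟨x, rfl, by filter_upwards [h, hab] with i h1 h2 using h2.symm.trans h1⟩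
  | v ξ =>
    obtain ⟨x, rfl, h⟩ := h
    exact ⟨x, rfl, by filter_upwards [h, hab] with i h1 h2 using h2.symm.trans h1⟩
  | zero => filter_upwards [h, hab] with i h1 h2 using h2.symm.trans h1

/-- A family representing a given element. -/
theorem Lim.exists_rep (α : El (upIdx U 𝒳).X) : ∃ a : ∀ i, El (𝒳 i).X, Lim a α := by
  cases α with
  | one => exact ⟨fun _ => .one, Eventually.of_forall fun _ => rfl⟩
  | w c => exact ⟨fun _ => .w c, Eventually.of_forall fun _ => rfl⟩
  | u ξ =>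
    obtain ⟨x, rfl⟩ := mk_surj ξ
    exact ⟨fun i => .u (x i), x, rfl, Eventually.of_forall fun _ => rfl⟩
  | v ξ =>
    obtain ⟨x, rfl⟩ := mk_surj ξ
    exact ⟨fun i => .v (x i), x, rfl, Eventually.of_forall fun _ => rfl⟩
  | zero => exact ⟨fun _ => .zero, Eventually.of_forall fun _ => rfl⟩

theorem Lim.le_iff {a b : ∀ i, El (𝒳 i).X} {α β : El (upIdx U 𝒳).X} (ha : Lim a α)
    (hb : Lim b β) : α ≤ β ↔ ∀ᶠ i in U, a i ≤ b i := by
  have htrue : ∀ (α β : El (upIdx U 𝒳).X), α ≤ β → (∀ᶠ i in U, a i ≤ b i) →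
      (α ≤ β ↔ ∀ᶠ i in U, a i ≤ b i) := fun _ _ h h' => iff_of_true h h'
  have hfalse : ∀ (α β : El (upIdx U 𝒳).X), ¬ α ≤ β → (∀ᶠ i in U, ¬ a i ≤ b i) →
      (α ≤ β ↔ ∀ᶠ i in U, a i ≤ b i) := fun _ _ h h' =>
    iff_of_false h (by rwa [← Ultrafilter.eventually_not])
  cases α with
  | one =>
    cases β with
    | one =>
      refine htrue _ _ trivial ?_
      filter_upwards [ha, hb] with i h1 h2
      rw [h1, h2]
    | w c =>
      refine hfalse _ _ id ?_
      filter_upwards [ha, hb] with i h1 h2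
      rw [h1, h2]; exact id
    | u ξ =>
      obtain ⟨x, rfl, hb⟩ := hb
      refine hfalse _ _ id ?_
      filter_upwards [ha, hb] with i h1 h2
      rw [h1, h2]; exact id
    | v ξ =>
      obtain ⟨x, rfl, hb⟩ := hb
      refine hfalse _ _ id ?_
      filter_upwards [ha, hb] with i h1 h2
      rw [h1, h2]; exact id
    | zero =>
      refine hfalse _ _ id ?_
      filter_upwards [ha, hb] with i h1 h2
      rw [h1, h2]; exact id
  | w a' =>
    cases β with
    | one =>
      refine htrue _ _ trivial ?_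
      filter_upwards [ha, hb] with i h1 h2
      rw [h1, h2]; trivial
    | w c =>
      by_cases h : c ≤ a'
      · refine htrue _ _ h ?_
        filter_upwards [ha, hb] with i h1 h2
        rw [h1, h2]; exact h
      · refine hfalse _ _ h ?_
        filter_upwards [ha, hb] with i h1 h2
        rw [h1, h2]; exact h
    | u ξ =>
      obtain ⟨x, rfl, hb⟩ := hb
      refine hfalse _ _ id ?_
      filter_upwards [ha, hb] with i h1 h2
      rw [h1, h2]; exact id
    | v ξ =>
      obtain ⟨x, rfl, hb⟩ := hb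
      refine hfalse _ _ id ?_
      filter_upwards [ha, hb] with i h1 h2
      rw [h1, h2]; exact id
    | zero =>
      refine hfalse _ _ id ?_
      filter_upwards [ha, hb] with i h1 h2
      rw [h1, h2]; exact id
  | u ξ =>
    obtain ⟨x, rfl, ha⟩ := ha
    cases β with
    | one =>
      refine htrue _ _ trivial ?_
      filter_upwards [ha, hb] with i h1 h2
      rw [h1, h2]; trivial
    | w c =>
      refine htrue _ _ trivial ?_
      filter_upwards [ha, hb] with i h1 h2
      rw [h1, h2]; trivial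
    | u ξ =>
      obtain ⟨y, rfl, hb⟩ := hb
      by_cases h : (mk y : (upIdx U 𝒳).X) ≤ mk x
      · refine htrue _ _ h ?_
        filter_upwards [ha, hb, up_le.mp h] with i h1 h2 h3
        rw [h1, h2]; exact h3
      · refine hfalse _ _ h ?_
        filter_upwards [ha, hb, up_not_le.mp h] with i h1 h2 h3
        rw [h1, h2]; exact h3
    | v ξ =>
      obtain ⟨x, rfl, hb⟩ := hb
      refine hfalse _ _ id ?_
      filter_upwards [ha, hb] with i h1 h2
      rw [h1, h2]; exact id
    | zero =>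
      refine hfalse _ _ id ?_
      filter_upwards [ha, hb] with i h1 h2
      rw [h1, h2]; exact id
  | v ξ =>
    obtain ⟨x, rfl, ha⟩ := ha
    cases β with
    | one =>
      refine htrue _ _ trivial ?_
      filter_upwards [ha, hb] with i h1 h2
      rw [h1, h2]; trivial
    | w c =>
      refine htrue _ _ trivial ?_
      filter_upwards [ha, hb] with i h1 h2
      rw [h1, h2]; trivial
    | u ξ =>
      obtain ⟨y, rfl, hb⟩ := hb
      refine htrue _ _ trivial ?_
      filter_upwards [ha, hb] with i h1 h2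
      rw [h1, h2]; trivial
    | v ξ =>
      obtain ⟨y, rfl, hb⟩ := hb
      by_cases h : (mk y : (upIdx U 𝒳).X) ≤ mk x
      · refine htrue _ _ h ?_
        filter_upwards [ha, hb, up_le.mp h] with i h1 h2 h3
        rw [h1, h2]; exact h3
      · refine hfalse _ _ h ?_
        filter_upwards [ha, hb, up_not_le.mp h] with i h1 h2 h3
        rw [h1, h2]; exact h3
    | zero =>
      refine hfalse _ _ id ?_
      filter_upwards [ha, hb] with i h1 h2
      rw [h1, h2]; exact id
  | zero =>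
    refine htrue _ _ (by cases β <;> trivial) ?_
    filter_upwards [ha] with i h1
    rw [h1]
    exact fbot_le _

theorem Lim.inf {a b : ∀ i, El (𝒳 i).X} {α β : El (upIdx U 𝒳).X} (ha : Lim a α)
    (hb : Lim b β) : Lim (fun i => a i ⊓ b i) (α ⊓ β) := by
  rcases le_total α β with h | h
  · rw [inf_eq_left.mpr h]
    refine ha.congr ?_
    filter_upwards [(ha.le_iff hb).mp h] with i h using (inf_eq_left.mpr h).symm
  · rw [inf_eq_right.mpr h]
    refine hb.congr ?_
    filter_upwards [(hb.le_iff ha).mp h] with i h using (inf_eq_right.mpr h).symm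

theorem Lim.sup {a b : ∀ i, El (𝒳 i).X} {α β : El (upIdx U 𝒳).X} (ha : Lim a α)
    (hb : Lim b β) : Lim (fun i => a i ⊔ b i) (α ⊔ β) := by
  rcases le_total α β with h | h
  · rw [sup_eq_right.mpr h]
    refine hb.congr ?_
    filter_upwards [(ha.le_iff hb).mp h] with i h using (sup_eq_right.mpr h).symm
  · rw [sup_eq_left.mpr h]
    refine ha.congr ?_
    filter_upwards [(hb.le_iff ha).mp h] with i h using (sup_eq_left.mpr h).symm

theorem El.mul_def {𝒴 : Idx S} (x y : El 𝒴.X) : x * y = El.mul' x y := rfl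

theorem Lim.mul {a b : ∀ i, El (𝒳 i).X} {α β : El (upIdx U 𝒳).X} (ha : Lim a α)
    (hb : Lim b β) : Lim (fun i => a i * b i) (α * β) := by
  cases α with
  | one =>
    rw [show (El.one : El (upIdx U 𝒳).X) * β = β from one_mul β]
    refine hb.congr ?_
    filter_upwards [ha] with i h1
    rw [h1]
    exact (one_mul (b i)).symm
  | w c =>
    cases β with
    | one =>
      rw [show (El.w c : El (upIdx U 𝒳).X) * El.one = El.w c from mul_one _]
      refine ha.congr ?_
      filter_upwards [hb] with i h1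
      rw [h1]
      exact (mul_one (a i)).symm
    | w d =>
      refine ⟨fun i => (𝒳 i).std (c.val + d.val + 1), up_std _, ?_⟩
      filter_upwards [ha, hb] with i h1 h2
      rw [h1, h2]; rfl
    | u ξ =>
      obtain ⟨x, rfl, hb⟩ := hb
      refine ⟨fun i => (𝒳 i).shf c (x i), up_shf _ _, ?_⟩
      filter_upwards [ha, hb] with i h1 h2
      rw [h1, h2]; rfl
    | v ξ =>
      obtain ⟨x, rfl, hb⟩ := hb
      refine Lim.iZ ?_
      filter_upwards [ha, hb] with i h1 h2
      rw [h1, h2]; rfl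
    | zero =>
      refine Lim.iZ ?_
      filter_upwards [ha, hb] with i h1 h2
      rw [h1, h2]; rfl
  | u ξ =>
    obtain ⟨x, rfl, ha⟩ := ha
    cases β with
    | one =>
      refine ⟨x, rfl, ?_⟩
      filter_upwards [ha, hb] with i h1 h2
      rw [h1, h2]; rfl
    | w d =>
      refine ⟨fun i => (𝒳 i).shf d (x i), up_shf _ _, ?_⟩
      filter_upwards [ha, hb] with i h1 h2
      rw [h1, h2]; rfl
    | u ξ =>
      obtain ⟨x, rfl, hb⟩ := hb
      refine Lim.iZ ?_
      filter_upwards [ha, hb] with i h1 h2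
      rw [h1, h2]; rfl
    | v ξ =>
      obtain ⟨x, rfl, hb⟩ := hb
      refine Lim.iZ ?_
      filter_upwards [ha, hb] with i h1 h2
      rw [h1, h2]; rfl
    | zero =>
      refine Lim.iZ ?_
      filter_upwards [ha, hb] with i h1 h2
      rw [h1, h2]; rfl
  | v ξ =>
    obtain ⟨x, rfl, ha⟩ := ha
    cases β with
    | one =>
      refine ⟨x, rfl, ?_⟩
      filter_upwards [ha, hb] with i h1 h2
      rw [h1, h2]; rfl
    | w d =>
      refine Lim.iZ ?_
      filter_upwards [ha, hb] with i h1 h2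
      rw [h1, h2]; rfl
    | u ξ =>
      obtain ⟨x, rfl, hb⟩ := hb
      refine Lim.iZ ?_
      filter_upwards [ha, hb] with i h1 h2
      rw [h1, h2]; rfl
    | v ξ =>
      obtain ⟨x, rfl, hb⟩ := hb
      refine Lim.iZ ?_
      filter_upwards [ha, hb] with i h1 h2
      rw [h1, h2]; rfl
    | zero =>
      refine Lim.iZ ?_
      filter_upwards [ha, hb] with i h1 h2
      rw [h1, h2]; rfl
  | zero =>
    rw [show (El.zero : El (upIdx U 𝒳).X) * β = El.zero from bot_mul β]
    refine Lim.iZ ?_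
    filter_upwards [ha] with i h1
    rw [h1]
    exact bot_mul (b i)

theorem Lim.imp {a b : ∀ i, El (𝒳 i).X} {α β : El (upIdx U 𝒳).X} (ha : Lim a α)
    (hb : Lim b β) : Lim (fun i => FLewAlgebra.imp (a i) (b i)) (FLewAlgebra.imp α β) := by
  by_cases h : α ≤ β
  · rw [El.imp_of_le h]
    refine Lim.iO ?_
    filter_upwards [(ha.le_iff hb).mp h] with i h using El.imp_of_le h
  have h' : ∀ᶠ i in U, ¬ a i ≤ b i := by
    rw [Ultrafilter.eventually_not]
    exact fun h1 => h ((ha.le_iff hb).mpr h1)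
  have e1 : FLewAlgebra.imp α β = El.imp' α β := rfl
  rw [e1]
  refine Lim.congr (a := fun i => El.imp' (a i) (b i)) ?_ (Eventually.of_forall fun i => rfl)
  unfold El.imp'
  rw [if_neg h]
  cases α with
  | one =>
    refine hb.congr ?_
    filter_upwards [ha, h'] with i h1 h2
    rw [if_neg h2, h1]
  | w c =>
    cases β with
    | one => exact absurd (El.le_one'' _) h
    | w d =>
      refine Lim.iW ?_
      filter_upwards [ha, hb, h'] with i h1 h2 h3
      rw [if_neg h3, h1, h2]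
    | u ξ =>
      obtain ⟨x, rfl, hb⟩ := hb
      dsimp only
      simp only [up_std]
      split_ifs with c1 c2 c3
      · refine Lim.iW ?_
        filter_upwards [ha, hb, h', up_le.mp c1] with i h1 h2 h3 h4
        rw [if_neg h3, h1, h2]
        dsimp only
        rw [if_pos h4]
      · refine Lim.iW ?_
        filter_upwards [ha, hb, h', up_not_le.mp c1, up_le.mp c2] with i h1 h2 h3 h4 h5
        rw [if_neg h3, h1, h2]
        dsimp only
        rw [if_neg h4, if_pos h5]
      · refine Lim.iW ?_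
        filter_upwards [ha, hb, h', up_not_le.mp c1, up_not_le.mp c2, up_le.mp c3]
          with i h1 h2 h3 h4 h5 h6
        rw [if_neg h3, h1, h2]
        dsimp only
        rw [if_neg h4, if_neg h5, if_pos h6]
      · refine ⟨fun i => (𝒳 i).z, rfl, ?_⟩
        filter_upwards [ha, hb, h', up_not_le.mp c1, up_not_le.mp c2, up_not_le.mp c3]
          with i h1 h2 h3 h4 h5 h6
        rw [if_neg h3, h1, h2]
        dsimp only
        rw [if_neg h4, if_neg h5, if_neg h6]
    | v ξ =>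
      obtain ⟨x, rfl, hb⟩ := hb
      refine ⟨fun i => (𝒳 i).adf c (x i), up_adf _ _, ?_⟩
      filter_upwards [ha, hb, h'] with i h1 h2 h3
      rw [if_neg h3, h1, h2]
    | zero =>
      refine ⟨fun i => (𝒳 i).z, rfl, ?_⟩
      filter_upwards [ha, hb, h'] with i h1 h2 h3
      rw [if_neg h3, h1, h2]
  | u ξ =>
    obtain ⟨y, rfl, ha⟩ := ha
    cases β with
    | one => exact absurd (El.le_one'' _) h
    | w d => exact absurd trivial h
    | u ξ =>
      obtain ⟨x, rfl, hb⟩ := hb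
      refine Lim.iW ?_
      filter_upwards [ha, hb, h'] with i h1 h2 h3
      rw [if_neg h3, h1, h2]
    | v ξ =>
      obtain ⟨x, rfl, hb⟩ := hb
      dsimp only
      by_cases c1 : (mk x : (upIdx U 𝒳).X) ≤ mk y
      · rw [if_pos c1]
        refine Lim.iW ?_
        filter_upwards [ha, hb, h', up_le.mp c1] with i h1 h2 h3 h4
        rw [if_neg h3, h1, h2]
        dsimp only
        rw [if_pos h4]
      rw [if_neg c1]
      by_cases c2 : (mk x : (upIdx U 𝒳).X) ≤ (upIdx U 𝒳).succ (mk y)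
      · rw [if_pos c2]
        refine Lim.iW ?_
        rw [up_succ] at c2
        filter_upwards [ha, hb, h', up_not_le.mp c1, up_le.mp c2] with i h1 h2 h3 h4 h5
        rw [if_neg h3, h1, h2]
        dsimp only
        rw [if_neg h4, if_pos h5]
      rw [if_neg c2]
      rw [up_succ] at c2
      by_cases c3 : (mk x : (upIdx U 𝒳).X) ≤ (upIdx U 𝒳).sh (mk y)
      · rw [if_pos c3]
        refine Lim.iW ?_
        rw [up_sh] at c3
        filter_upwards [ha, hb, h', up_not_le.mp c1, up_not_le.mp c2, up_le.mp c3]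
          with i h1 h2 h3 h4 h5 h6
        rw [if_neg h3, h1, h2]
        dsimp only
        rw [if_neg h4, if_neg h5, if_pos h6]
      rw [if_neg c3]
      rw [up_sh] at c3
      refine ⟨fun i => (𝒳 i).z, rfl, ?_⟩
      filter_upwards [ha, hb, h', up_not_le.mp c1, up_not_le.mp c2, up_not_le.mp c3]
        with i h1 h2 h3 h4 h5 h6
      rw [if_neg h3, h1, h2]
      dsimp only
      rw [if_neg h4, if_neg h5, if_neg h6]
    | zero =>
      refine ⟨fun i => (𝒳 i).z, rfl, ?_⟩
      filter_upwards [ha, hb, h'] with i h1 h2 h3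
      rw [if_neg h3, h1, h2]
  | v ξ =>
    obtain ⟨y, rfl, ha⟩ := ha
    refine Lim.iW ?_
    filter_upwards [ha, h'] with i h1 h3
    rw [if_neg h3, h1]
  | zero => exact absurd (by cases β <;> trivial) h

theorem lim_eval {v : ∀ i, ℕ → El (𝒳 i).X} {w : ℕ → El (upIdx U 𝒳).X}
    (h : ∀ n, Lim (fun i => v i n) (w n)) (φ : Fm) : Lim (fun i => φ.eval (v i)) (φ.eval w) := by
  induction φ with
  | var n => exact h n
  | zero => exact Lim.iZ (Eventually.of_forall fun i => rfl)
  | one => exact Lim.iO (Eventually.of_forall fun i => rfl)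
  | and φ ψ ih1 ih2 => exact ih1.inf ih2
  | or φ ψ ih1 ih2 => exact ih1.sup ih2
  | mul φ ψ ih1 ih2 => exact ih1.mul ih2
  | imp φ ψ ih1 ih2 => exact ih1.imp ih2

theorem lim_eq_one {a : ∀ i, El (𝒳 i).X} {α : El (upIdx U 𝒳).X} (ha : Lim a α) :
    α = 1 ↔ ∀ᶠ i in U, a i = 1 := by
  have h1 : Lim (fun _ => El.one) (El.one : El (upIdx U 𝒳).X) :=
    Lim.iO (Eventually.of_forall fun i => rfl)
  have := h1.le_iff ha
  rw [show α = 1 ↔ El.one ≤ α from
    ⟨fun h => h.ge, fun h => le_antisymm (le_one _) h⟩, this]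
  refine eventually_congr (Eventually.of_forall fun i => ?_)
  exact ⟨fun h => le_antisymm (le_one _) h, fun h => h.ge⟩

end Ultraproduct

/-- Compactness of the family of truth sets. -/
theorem models_compact (P : Set Fm) (φ : Fm)
    (h : ∀ F : Finset Fm, ↑F ⊆ P → ∃ m ∈ models S, ↑F ⊆ m ∧ φ ∉ m) :
    ∃ m ∈ models S, P ⊆ m ∧ φ ∉ m := by
  classical
  let I := {F : Finset Fm // ↑F ⊆ P}
  have h' : ∀ F : I, ∃ (𝒳 : Idx S) (v : ℕ → El 𝒳.X),
      (∀ ψ ∈ F.1, ψ.eval v = 1) ∧ φ.eval v ≠ 1 := by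
    intro F
    obtain ⟨_, ⟨𝒳, v, rfl⟩, h1, h2⟩ := h F.1 F.2
    exact ⟨𝒳, v, fun ψ hψ => h1 hψ, h2⟩
  choose 𝒳 v hv hφ using h'
  have : Nonempty I := ⟨⟨∅, by simp⟩⟩
  have : IsDirectedOrder I := ⟨fun F G => ⟨⟨F.1 ∪ G.1, by
    rw [Finset.coe_union]; exact Set.union_subset F.2 G.2⟩,
    Finset.subset_union_left, Finset.subset_union_right⟩⟩
  let U : Ultrafilter I := Ultrafilter.of atTop
  have hU : ∀ {p : I → Prop}, (∀ᶠ F in atTop, p F) → ∀ᶠ F in U, p F :=
    fun hp => Ultrafilter.of_le atTop hp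
  choose w hw using fun n => exists_lim (U := U) (fun F => v F n)
  refine ⟨truths w, ⟨_, w, rfl⟩, ?_, ?_⟩
  · intro ψ hψ
    change ψ.eval w = 1
    rw [lim_eq_one (lim_eval hw ψ)]
    refine hU ?_
    filter_upwards [eventually_ge_atTop (⟨{ψ}, by simpa using hψ⟩ : I)] with F hF
    exact hv F ψ (hF (Finset.mem_singleton_self ψ))
  · intro hcon
    have h1 : ∀ᶠ F in U, φ.eval (v F) = 1 := (lim_eq_one (lim_eval hw φ)).mp hcon
    obtain ⟨F, hF⟩ := h1.exists
    exact hφ F hF

end Pool.Agent.Q297.CodedChains
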