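import Pool.Agent.Q297.CodedAmalgam

/-!
# Gluing two valuations in coded chains
-/

namespace Pool.Agent.Q297.CodedChains

open Pool.Agent.Q297.Residuated FLewAlgebra

variable {S : ℕ → Bool}

namespace El

variable {𝒳 : Idx S}

theorem imp_def (x y : El 𝒳.X) : imp x y = imp' x y := rfl

theorem imp_of_le {x y : El 𝒳.X} (h : x ≤ y) : imp x y = 1 := imp_eq_one.mpr h

theorem neg_one : imp (one : El 𝒳.X) zero = zero := by
  rw [imp_def]
  unfold imp'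
  rw [if_neg (by simp [le_def, le'])]

theorem neg_w (a : Fin 3) : imp (w a : El 𝒳.X) zero = v 𝒳.z := by
  rw [imp_def]
  unfold imp'
  rw [if_neg (by simp [le_def, le'])]

theorem neg_u (i : 𝒳.X) : imp (u i : El 𝒳.X) zero = u 𝒳.z := by
  rw [imp_def]
  unfold imp'
  rw [if_neg (by simp [le_def, le'])]

theorem neg_v (i : 𝒳.X) : imp (v i : El 𝒳.X) zero = w 0 := by
  rw [imp_def]
  unfold imp'
  rw [if_neg (by simp [le_def, le'])]

theorem neg_zero : imp (zero : El 𝒳.X) zero = one := by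
  rw [imp_def]
  unfold imp'
  rw [if_pos le_rfl]

theorem w_imp_v (a : Fin 3) (i : 𝒳.X) : imp (w a : El 𝒳.X) (v i) = u (𝒳.adf a i) := by
  rw [imp_def]
  unfold imp'
  rw [if_neg (by simp [le_def, le'])]

theorem w_mul_u (a : Fin 3) (i : 𝒳.X) : (w a : El 𝒳.X) * u i = v (𝒳.shf a i) := rfl

/-- Negation. -/
noncomputable def ng (x : El 𝒳.X) : El 𝒳.X := imp x zero

theorem ng_one : ng (one : El 𝒳.X) = zero := neg_one
theorem ng_w (a : Fin 3) : ng (w a : El 𝒳.X) = v 𝒳.z := neg_w a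
theorem ng_u (i : 𝒳.X) : ng (u i : El 𝒳.X) = u 𝒳.z := neg_u i
theorem ng_v (i : 𝒳.X) : ng (v i : El 𝒳.X) = w 0 := neg_v i
theorem ng_zero : ng (zero : El 𝒳.X) = one := neg_zero

end El

open El

variable {𝒳 𝒴 : Idx S}

/-- A subalgebra of the product of two chains that is the graph of an isomorphism between
subalgebras. -/
structure Sub (B : El 𝒳.X → El 𝒴.X → Prop) : Prop where
  bot : B zero zero
  mul : ∀ {a b c d}, B a b → B c d → B (a * c) (b * d)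
  imp : ∀ {a b c d}, B a b → B c d → B (imp a c) (imp b d)
  one_iff : ∀ {a b}, B a b → (a = 1 ↔ b = 1)

namespace Sub

variable {B : El 𝒳.X → El 𝒴.X → Prop} (hB : Sub B)

include hB

theorem le_iff {a b c d} (h : B a b) (h' : B c d) : a ≤ c ↔ b ≤ d := by
  rw [← imp_eq_one, ← imp_eq_one, hB.one_iff (hB.imp h h')]

theorem eq_iff {a b c d} (h : B a b) (h' : B c d) : a = c ↔ b = d := by
  rw [le_antisymm_iff, le_antisymm_iff, hB.le_iff h h', hB.le_iff h' h]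

theorem ng {a b} (h : B a b) : B (ng a) (ng b) := hB.imp h hB.bot

theorem zero_iff {a b} (h : B a b) : a = zero ↔ b = zero := hB.eq_iff h hB.bot

theorem U_iff {a b} (h : B a b) : El.ng a = El.ng (El.ng a) ↔ El.ng b = El.ng (El.ng b) :=
  hB.eq_iff (hB.ng h) (hB.ng (hB.ng h))

theorem V_iff {a b} (h : B a b) : a ≤ El.ng a ↔ b ≤ El.ng b := hB.le_iff h (hB.ng h)

end Sub

theorem U_char (a : El 𝒳.X) : ng a = ng (ng a) ↔ ∃ i, a = u i := by
  cases a with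
  | one => simp [ng_one, ng_zero]
  | w a => simp [ng_w, ng_v]
  | u i => simp [ng_u]
  | v i => simp [ng_w, ng_v]
  | zero => simp [ng_one, ng_zero]

theorem V_char (a : El 𝒳.X) (h0 : a ≠ zero) : a ≤ ng a ↔ (∃ i, a = u i) ∨ (∃ i, a = v i) := by
  cases a with
  | one => simp [ng_one, le_def, le']
  | w a => simp [ng_w, le_def, le']
  | u i => simp [ng_u, le_def, le', 𝒳.z_le]
  | v i => simp [ng_v, le_def, le']
  | zero => exact absurd rfl h0

namespace Sub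

variable {B : El 𝒳.X → El 𝒴.X → Prop} (hB : Sub B)

include hB

theorem u_left {i : 𝒳.X} {b} (h : B (u i) b) : ∃ j, b = u j :=
  (U_char b).mp ((hB.U_iff h).mp ((U_char _).mpr ⟨i, rfl⟩))

theorem u_right {a} {j : 𝒴.X} (h : B a (u j)) : ∃ i, a = u i :=
  (U_char a).mp ((hB.U_iff h).mpr ((U_char _).mpr ⟨j, rfl⟩))

theorem v_left {i : 𝒳.X} {b} (h : B (v i) b) : ∃ j, b = v j := by
  have h0 : b ≠ zero := fun h' => by
    have := (hB.zero_iff h).mpr h'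
    simp at this
  rcases (V_char b h0).mp ((hB.V_iff h).mp ((V_char _ (by simp)).mpr (Or.inr ⟨i, rfl⟩)))
    with ⟨j, rfl⟩ | h'
  · obtain ⟨i', h'⟩ := hB.u_right h
    simp at h'
  · exact h'

theorem v_right {a} {j : 𝒴.X} (h : B a (v j)) : ∃ i, a = v i := by
  have h0 : a ≠ zero := fun h' => by
    have := (hB.zero_iff h).mp h'
    simp at this
  rcases (V_char a h0).mp ((hB.V_iff h).mpr ((V_char _ (by simp)).mpr (Or.inr ⟨j, rfl⟩)))
    with ⟨i, rfl⟩ | h'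
  · obtain ⟨i', h'⟩ := hB.u_left h
    simp at h'
  · exact h'

/-- All standard elements are matched if `w 0` is. -/
theorem of_w0 (h : B (w 0) (w 0)) : B (u 𝒳.z) (u 𝒴.z) ∧ B (w 1) (w 1) ∧ B (w 2) (w 2) := by
  have h1 : B (u (𝒳.std 1)) (u (𝒴.std 1)) := hB.mul h h
  have h2 : B (v (𝒳.std 1)) (v (𝒴.std 1)) := hB.mul h h1
  have h3 : B (u 𝒳.z) (u 𝒴.z) := by
    have := hB.ng h1
    rwa [ng_u, ng_u] at this
  have h4 : B (w 1) (w 1) := by
    have := hB.imp h3 h2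
    have key : ∀ 𝒵 : Idx S, FLewAlgebra.imp (u 𝒵.z : El 𝒵.X) (v (𝒵.std 1)) = w 1 := by
      intro 𝒵
      rw [imp_def]
      unfold imp'
      rw [if_neg (by simp [le_def, le'])]
      dsimp only
      rw [if_neg, if_pos]
      · exact le_rfl
      · rw [← 𝒵.std_zero, 𝒵.std_le_std]; omega
    rwa [key, key] at this
  have h5 : B (v (𝒳.std 2)) (v (𝒴.std 2)) := hB.mul h4 h1
  have h6 : B (w 2) (w 2) := by
    have := hB.imp h3 h5
    have key : ∀ 𝒵 : Idx S, FLewAlgebra.imp (u 𝒵.z : El 𝒵.X) (v (𝒵.std 2)) = w 2 := by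
      intro 𝒵
      rw [imp_def]
      unfold imp'
      rw [if_neg (by simp [le_def, le'])]
      dsimp only
      rw [if_neg, if_neg, if_pos]
      · exact 𝒵.succ2_le_sh 𝒵.z
      · change ¬ 𝒵.std 2 ≤ 𝒵.std 1
        rw [𝒵.std_le_std]; omega
      · rw [← 𝒵.std_zero, 𝒵.std_le_std]; omega
    rwa [key, key] at this
  exact ⟨h3, h4, h6⟩

theorem w_left {a : Fin 3} {b} (h : B (w a) b) : b = w a ∧ B (w 0) (w 0) := by
  have hw : ∃ c, b = w c := by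
    cases b with
    | one => exact absurd ((hB.one_iff h).mpr rfl) (fun h' => by cases h')
    | w c => exact ⟨c, rfl⟩
    | u j => obtain ⟨i, hi⟩ := hB.u_right h; simp at hi
    | v j => obtain ⟨i, hi⟩ := hB.v_right h; simp at hi
    | zero => exact absurd ((hB.zero_iff h).mpr rfl) (by simp)
  obtain ⟨c, rfl⟩ := hw
  have h0 : B (w 0) (w 0) := by
    have := hB.ng (hB.ng h)
    rwa [ng_w, ng_w, ng_v, ng_v] at this
  obtain ⟨-, h1, h2⟩ := hB.of_w0 h0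
  have haa : B (w a) (w a) := by
    rcases (by omega : a = 0 ∨ a = 1 ∨ a = 2) with rfl | rfl | rfl <;> assumption
  exact ⟨((hB.eq_iff haa h).mp rfl).symm, h0⟩

theorem v_B {i : 𝒳.X} {j : 𝒴.X} (h : B (v i) (v j)) : B (w 0) (w 0) := by
  have := hB.ng h
  rwa [ng_v, ng_v] at this

theorem v_u {i : 𝒳.X} {j : 𝒴.X} (h : B (v i) (v j)) : B (u i) (u j) := by
  have := hB.imp (hB.v_B h) h
  rwa [w_imp_v, w_imp_v] at this

theorem u_trivial (h0 : ¬ B (w 0) (w 0)) {i : 𝒳.X} {j : 𝒴.X} (h : B (u i) (u j)) :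
    i = 𝒳.z ∧ j = 𝒴.z := by
  have hz : B (u 𝒳.z) (u 𝒴.z) := by
    have := hB.ng h
    rwa [ng_u, ng_u] at this
  have h1 := hB.imp hz h
  have key : ∀ (𝒵 : Idx S) (i : 𝒵.X), i ≠ 𝒵.z → FLewAlgebra.imp (u 𝒵.z : El 𝒵.X) (u i) = w 0 := by
    intro 𝒵 i hi
    rw [imp_def]
    unfold imp'
    rw [if_neg]
    intro h
    exact hi (le_antisymm h (𝒵.z_le i))
  have hi : i = 𝒳.z := by
    by_contra hi
    rw [key 𝒳 i hi] at h1
    exact h0 (hB.w_left h1).2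
  refine ⟨hi, ?_⟩
  rw [hi] at h
  exact ((le_antisymm ((hB.le_iff hz h).mp le_rfl) (𝒴.z_le j)))

/-- The partial isomorphism of the index structures given by `B`. -/
theorem exists_piso : ∃ r : PIso 𝒳 𝒴, (∀ i j, B (u i) (u j) → r.R i j) := by
  by_cases h0 : B (w 0) (w 0)
  · obtain ⟨hz, h1, h2⟩ := hB.of_w0 h0
    refine ⟨⟨fun i j => B (u i) (u j), hz, ?_, ?_, ?_, ?_⟩, fun i j h => h⟩
    · intro x x' y y' h h'
      exact hB.le_iff h' h
    · intro x x' h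
      have := hB.imp h0 (hB.mul h1 h)
      rwa [w_mul_u, w_mul_u, w_imp_v, w_imp_v] at this
    · intro x x' h
      have := hB.imp h1 (hB.mul h0 h)
      rw [w_mul_u, w_mul_u, w_imp_v, w_imp_v] at this
      change B (u (𝒳.pred (𝒳.succ x))) (u (𝒴.pred (𝒴.succ x'))) at this
      rwa [𝒳.pred_succ, 𝒴.pred_succ] at this
    · intro x x' h
      have := hB.imp h0 (hB.mul h2 h)
      rwa [w_mul_u, w_mul_u, w_imp_v, w_imp_v] at this
  · refine ⟨⟨fun i j => ∃ n, i = 𝒳.std n ∧ j = 𝒴.std n, ⟨0, rfl, rfl⟩, ?_, ?_, ?_, ?_⟩, ?_⟩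
    · rintro _ _ _ _ ⟨m, rfl, rfl⟩ ⟨n, rfl, rfl⟩
      rw [𝒳.std_le_std, 𝒴.std_le_std]
    · rintro _ _ ⟨m, rfl, rfl⟩
      exact ⟨m + 1, (𝒳.std_succ m).symm, (𝒴.std_succ m).symm⟩
    · rintro x x' ⟨m, h1, h2⟩
      cases m with
      | zero => exact absurd h1 (𝒳.succ_ne_z x)
      | succ m =>
        rw [Idx.std_succ] at h1 h2
        exact ⟨m, 𝒳.succ_inj h1, 𝒴.succ_inj h2⟩
    · rintro _ _ ⟨m, rfl, rfl⟩
      exact ⟨_, 𝒳.sh_std m, 𝒴.sh_std m⟩
    · intro i j h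
      obtain ⟨rfl, rfl⟩ := hB.u_trivial h0 h
      exact ⟨0, rfl, rfl⟩

theorem exists_amalgam : ∃ (𝒵 : Idx S) (e : Emb 𝒳 𝒵) (e' : Emb 𝒴 𝒵),
    ∀ a b, B a b → e.map a = e'.map b := by
  obtain ⟨r, hr⟩ := hB.exists_piso
  refine ⟨r.amalgam, r.emb1, r.emb2, ?_⟩
  intro a b h
  cases a with
  | one =>
    have : b = one := (hB.one_iff h).mp rfl
    rw [this]
    rfl
  | w a =>
    rw [(hB.w_left h).1]
    rfl
  | u i =>
    obtain ⟨j, rfl⟩ := hB.u_left h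
    exact congrArg u (r.emb_eq (hr i j h))
  | v i =>
    obtain ⟨j, rfl⟩ := hB.v_left h
    exact congrArg v (r.emb_eq (hr i j (hB.v_u h)))
  | zero =>
    have : b = zero := (hB.zero_iff h).mp rfl
    rw [this]
    rfl

end Sub

/-- The truth sets of valuations in the coded chains. -/
def models (S : ℕ → Bool) : Set (Set Fm) :=
  {m | ∃ (𝒳 : Idx S) (v : ℕ → El 𝒳.X), m = truths v}

theorem models_amalgam : ∀ m ∈ models S, ∀ m' ∈ models S, ∀ Z Z' : Set ℕ,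
    (∀ θ : Fm, θ.vars ⊆ Z ∩ Z' → (θ ∈ m ↔ θ ∈ m')) →
    ∃ m'' ∈ models S, (∀ θ : Fm, θ.vars ⊆ Z → (θ ∈ m ↔ θ ∈ m'')) ∧
      (∀ θ : Fm, θ.vars ⊆ Z' → (θ ∈ m' ↔ θ ∈ m'')) := by
  rintro _ ⟨𝒳, v, rfl⟩ _ ⟨𝒴, v', rfl⟩ Z Z' h
  let B : El 𝒳.X → El 𝒴.X → Prop := fun a b =>
    ∃ θ : Fm, θ.vars ⊆ Z ∩ Z' ∧ θ.eval v = a ∧ θ.eval v' = b
  have hB : Sub B := by
    refine ⟨⟨.zero, Set.empty_subset _, rfl, rfl⟩, ?_, ?_, ?_⟩
    · rintro _ _ _ _ ⟨θ, h1, rfl, rfl⟩ ⟨θ', h2, rfl, rfl⟩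
      exact ⟨.mul θ θ', Set.union_subset h1 h2, rfl, rfl⟩
    · rintro _ _ _ _ ⟨θ, h1, rfl, rfl⟩ ⟨θ', h2, rfl, rfl⟩
      exact ⟨.imp θ θ', Set.union_subset h1 h2, rfl, rfl⟩
    · rintro _ _ ⟨θ, h1, rfl, rfl⟩
      exact h θ h1
  obtain ⟨𝒵, e, e', hee⟩ := hB.exists_amalgam
  classical
  let w : ℕ → El 𝒵.X := fun n => if n ∈ Z then e.map (v n) else e'.map (v' n)
  refine ⟨truths w, ⟨𝒵, w, rfl⟩, ?_, ?_⟩
  · intro θ hθ
    change θ.eval v = 1 ↔ θ.eval w = 1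
    rw [eval_congr (v := w) (w := fun n => e.map (v n)) fun n hn => if_pos (hθ hn)]
    exact (e.map_eval_eq_one v θ).symm
  · intro θ hθ
    change θ.eval v' = 1 ↔ θ.eval w = 1
    rw [eval_congr (v := w) (w := fun n => e'.map (v' n))]
    · exact (e'.map_eval_eq_one v' θ).symm
    · intro n hn
      change (if n ∈ Z then e.map (v n) else e'.map (v' n)) = e'.map (v' n)
      by_cases hZ : n ∈ Z
      · rw [if_pos hZ]
        exact hee _ _ ⟨.var n, by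
          rintro k rfl
          exact ⟨hZ, hθ hn⟩, rfl, rfl⟩
      · rw [if_neg hZ]

end Pool.Agent.Q297.CodedChains
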