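import Pool.Agent.Q297.CodedCompact
import Mathlib.Tactic.DeriveCountable
import Mathlib.SetTheory.Cardinal.Continuum
import Mathlib.SetTheory.Cardinal.Arithmetic

/-!
# The logics of the coded chains: DIP and distinctness
-/

namespace Pool.Agent.Q297.CodedChains

open Pool.Agent.Q297.Residuated

deriving instance Countable for Pool.Agent.Q297.Residuated.Fm

/-- The formulas valid in all coded chains for `S`. -/
def Th (S : ℕ → Bool) : Set Fm := {ψ | ∀ m ∈ models S, ψ ∈ m}

theorem mem_Th {S : ℕ → Bool} {ψ : Fm} :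
    ψ ∈ Th S ↔ ∀ (𝒳 : Idx S) (v : ℕ → El 𝒳.X), ψ.eval v = 1 := by
  constructor
  · intro h 𝒳 v
    exact h _ ⟨𝒳, v, rfl⟩
  · rintro h _ ⟨𝒳, v, rfl⟩
    exact h 𝒳 v

theorem Th_substClosed (S : ℕ → Bool) : SubstClosed (Th S) := by
  intro σ φ hφ
  rw [mem_Th] at hφ ⊢
  intro 𝒳 v
  rw [eval_subst]
  exact hφ _ _

/-- The standard index structure. -/
def stdIdx (S : ℕ → Bool) : Idx S where
  X := ℕ
  z := 0
  succ := fun n => n + 1
  sh := fun n => if 5 ≤ n ∧ S (n - 5) then n + 3 else n + 2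
  z_le := Nat.zero_le
  succ_le _ _ := Iff.rfl
  exists_pred := by
    intro x hx
    exact ⟨x - 1, Nat.sub_add_cancel (Nat.pos_of_ne_zero hx)⟩
  sh_or := by
    intro x
    split_ifs
    · exact Or.inr rfl
    · exact Or.inl rfl
  sh_std := by
    have key : ∀ n : ℕ, (fun n : ℕ => n + 1)^[n] 0 = n := by
      intro n
      induction n with
      | zero => rfl
      | succ n ih => rw [Function.iterate_succ_apply', ih]
    intro n
    rw [key, key]

/-- Conditions on a consequence relation: it contains its premises, is closed under modus ponens,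
and is sound for MTL-algebras. -/
structure Good (D : Set Fm → Fm → Prop) : Prop where
  mem : ∀ Γ φ, φ ∈ Γ → D Γ φ
  mp : ∀ Γ φ ψ, D Γ (.imp φ ψ) → D Γ φ → D Γ ψ
  sound : ∀ Γ φ, D Γ φ → ∀ (A : Type) [MTLAlgebra A] (v : ℕ → A),
    (∀ γ ∈ Γ, γ.eval v = 1) → φ.eval v = 1

/-- The axiomatic extension by the formulas valid in all coded chains for `S`. -/
def logic (D : Set Fm → Fm → Prop) (S : ℕ → Bool) (Γ : Set Fm) (φ : Fm) : Prop :=
  D (Γ ∪ Th S) φ

variable {D : Set Fm → Fm → Prop}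

theorem logic_isAxExt (S : ℕ → Bool) : IsAxExt D (logic D S) :=
  ⟨Th S, Th_substClosed S, fun _ _ => Iff.rfl⟩

theorem logic_dip (hD : Good D) (S : ℕ → Bool) : DIP (logic D S) := by
  refine dip_criterion D (models S) 4 hD.mem hD.mp ?_ ?_ ?_ models_compact models_amalgam
  · rintro Γ φ h _ ⟨𝒳, v, rfl⟩ hΓ
    refine hD.sound _ _ h (El 𝒳.X) v ?_
    rintro γ (hγ | hγ)
    · exact hΓ hγ
    · exact hγ _ ⟨𝒳, v, rfl⟩
  · rintro _ ⟨𝒳, v, rfl⟩ h
    change (El.zero : El 𝒳.X) = El.one at h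
    cases h
  · rintro _ ⟨𝒳, v, rfl⟩ φ ψ
    exact impN_eval (fun x hx => El.pow_four x hx) v φ ψ

theorem logic_empty (hD : Good D) (S : ℕ → Bool) (ψ : Fm) : logic D S ∅ ψ ↔ ψ ∈ Th S := by
  constructor
  · intro h
    rw [mem_Th]
    intro 𝒳 v
    refine hD.sound _ _ h (El 𝒳.X) v ?_
    rintro γ (hγ | hγ)
    · exact absurd hγ (Set.notMem_empty γ)
    · exact mem_Th.mp hγ 𝒳 v
  · intro h
    exact hD.mem _ _ (Or.inr h)

/-! ## Separating formulas -/

/-- A formula that is `1` exactly if its variable is `w 0`. -/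
def sig : Fm :=
  .and (.imp (Fm.var 0).neg.neg (.var 0))
    (.and (((Fm.mul (.mul (.var 0) (.var 0)) (.var 0)).neg.pow 4).neg) ((Fm.var 0).pow 4).neg)

def fU1 : Fm := .mul (.var 0) (.var 0)
def fU0 : Fm := fU1.neg
def fV1 : Fm := .mul (.var 0) fU1
def fW1 : Fm := .imp fU0 fV1
def fV2 : Fm := .mul fW1 fU1
def fW2 : Fm := .imp fU0 fV2

/-- Terms for the elements `u n`. -/
def fU : ℕ → Fm
  | 0 => fU0
  | n + 1 => .imp (.var 0) (.mul fW1 (fU n))

/-- The formula testing the label at `n`. -/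
def fLab (n : ℕ) : Fm := .imp (.mul fW2 (fU n)) (.mul (.var 0) (fU (n + 3)))

/-- The separating formulas. -/
def sep (n : ℕ) : Fm := impN sig (fLab (n + 5)) 4

section Eval

variable {S : ℕ → Bool} {𝒳 : Idx S}

open El

theorem inf_eq_one {A : Type} [FLewAlgebra A] {x y : A} : x ⊓ y = 1 ↔ x = 1 ∧ y = 1 := by
  constructor
  · intro h
    exact ⟨le_antisymm (le_one _) (h.ge.trans inf_le_left),
      le_antisymm (le_one _) (h.ge.trans inf_le_right)⟩
  · rintro ⟨rfl, rfl⟩
    exact inf_idem _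

theorem sig_eval (v : ℕ → El 𝒳.X) : sig.eval v = 1 ↔ v 0 = w 0 := by
  unfold sig
  simp only [Fm.eval, inf_eq_one]
  rw [imp_eq_one, eval_neg, eval_neg, eval_pow, eval_pow]
  have hb : (FLewAlgebra.bot : El 𝒳.X) = zero := rfl
  have h1 : (1 : El 𝒳.X) = one := rfl
  have e1 : ∀ φ : Fm, φ.neg.eval v = ng (φ.eval v) := fun φ => rfl
  have hcube : ∀ x : El 𝒳.X, x * x * x = zero → ¬ ng (x * x * x) ^ 4 = FLewAlgebra.bot := by
    intro x hx
    rw [hx, ng_zero, ← h1, one_pow, h1, hb]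
    intro h; cases h
  simp only [e1, Fm.eval]
  generalize v 0 = x
  cases x with
  | one =>
    refine iff_of_false ?_ (by intro h; cases h)
    rintro ⟨-, -, h⟩
    rw [← h1, one_pow, h1, hb] at h
    cases h
  | w a =>
    rw [ng_w, ng_v]
    constructor
    · rintro ⟨h, -⟩
      have : a ≤ 0 := h
      rw [Fin.le_zero_iff.mp this]
    · intro h
      rw [h]
      refine ⟨le_rfl, ?_, ?_⟩
      · refine pow_four _ ?_
        have : (w 0 : El 𝒳.X) * w 0 * w 0 = El.v (𝒳.std 1) := rfl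
        rw [this, ng_v]
        intro h; cases h
      · exact pow_four _ (by intro h; cases h)
  | u x =>
    refine iff_of_false ?_ (by intro h; cases h)
    rintro ⟨-, h, -⟩
    exact hcube _ rfl h
  | v x =>
    refine iff_of_false ?_ (by intro h; cases h)
    rintro ⟨-, h, -⟩
    exact hcube _ rfl h
  | zero =>
    refine iff_of_false ?_ (by intro h; cases h)
    rintro ⟨-, h, -⟩
    exact hcube _ rfl h

theorem imp_uz_v1 (𝒵 : Idx S) : FLewAlgebra.imp (u 𝒵.z : El 𝒵.X) (v (𝒵.std 1)) = w 1 := by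
  rw [imp_def]
  unfold imp'
  rw [if_neg (by simp [le_def, le'])]
  dsimp only
  rw [if_neg, if_pos]
  · exact le_rfl
  · rw [← 𝒵.std_zero, 𝒵.std_le_std]; omega

theorem imp_uz_v2 (𝒵 : Idx S) : FLewAlgebra.imp (u 𝒵.z : El 𝒵.X) (v (𝒵.std 2)) = w 2 := by
  rw [imp_def]
  unfold imp'
  rw [if_neg (by simp [le_def, le'])]
  dsimp only
  rw [if_neg, if_neg, if_pos]
  · exact 𝒵.succ2_le_sh 𝒵.z
  · change ¬ 𝒵.std 2 ≤ 𝒵.std 1
    rw [𝒵.std_le_std]; omega
  · rw [← 𝒵.std_zero, 𝒵.std_le_std]; omega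

theorem terms_eval {v : ℕ → El 𝒳.X} (hv : v 0 = w 0) :
    fW1.eval v = w 1 ∧ fW2.eval v = w 2 ∧ ∀ n, (fU n).eval v = u (𝒳.std n) := by
  have hU1 : fU1.eval v = u (𝒳.std 1) := by
    change v 0 * v 0 = _
    rw [hv]; rfl
  have hU0 : fU0.eval v = u 𝒳.z := by
    change FLewAlgebra.imp (fU1.eval v) zero = _
    rw [hU1, neg_u]
  have hV1 : fV1.eval v = El.v (𝒳.std 1) := by
    change v 0 * fU1.eval v = _
    rw [hv, hU1]; rfl
  have hW1 : fW1.eval v = w 1 := by
    change FLewAlgebra.imp (fU0.eval v) (fV1.eval v) = _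
    rw [hU0, hV1, imp_uz_v1]
  have hV2 : fV2.eval v = El.v (𝒳.std 2) := by
    change fW1.eval v * fU1.eval v = _
    rw [hW1, hU1]; rfl
  have hW2 : fW2.eval v = w 2 := by
    change FLewAlgebra.imp (fU0.eval v) (fV2.eval v) = _
    rw [hU0, hV2, imp_uz_v2]
  refine ⟨hW1, hW2, ?_⟩
  intro n
  induction n with
  | zero => exact hU0
  | succ n ih =>
    change FLewAlgebra.imp (v 0) (fW1.eval v * (fU n).eval v) = _
    rw [hv, hW1, ih, w_mul_u, w_imp_v, 𝒳.std_succ]
    rfl

theorem lab_eval {v : ℕ → El 𝒳.X} (hv : v 0 = w 0) (n : ℕ) :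
    (fLab n).eval v = 1 ↔ (5 ≤ n ∧ S (n - 5) = true) := by
  obtain ⟨h1, h2, h3⟩ := terms_eval hv
  change FLewAlgebra.imp (fW2.eval v * (fU n).eval v) (v 0 * (fU (n + 3)).eval v) = 1 ↔ _
  rw [imp_eq_one, h2, h3, h3, hv, w_mul_u, w_mul_u]
  change 𝒳.std (n + 3) ≤ 𝒳.sh (𝒳.std n) ↔ _
  have : 𝒳.sh (𝒳.std n) = 𝒳.std (if 5 ≤ n ∧ S (n - 5) then n + 3 else n + 2) := 𝒳.sh_std n
  rw [this, 𝒳.std_le_std]
  split_ifs with h
  · exact iff_of_true le_rfl h
  · exact iff_of_false (by omega) h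

end Eval

theorem sep_mem (S : ℕ → Bool) (n : ℕ) : sep n ∈ Th S ↔ S n = true := by
  rw [mem_Th]
  have key : ∀ (𝒳 : Idx S) (v : ℕ → El 𝒳.X), (sep n).eval v = 1 ↔ (v 0 = .w 0 → S n = true) := by
    intro 𝒳 v
    unfold sep
    rw [impN_eval (fun x hx => El.pow_four x hx) v, sig_eval]
    refine forall_congr' fun hv => ?_
    rw [lab_eval hv]
    simp
  constructor
  · intro h
    exact (key (stdIdx S) fun _ => .w 0).mp (h _ _) rfl
  · intro h 𝒳 v
    rw [key]
    exact fun _ => h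

theorem logic_injective (hD : Good D) : Function.Injective (logic D) := by
  intro S S' h
  funext n
  have h1 := sep_mem S n
  have h2 := sep_mem S' n
  rw [← logic_empty hD, h] at h1
  rw [← logic_empty hD] at h2
  have h3 := h1.symm.trans h2
  cases hS : S n <;> cases hS' : S' n <;> simp_all

open Cardinal

theorem card_eq (hD : Good D) :
    #{L : Set Fm → Fm → Prop // IsAxExt D L ∧ DIP L} = 𝔠 := by
  apply le_antisymm
  · -- an axiomatic extension is determined by its set of axioms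
    let f : {L : Set Fm → Fm → Prop // IsAxExt D L ∧ DIP L} → Set Fm :=
      fun L => Classical.choose L.2.1
    have hf : Function.Injective f := by
      intro L L' h
      apply Subtype.ext
      funext Γ φ
      have h1 := (Classical.choose_spec L.2.1).2 Γ φ
      have h2 := (Classical.choose_spec L'.2.1).2 Γ φ
      have h' : Classical.choose L.2.1 = Classical.choose L'.2.1 := h
      rw [propext h1, propext h2, h']
    refine (mk_le_of_injective hf).trans ?_
    rw [mk_set, ← two_power_aleph0]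
    exact power_le_power_left two_ne_zero (mk_le_aleph0 (α := Fm))
  · have : #(ℕ → Bool) = 𝔠 := by simp
    rw [← this]
    refine mk_le_of_injective
      (f := fun S => ⟨logic D S, logic_isAxExt S, logic_dip hD S⟩) ?_
    intro S S' h
    exact logic_injective hD (congrArg Subtype.val h)

end Pool.Agent.Q297.CodedChains
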