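import Mathlib.Data.Set.Finite.Lattice
import Mathlib.Data.Finset.Union
import Mathlib.Order.WellFounded
import Mathlib.Tactic

/-!
# Ishimoto's propositional ontology `L₁` and modal translations

Shared definitions (the logic `L₁`, modal formulas, normal modal logics given by axioms, the
translation `t_F`) and the core of the embedding theorem: with
`F(x,y) = x ∧ ((y ∧ □(x ↔ y)) ∨ (¬y ∧ ◇(x ∧ y)))`
the translation is sound for every normal modal logic, and it is faithful for every normal modal
logic that is valid on a certain three-level fan with a top.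
-/

namespace Pool.Agent.Q297.Ontology

/-! ## The logic `L₁` -/

/-- Formulas of `L₁`: atoms `ε a b` for name variables `a b`, negation and disjunction. -/
inductive LForm : Type
  | eps : ℕ → ℕ → LForm
  | neg : LForm → LForm
  | or : LForm → LForm → LForm

namespace LForm

/-- Implication. -/
def imp (φ ψ : LForm) : LForm := .or (.neg φ) ψ

/-- Conjunction. -/
def and (φ ψ : LForm) : LForm := .neg (.or (.neg φ) (.neg ψ))

/-- Truth value under a truth assignment to the atoms. -/
def eval (V : ℕ → ℕ → Prop) : LForm → Prop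
  | .eps a b => V a b
  | .neg φ => ¬ eval V φ
  | .or φ ψ => eval V φ ∨ eval V ψ

end LForm

/-- Theorems of `L₁`: all propositional tautologies in the language of `L₁`, the three axiom
schemata, and modus ponens. -/
inductive LProv : LForm → Prop
  | taut (φ : LForm) : (∀ V : ℕ → ℕ → Prop, φ.eval V) → LProv φ
  | ax1 (a b : ℕ) : LProv (.imp (.eps a b) (.eps a a))
  | ax2 (a b c : ℕ) : LProv (.imp (.and (.eps a b) (.eps b c)) (.eps a c))
  | ax3 (a b c : ℕ) : LProv (.imp (.and (.eps a b) (.eps b c)) (.eps b a))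
  | mp (φ ψ : LForm) : LProv (.imp φ ψ) → LProv φ → LProv ψ

/-! ## Modal formulas and normal modal logics -/

/-- Unimodal formulas. -/
inductive MForm : Type
  | var : ℕ → MForm
  | neg : MForm → MForm
  | or : MForm → MForm → MForm
  | box : MForm → MForm

namespace MForm

/-- Implication. -/
def imp (φ ψ : MForm) : MForm := .or (.neg φ) ψ

/-- Conjunction. -/
def and (φ ψ : MForm) : MForm := .neg (.or (.neg φ) (.neg ψ))

/-- Equivalence. -/
def iff (φ ψ : MForm) : MForm := .and (.imp φ ψ) (.imp ψ φ)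

/-- Possibility. -/
def dia (φ : MForm) : MForm := .neg (.box (.neg φ))

/-- Uniform substitution. -/
def subst (σ : ℕ → MForm) : MForm → MForm
  | .var n => σ n
  | .neg φ => .neg (subst σ φ)
  | .or φ ψ => .or (subst σ φ) (subst σ ψ)
  | .box φ => .box (subst σ φ)

/-- The variables occurring in a formula. -/
def vars : MForm → Set ℕ
  | .var n => {n}
  | .neg φ => vars φ
  | .or φ ψ => vars φ ∪ vars ψ
  | .box φ => vars φ

/-- Boolean evaluation of a modal formula, where variables and formulas beginning with a box are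
treated as atoms. -/
def bval (v : ℕ → Prop) (b : MForm → Prop) : MForm → Prop
  | .var n => v n
  | .neg φ => ¬ bval v b φ
  | .or φ ψ => bval v b φ ∨ bval v b ψ
  | .box φ => b φ

/-- Classical tautologies in the modal language. -/
def Taut (φ : MForm) : Prop := ∀ v b, bval v b φ

end MForm

/-- The smallest normal modal logic containing the formulas in `Ax`: it contains all classical
tautologies and `K`, and it is closed under modus ponens, necessitation and uniform
substitution. -/
inductive Normal (Ax : Set MForm) : MForm → Prop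
  | taut (φ : MForm) : φ.Taut → Normal Ax φ
  | axK (φ ψ : MForm) : Normal Ax (.imp (.box (.imp φ ψ)) (.imp (.box φ) (.box ψ)))
  | ax (φ : MForm) : φ ∈ Ax → Normal Ax φ
  | mp (φ ψ : MForm) : Normal Ax (.imp φ ψ) → Normal Ax φ → Normal Ax ψ
  | nec (φ : MForm) : Normal Ax φ → Normal Ax (.box φ)
  | sub (σ : ℕ → MForm) (φ : MForm) : Normal Ax φ → Normal Ax (φ.subst σ)

/-- The substitution instance `F(p, q)` of a modal formula `F(x, y)` in the variables
`x = var 0` and `y = var 1`. -/
def inst (F : MForm) (p q : MForm) : MForm :=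
  F.subst (fun n => if n = 0 then p else if n = 1 then q else .var n)

/-- The translation `t_F`, where the name variable `a` is assigned the propositional variable
`var (e a)`. -/
def tr (F : MForm) (e : ℕ → ℕ) : LForm → MForm
  | .eps a b => inst F (.var (e a)) (.var (e b))
  | .neg φ => .neg (tr F e φ)
  | .or φ ψ => .or (tr F e φ) (tr F e ψ)

/-- `t_F` embeds `L₁` in the logic `Λ`: it is sound and faithful, for every injective assignment
of propositional variables to name variables. -/
def Embeds (F : MForm) (Λ : MForm → Prop) : Prop :=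
  ∀ e : ℕ → ℕ, Function.Injective e → ∀ φ : LForm, LProv φ ↔ Λ (tr F e φ)

/-! ## The formula `F` -/

/-- `F(x,y) = x ∧ ((y ∧ □(x ↔ y)) ∨ (¬y ∧ ◇(x ∧ y)))`. -/
def theF : MForm :=
  .and (.var 0)
    (.or (.and (.var 1) (.box (.iff (.var 0) (.var 1))))
      (.and (.neg (.var 1)) (.dia (.and (.var 0) (.var 1)))))

theorem vars_theF : theF.vars ⊆ {0, 1} := by
  intro n hn
  simp only [theF, MForm.and, MForm.iff, MForm.imp, MForm.dia, MForm.vars, Set.mem_union,
    Set.mem_singleton_iff, Set.mem_insert_iff] at hn ⊢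
  tauto

/-- Explicit form of `F(p, q)`. -/
def Fpq (p q : MForm) : MForm :=
  .and p (.or (.and q (.box (.iff p q))) (.and (.neg q) (.dia (.and p q))))

theorem inst_theF (p q : MForm) : inst theF p q = Fpq p q := by
  simp [inst, theF, Fpq, MForm.and, MForm.iff, MForm.imp, MForm.dia, MForm.subst]

/-! ## Soundness of the translation -/

section Soundness

variable {Ax : Set MForm}

open MForm

theorem bval_imp (v b) (φ ψ : MForm) : bval v b (.imp φ ψ) ↔ (bval v b φ → bval v b ψ) := by
  simp only [MForm.imp, bval]; tauto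

theorem bval_and (v b) (φ ψ : MForm) : bval v b (.and φ ψ) ↔ (bval v b φ ∧ bval v b ψ) := by
  simp only [MForm.and, bval]; tauto

theorem bval_iff (v b) (φ ψ : MForm) : bval v b (.iff φ ψ) ↔ (bval v b φ ↔ bval v b ψ) := by
  simp only [MForm.iff, bval_and, bval_imp]; tauto

theorem Normal.tc1 {φ ψ : MForm} (h : Normal Ax φ) (ht : Taut (.imp φ ψ)) : Normal Ax ψ :=
  .mp φ ψ (.taut _ ht) h

theorem Normal.tc2 {φ₁ φ₂ ψ : MForm} (h₁ : Normal Ax φ₁) (h₂ : Normal Ax φ₂)
    (ht : Taut (.imp φ₁ (.imp φ₂ ψ))) : Normal Ax ψ :=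
  .mp φ₂ ψ (.mp φ₁ _ (.taut _ ht) h₁) h₂

/-- Monotonicity: from a tautology `X → Z` infer `□X → □Z`. -/
theorem Normal.box1 {X Z : MForm} (ht : Taut (.imp X Z)) :
    Normal Ax (.imp (.box X) (.box Z)) :=
  .mp _ _ (.axK X Z) (.nec _ (.taut _ ht))

/-- From a tautology `X → (Y → Z)` infer `□X → (□Y → □Z)`. -/
theorem Normal.box2 {X Y Z : MForm} (ht : Taut (.imp X (.imp Y Z))) :
    Normal Ax (.imp (.box X) (.imp (.box Y) (.box Z))) := by
  have h1 : Normal Ax (.imp (.box X) (.box (.imp Y Z))) := Normal.box1 ht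
  have h2 : Normal Ax (.imp (.box (.imp Y Z)) (.imp (.box Y) (.box Z))) := .axK Y Z
  refine Normal.tc2 h1 h2 ?_
  intro v b
  simp only [bval_imp]
  tauto

theorem Normal.ax1 (p q : MForm) : Normal Ax (.imp (Fpq p q) (Fpq p p)) := by
  have h : Normal Ax (.box (.iff p p)) := by
    refine .nec _ (.taut _ ?_)
    intro v b
    rw [bval_iff]
  refine h.tc1 ?_
  intro v b
  simp only [Fpq, bval_imp, bval_and, MForm.dia, bval]
  tauto

theorem Normal.ax2 (p q r : MForm) :
    Normal Ax (.imp (.and (Fpq p q) (Fpq q r)) (Fpq p r)) := by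
  have h1 : Normal Ax (.imp (.box (.iff p q)) (.imp (.box (.iff q r)) (.box (.iff p r)))) := by
    refine Normal.box2 ?_
    intro v b
    simp only [bval_imp, bval_iff]
    tauto
  have h2 : Normal Ax (.imp (.box (.iff p q))
      (.imp (.box (.neg (.and p r))) (.box (.neg (.and q r))))) := by
    refine Normal.box2 ?_
    intro v b
    simp only [bval_imp, bval_iff, bval_and, bval]
    tauto
  refine Normal.tc2 h1 h2 ?_
  intro v b
  simp only [Fpq, bval_imp, bval_and, MForm.dia, bval]
  tauto

theorem Normal.ax3 (p q r : MForm) :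
    Normal Ax (.imp (.and (Fpq p q) (Fpq q r)) (Fpq q p)) := by
  have h1 : Normal Ax (.imp (.box (.iff p q)) (.box (.iff q p))) := by
    refine Normal.box1 ?_
    intro v b
    simp only [bval_imp, bval_iff]
    tauto
  refine h1.tc1 ?_
  intro v b
  simp only [Fpq, bval_imp, bval_and, MForm.dia, bval]
  tauto

theorem bval_tr (e : ℕ → ℕ) (v b) (φ : LForm) :
    bval v b (tr theF e φ) ↔
      φ.eval (fun a c => bval v b (tr theF e (.eps a c))) := by
  induction φ with
  | eps a c => rfl
  | neg φ ih => simp only [tr, bval, LForm.eval, ih]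
  | or φ ψ ih1 ih2 => simp only [tr, bval, LForm.eval, ih1, ih2]

/-- The translation is sound for every normal modal logic. -/
theorem sound (e : ℕ → ℕ) {φ : LForm} (h : LProv φ) : Normal Ax (tr theF e φ) := by
  induction h with
  | taut φ h => exact .taut _ fun v b => (bval_tr e v b φ).mpr (h _)
  | ax1 a c =>
    change Normal Ax (.imp (inst theF _ _) (inst theF _ _))
    rw [inst_theF, inst_theF]
    exact Normal.ax1 _ _
  | ax2 a c d =>
    change Normal Ax (.imp (.and (inst theF _ _) (inst theF _ _)) (inst theF _ _))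
    rw [inst_theF, inst_theF, inst_theF]
    exact Normal.ax2 _ _ _
  | ax3 a c d =>
    change Normal Ax (.imp (.and (inst theF _ _) (inst theF _ _)) (inst theF _ _))
    rw [inst_theF, inst_theF, inst_theF]
    exact Normal.ax3 _ _ _
  | mp φ ψ _ _ ih1 ih2 => exact .mp _ _ ih1 ih2

end Soundness

/-! ## Kripke semantics -/

/-- Truth at a world of a Kripke model. -/
def Sat {W : Type*} (R : W → W → Prop) (V : ℕ → W → Prop) : MForm → W → Prop
  | .var n, w => V n w
  | .neg φ, w => ¬ Sat R V φ w
  | .or φ ψ, w => Sat R V φ w ∨ Sat R V ψ w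
  | .box φ, w => ∀ u, R w u → Sat R V φ u

section Semantics

variable {W : Type*} {R : W → W → Prop} {V : ℕ → W → Prop}

theorem sat_imp {φ ψ : MForm} {w : W} :
    Sat R V (.imp φ ψ) w ↔ (Sat R V φ w → Sat R V ψ w) := by
  simp only [MForm.imp, Sat]; tauto

theorem sat_and {φ ψ : MForm} {w : W} :
    Sat R V (.and φ ψ) w ↔ (Sat R V φ w ∧ Sat R V ψ w) := by
  simp only [MForm.and, Sat]; tauto

theorem sat_iff {φ ψ : MForm} {w : W} :
    Sat R V (.iff φ ψ) w ↔ (Sat R V φ w ↔ Sat R V ψ w) := by
  simp only [MForm.iff, sat_and, sat_imp]; tauto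

theorem sat_dia {φ : MForm} {w : W} :
    Sat R V (.dia φ) w ↔ ∃ u, R w u ∧ Sat R V φ u := by
  simp only [MForm.dia, Sat]
  push Not
  exact Iff.rfl

theorem sat_subst (σ : ℕ → MForm) (φ : MForm) (w : W) :
    Sat R V (φ.subst σ) w ↔ Sat R (fun n => Sat R V (σ n)) φ w := by
  induction φ generalizing w with
  | var n => rfl
  | neg φ ih => simp only [MForm.subst, Sat, ih]
  | or φ ψ ih1 ih2 => simp only [MForm.subst, Sat, ih1, ih2]
  | box φ ih => simp only [MForm.subst, Sat, ih]

/-- Soundness of a normal modal logic for a frame validating its axioms. -/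
theorem normal_valid {Ax : Set MForm}
    (hAx : ∀ φ ∈ Ax, ∀ (V : ℕ → W → Prop) (w : W), Sat R V φ w) {φ : MForm}
    (h : Normal Ax φ) : ∀ (V : ℕ → W → Prop) (w : W), Sat R V φ w := by
  induction h with
  | taut φ h =>
    intro V w
    have key : ∀ ψ : MForm, Sat R V ψ w ↔
        MForm.bval (fun n => V n w) (fun χ => ∀ u, R w u → Sat R V χ u) ψ := by
      intro ψ
      induction ψ with
      | var n => rfl
      | neg φ ih => simp only [Sat, MForm.bval, ih]
      | or φ ψ ih1 ih2 => simp only [Sat, MForm.bval, ih1, ih2]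
      | box φ _ => rfl
    exact (key φ).mpr (h _ _)
  | axK φ ψ =>
    intro V w
    rw [sat_imp, sat_imp]
    intro h1 h2 u hu
    exact sat_imp.mp (h1 u hu) (h2 u hu)
  | ax φ h => exact hAx φ h
  | mp φ ψ _ _ ih1 ih2 => intro V w; exact sat_imp.mp (ih1 V w) (ih2 V w)
  | nec φ _ ih => intro V w u _; exact ih V u
  | sub σ φ _ ih => intro V w; rw [sat_subst]; exact ih _ w

end Semantics

/-! ## The fan with a top -/

/-- The worlds of the fan: a root, points indexed by the names, and a top. -/
inductive Fan : Type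
  | root : Fan
  | pt : ℕ → Fan
  | top : Fan

/-- The order of the fan: `root ≤ pt d ≤ top`. -/
def Fan.le : Fan → Fan → Prop
  | .root, _ => True
  | .pt d, .pt d' => d = d'
  | .pt _, .top => True
  | .top, .top => True
  | _, _ => False

/-- A relation on names satisfying the axioms of `L₁`. -/
structure IsOnt (E : ℕ → ℕ → Prop) : Prop where
  a1 : ∀ a b, E a b → E a a
  a2 : ∀ a b c, E a b → E b c → E a c
  a3 : ∀ a b c, E a b → E b c → E b a

/-- The set assigned to the name `a`. -/
def InP (E : ℕ → ℕ → Prop) (a : ℕ) : Fan → Prop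
  | .root => E a a
  | .pt d => E d d ∧ E d a
  | .top => False

theorem sat_F {E : ℕ → ℕ → Prop} (hE : IsOnt E) {V : ℕ → Fan → Prop} {a b m n : ℕ}
    (ha : ∀ w, V m w ↔ InP E a w) (hb : ∀ w, V n w ↔ InP E b w) :
    Sat Fan.le V (Fpq (.var m) (.var n)) .root ↔ E a b := by
  simp only [Fpq, sat_and, Sat, sat_iff, sat_dia, ha, hb, InP]
  constructor
  · rintro ⟨haa, (⟨hbb, h⟩ | ⟨hbb, u, _, hu1, hu2⟩)⟩
    · have h1 := (h (.pt a) trivial).mp ⟨haa, haa⟩
      exact h1.2
    · cases u with
      | root => exact absurd hu2 hbb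
      | pt d =>
        obtain ⟨hdd, hda⟩ := hu1
        have had : E a d := hE.a3 d a a hda haa
        exact hE.a2 a d b had hu2.2
      | top => exact hu1.elim
  · intro hab
    have haa := hE.a1 a b hab
    refine ⟨haa, ?_⟩
    by_cases hbb : E b b
    · left
      refine ⟨hbb, ?_⟩
      have hba : E b a := hE.a3 a b b hab hbb
      intro u _
      cases u with
      | root => exact ⟨fun _ => hbb, fun _ => haa⟩
      | pt d =>
        exact ⟨fun h => ⟨h.1, hE.a2 d a b h.2 hab⟩, fun h => ⟨h.1, hE.a2 d b a h.2 hba⟩⟩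
      | top => exact Iff.rfl
    · right
      exact ⟨hbb, .pt a, trivial, ⟨haa, haa⟩, ⟨haa, hab⟩⟩

/-! ## Propositional completeness of `L₁` -/

/-- The names occurring in a formula. -/
def names : LForm → Finset ℕ
  | .eps a b => {a, b}
  | .neg φ => names φ
  | .or φ ψ => names φ ∪ names ψ

theorem eval_congr {V V' : ℕ → ℕ → Prop} {N : Finset ℕ} (h : ∀ a ∈ N, ∀ b ∈ N, V a b ↔ V' a b) :
    ∀ φ : LForm, names φ ⊆ N → (φ.eval V ↔ φ.eval V') := by
  intro φ
  induction φ with
  | eps a b =>
    intro hN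
    exact h a (hN (by simp [names])) b (hN (by simp [names]))
  | neg φ ih => intro hN; simp only [LForm.eval, ih hN]
  | or φ ψ ih1 ih2 =>
    intro hN
    simp only [LForm.eval, ih1 (Finset.union_subset_left hN), ih2 (Finset.union_subset_right hN)]

/-- The list of the axiom instances over a finite set of names. -/
noncomputable def axs (N : Finset ℕ) : List LForm :=
  (N.toList.flatMap fun a => N.toList.flatMap fun b => N.toList.flatMap fun c =>
    [.imp (.eps a b) (.eps a a), .imp (.and (.eps a b) (.eps b c)) (.eps a c),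
      .imp (.and (.eps a b) (.eps b c)) (.eps b a)])

theorem axs_prov (N : Finset ℕ) : ∀ φ ∈ axs N, LProv φ := by
  intro φ hφ
  simp only [axs, List.mem_flatMap, List.mem_cons, List.not_mem_nil, or_false] at hφ
  obtain ⟨a, _, b, _, c, _, h⟩ := hφ
  rcases h with rfl | rfl | rfl
  · exact .ax1 a b
  · exact .ax2 a b c
  · exact .ax3 a b c

/-- Nested implication. -/
def impList : List LForm → LForm → LForm
  | [], φ => φ
  | a :: l, φ => .imp a (impList l φ)

theorem eval_imp (V : ℕ → ℕ → Prop) (φ ψ : LForm) :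
    (LForm.imp φ ψ).eval V ↔ (φ.eval V → ψ.eval V) := by
  simp only [LForm.imp, LForm.eval]; tauto

theorem eval_and (V : ℕ → ℕ → Prop) (φ ψ : LForm) :
    (LForm.and φ ψ).eval V ↔ (φ.eval V ∧ ψ.eval V) := by
  simp only [LForm.and, LForm.eval]; tauto

theorem eval_impList (V : ℕ → ℕ → Prop) (l : List LForm) (φ : LForm) :
    (impList l φ).eval V ↔ ((∀ a ∈ l, a.eval V) → φ.eval V) := by
  induction l with
  | nil => simp [impList]
  | cons a l ih =>
    simp only [impList, eval_imp, ih, List.mem_cons, forall_eq_or_imp]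
    tauto

theorem prov_of_impList {l : List LForm} {φ : LForm} (h : LProv (impList l φ))
    (hl : ∀ a ∈ l, LProv a) : LProv φ := by
  induction l with
  | nil => exact h
  | cons a l ih => exact ih (.mp _ _ h (hl a (by simp))) fun b hb => hl b (by simp [hb])

/-- If `φ` is not a theorem of `L₁`, it is false under an assignment given by a relation
satisfying the axioms. -/
theorem exists_ont {φ : LForm} (h : ¬ LProv φ) : ∃ E, IsOnt E ∧ ¬ φ.eval E := by
  have h1 : ¬ ∀ V : ℕ → ℕ → Prop, (impList (axs (names φ)) φ).eval V :=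
    fun hall => h (prov_of_impList (.taut _ hall) (axs_prov _))
  push Not at h1
  obtain ⟨V, hV⟩ := h1
  rw [eval_impList] at hV
  push Not at hV
  obtain ⟨hV1, hV2⟩ := hV
  set N := names φ with hN
  have hax : ∀ a ∈ N, ∀ b ∈ N, ∀ c ∈ N,
      (V a b → V a a) ∧ (V a b → V b c → V a c) ∧ (V a b → V b c → V b a) := by
    intro a ha b hb c hc
    have hm : ∀ χ ∈ ([.imp (.eps a b) (.eps a a), .imp (.and (.eps a b) (.eps b c)) (.eps a c),
        .imp (.and (.eps a b) (.eps b c)) (.eps b a)] : List LForm), χ ∈ axs N := by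
      intro χ hχ
      simp only [axs, List.mem_flatMap, Finset.mem_toList]
      exact ⟨a, ha, b, hb, c, hc, hχ⟩
    have e1 := hV1 _ (hm (.imp (.eps a b) (.eps a a)) (by simp))
    have e2 := hV1 _ (hm (.imp (.and (.eps a b) (.eps b c)) (.eps a c)) (by simp))
    have e3 := hV1 _ (hm (.imp (.and (.eps a b) (.eps b c)) (.eps b a)) (by simp))
    rw [eval_imp] at e1 e2 e3
    rw [eval_and] at e2 e3
    exact ⟨e1, fun h h' => e2 ⟨h, h'⟩, fun h h' => e3 ⟨h, h'⟩⟩
  refine ⟨fun a b => a ∈ N ∧ b ∈ N ∧ V a b, ⟨?_, ?_, ?_⟩, ?_⟩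
  · rintro a b ⟨ha, hb, hab⟩
    exact ⟨ha, ha, (hax a ha b hb a ha).1 hab⟩
  · rintro a b c ⟨ha, hb, hab⟩ ⟨_, hc, hbc⟩
    exact ⟨ha, hc, (hax a ha b hb c hc).2.1 hab hbc⟩
  · rintro a b c ⟨ha, hb, hab⟩ ⟨_, hc, hbc⟩
    exact ⟨hb, ha, (hax a ha b hb c hc).2.2 hab hbc⟩
  · rw [← eval_congr (V := V) (N := N) (fun a ha b hb => ⟨fun h => ⟨ha, hb, h⟩, fun h => h.2.2⟩)
      φ hN.symm.subset.ge.le]
    exact hV2

/-- The translation is faithful for every normal modal logic valid on the fan. -/
theorem faithful {Ax : Set MForm}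
    (hAx : ∀ φ ∈ Ax, ∀ (V : ℕ → Fan → Prop) (w : Fan), Sat Fan.le V φ w)
    {e : ℕ → ℕ} (he : Function.Injective e) {φ : LForm} (h : Normal Ax (tr theF e φ)) :
    LProv φ := by
  by_contra hcon
  obtain ⟨E, hE, hφ⟩ := exists_ont hcon
  let V : ℕ → Fan → Prop := fun n w => ∃ a, e a = n ∧ InP E a w
  have hV : ∀ a w, V (e a) w ↔ InP E a w := by
    intro a w
    constructor
    · rintro ⟨b, hb, hw⟩
      rw [he hb] at hw
      exact hw
    · exact fun hw => ⟨a, rfl, hw⟩
  have key : ∀ ψ : LForm, Sat Fan.le V (tr theF e ψ) .root ↔ ψ.eval E := by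
    intro ψ
    induction ψ with
    | eps a b =>
      change Sat Fan.le V (inst theF (.var (e a)) (.var (e b))) .root ↔ E a b
      rw [inst_theF]
      exact sat_F hE (hV a) (hV b)
    | neg φ ih => simp only [tr, Sat, LForm.eval, ih]
    | or φ ψ ih1 ih2 => simp only [tr, Sat, LForm.eval, ih1, ih2]
  exact hφ ((key φ).mp (normal_valid hAx h V .root))

theorem embeds {Ax : Set MForm}
    (hAx : ∀ φ ∈ Ax, ∀ (V : ℕ → Fan → Prop) (w : Fan), Sat Fan.le V φ w) :
    Embeds theF (Normal Ax) :=
  fun e he _ => ⟨fun h => sound e h, fun h => faithful hAx he h⟩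

theorem Fan.le_refl (w : Fan) : Fan.le w w := by cases w <;> simp [Fan.le]

theorem Fan.le_trans {u v w : Fan} (h1 : Fan.le u v) (h2 : Fan.le v w) : Fan.le u w := by
  cases u <;> cases v <;> cases w <;> simp_all [Fan.le]

theorem Fan.le_top (w : Fan) : Fan.le w .top := by cases w <;> simp [Fan.le]

end Pool.Agent.Q297.Ontology
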