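import Mathlib

/-!
Projective algebras of plane sets: definitions and basic facts.
-/

set_option autoImplicit false

namespace Pool.Agent.Q297.ProjAlg

open Set

/-- The plane. -/
abbrev Plane : Type := ℝ × ℝ

/-- The first axis. -/
def AX : Set Plane := {p | p.2 = 0}

/-- The second axis. -/
def AY : Set Plane := {p | p.1 = 0}

/-- The projection to the first axis. -/
def pr1 (S : Set Plane) : Set Plane := {p | p.2 = 0 ∧ ∃ y : ℝ, (p.1, y) ∈ S}

/-- The projection to the second axis. -/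
def pr2 (S : Set Plane) : Set Plane := {p | p.1 = 0 ∧ ∃ x : ℝ, (x, p.2) ∈ S}

/-- The direct product of a subset `A` of the first axis and a subset `B` of the second axis. -/
def dprod (A B : Set Plane) : Set Plane := {p | (p.1, (0 : ℝ)) ∈ A ∧ ((0 : ℝ), p.2) ∈ B}

/-- A projective algebra (of plane sets): a family of subsets of the plane closed under complement,
finite unions and intersections, both projections, and direct products of subsets of the first axis
with subsets of the second axis. -/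
structure IsProjAlg (F : Set (Set Plane)) : Prop where
  compl : ∀ S ∈ F, Sᶜ ∈ F
  union : ∀ S ∈ F, ∀ T ∈ F, S ∪ T ∈ F
  inter : ∀ S ∈ F, ∀ T ∈ F, S ∩ T ∈ F
  pr1 : ∀ S ∈ F, pr1 S ∈ F
  pr2 : ∀ S ∈ F, pr2 S ∈ F
  dprod : ∀ A ∈ F, ∀ B ∈ F, A ⊆ AX → B ⊆ AY → dprod A B ∈ F

/-- The map `f` is an isomorphism from `F` onto `G`: it is a bijection from `F` to `G` that
preserves complements, unions, intersections, both projections, and direct products (only the
values of `f` on `F` matter). -/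
structure IsIso (f : Set Plane → Set Plane) (F G : Set (Set Plane)) : Prop where
  bij : BijOn f F G
  compl : ∀ S ∈ F, f Sᶜ = (f S)ᶜ
  union : ∀ S ∈ F, ∀ T ∈ F, f (S ∪ T) = f S ∪ f T
  inter : ∀ S ∈ F, ∀ T ∈ F, f (S ∩ T) = f S ∩ f T
  pr1 : ∀ S ∈ F, f (pr1 S) = ProjAlg.pr1 (f S)
  pr2 : ∀ S ∈ F, f (pr2 S) = ProjAlg.pr2 (f S)
  dprod : ∀ A ∈ F, ∀ B ∈ F, A ⊆ AX → B ⊆ AY → f (dprod A B) = ProjAlg.dprod (f A) (f B)

/-- The families `F` and `G` are isomorphic. -/
def Isomorphic (F G : Set (Set Plane)) : Prop := ∃ f, IsIso f F G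

/-- The projective algebra generated by the sets `S i`: the smallest one containing them. -/
def gen {k : ℕ} (S : Fin k → Set Plane) : Set (Set Plane) :=
  {T | ∀ F, IsProjAlg F → (∀ i, S i ∈ F) → T ∈ F}

/-! ### Terms -/

/-- Terms in `k` variables. -/
inductive Tm (k : ℕ) : Type
  | var : Fin k → Tm k
  | compl : Tm k → Tm k
  | union : Tm k → Tm k → Tm k
  | pr1 : Tm k → Tm k
  | pr2 : Tm k → Tm k
  | box : Tm k → Tm k → Tm k

/-- The value of a term; `box S T` is the direct product of the projections of `S` and `T`. -/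
def Tm.eval {k : ℕ} (S : Fin k → Set Plane) : Tm k → Set Plane
  | .var i => S i
  | .compl t => (t.eval S)ᶜ
  | .union s t => s.eval S ∪ t.eval S
  | .pr1 t => ProjAlg.pr1 (t.eval S)
  | .pr2 t => ProjAlg.pr2 (t.eval S)
  | .box s t => ProjAlg.dprod (ProjAlg.pr1 (s.eval S)) (ProjAlg.pr2 (t.eval S))

theorem pr1_subset (S : Set Plane) : pr1 S ⊆ AX := fun _ h => h.1

theorem pr2_subset (S : Set Plane) : pr2 S ⊆ AY := fun _ h => h.1

theorem pr1_eq_self {A : Set Plane} (h : A ⊆ AX) : pr1 A = A := by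
  ext ⟨x, y⟩
  constructor
  · rintro ⟨h1, y', h2⟩
    have h3 : y' = 0 := h h2
    have h4 : y = 0 := h1
    subst h3 h4
    exact h2
  · intro h1
    exact ⟨h h1, y, h1⟩

theorem pr2_eq_self {A : Set Plane} (h : A ⊆ AY) : pr2 A = A := by
  ext ⟨x, y⟩
  constructor
  · rintro ⟨h1, x', h2⟩
    have h3 : x' = 0 := h h2
    have h4 : x = 0 := h1
    subst h3 h4
    exact h2
  · intro h1
    exact ⟨h h1, x, h1⟩

theorem IsProjAlg.eval_mem {k : ℕ} {F : Set (Set Plane)} (hF : IsProjAlg F)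
    {S : Fin k → Set Plane} (hS : ∀ i, S i ∈ F) (t : Tm k) : t.eval S ∈ F := by
  induction t with
  | var i => exact hS i
  | compl t ih => exact hF.compl _ ih
  | union s t ihs iht => exact hF.union _ ihs _ iht
  | pr1 t ih => exact hF.pr1 _ ih
  | pr2 t ih => exact hF.pr2 _ ih
  | box s t ihs iht =>
    exact hF.dprod _ (hF.pr1 _ ihs) _ (hF.pr2 _ iht) (pr1_subset _) (pr2_subset _)

theorem isProjAlg_range {k : ℕ} (S : Fin k → Set Plane) :
    IsProjAlg (range fun t : Tm k => t.eval S) := by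
  refine ⟨?_, ?_, ?_, ?_, ?_, ?_⟩
  · rintro _ ⟨t, rfl⟩; exact ⟨.compl t, rfl⟩
  · rintro _ ⟨s, rfl⟩ _ ⟨t, rfl⟩; exact ⟨.union s t, rfl⟩
  · rintro _ ⟨s, rfl⟩ _ ⟨t, rfl⟩
    refine ⟨.compl (.union (.compl s) (.compl t)), ?_⟩
    simp only [Tm.eval, compl_union, compl_compl]
  · rintro _ ⟨t, rfl⟩; exact ⟨.pr1 t, rfl⟩
  · rintro _ ⟨t, rfl⟩; exact ⟨.pr2 t, rfl⟩
  · rintro _ ⟨s, rfl⟩ _ ⟨t, rfl⟩ h1 h2
    refine ⟨.box s t, ?_⟩
    simp only [Tm.eval]
    rw [pr1_eq_self h1, pr2_eq_self h2]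

theorem gen_eq {k : ℕ} (S : Fin k → Set Plane) : gen S = range fun t : Tm k => t.eval S := by
  apply Subset.antisymm
  · intro T hT
    exact hT _ (isProjAlg_range S) (fun i => ⟨.var i, rfl⟩)
  · rintro _ ⟨t, rfl⟩ F hF hS
    exact hF.eval_mem hS t

theorem gen_isProjAlg {k : ℕ} (S : Fin k → Set Plane) : IsProjAlg (gen S) := by
  rw [gen_eq]; exact isProjAlg_range S

theorem mem_gen {k : ℕ} (S : Fin k → Set Plane) (i : Fin k) : S i ∈ gen S :=
  fun _ _ h => h i

/-- Coding of terms by natural numbers. -/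
def Tm.code {k : ℕ} : Tm k → ℕ
  | .var i => Nat.pair 0 i
  | .compl t => Nat.pair 1 t.code
  | .union s t => Nat.pair 2 (Nat.pair s.code t.code)
  | .pr1 t => Nat.pair 3 t.code
  | .pr2 t => Nat.pair 4 t.code
  | .box s t => Nat.pair 5 (Nat.pair s.code t.code)

theorem Tm.code_injective {k : ℕ} : Function.Injective (Tm.code : Tm k → ℕ) := by
  intro s
  induction s with
  | var i =>
    intro t h
    cases t <;> simp only [Tm.code, Nat.pair_eq_pair] at h <;> try omega
    rw [Fin.ext h.2]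
  | compl s ih =>
    intro t h
    cases t <;> simp only [Tm.code, Nat.pair_eq_pair] at h <;> try omega
    rw [ih h.2]
  | union s1 s2 ih1 ih2 =>
    intro t h
    cases t <;> simp only [Tm.code, Nat.pair_eq_pair] at h <;> try omega
    rw [ih1 h.2.1, ih2 h.2.2]
  | pr1 s ih =>
    intro t h
    cases t <;> simp only [Tm.code, Nat.pair_eq_pair] at h <;> try omega
    rw [ih h.2]
  | pr2 s ih =>
    intro t h
    cases t <;> simp only [Tm.code, Nat.pair_eq_pair] at h <;> try omega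
    rw [ih h.2]
  | box s1 s2 ih1 ih2 =>
    intro t h
    cases t <;> simp only [Tm.code, Nat.pair_eq_pair] at h <;> try omega
    rw [ih1 h.2.1, ih2 h.2.2]

instance {k : ℕ} : Countable (Tm k) := Tm.code_injective.countable

theorem gen_countable {k : ℕ} (S : Fin k → Set Plane) : (gen S).Countable := by
  rw [gen_eq]; exact countable_range _

/-! ### Isomorphisms -/

theorem IsIso.eval {k : ℕ} {f : Set Plane → Set Plane} {F G : Set (Set Plane)} (hF : IsProjAlg F)
    (h : IsIso f F G) {S : Fin k → Set Plane} (hS : ∀ i, S i ∈ F) (t : Tm k) :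
    f (t.eval S) = t.eval fun i => f (S i) := by
  induction t with
  | var i => rfl
  | compl t ih => simp only [Tm.eval]; rw [h.compl _ (hF.eval_mem hS t), ih]
  | union s t ihs iht =>
    simp only [Tm.eval]; rw [h.union _ (hF.eval_mem hS s) _ (hF.eval_mem hS t), ihs, iht]
  | pr1 t ih => simp only [Tm.eval]; rw [h.pr1 _ (hF.eval_mem hS t), ih]
  | pr2 t ih => simp only [Tm.eval]; rw [h.pr2 _ (hF.eval_mem hS t), ih]
  | box s t ihs iht =>
    simp only [Tm.eval]
    rw [h.dprod _ (hF.pr1 _ (hF.eval_mem hS s)) _ (hF.pr2 _ (hF.eval_mem hS t)) (pr1_subset _)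
      (pr2_subset _), h.pr1 _ (hF.eval_mem hS s), h.pr2 _ (hF.eval_mem hS t), ihs, iht]

theorem Isomorphic.refl (F : Set (Set Plane)) : Isomorphic F F :=
  ⟨id, bijOn_id F, fun _ _ => rfl, fun _ _ _ _ => rfl, fun _ _ _ _ => rfl, fun _ _ => rfl,
    fun _ _ => rfl, fun _ _ _ _ _ _ => rfl⟩

theorem Isomorphic.trans {F G H : Set (Set Plane)} (h1 : Isomorphic F G) (h2 : Isomorphic G H) :
    Isomorphic F H := by
  obtain ⟨f, hf⟩ := h1
  obtain ⟨g, hg⟩ := h2
  have hm : ∀ S ∈ F, f S ∈ G := fun S hS => hf.bij.mapsTo hS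
  refine ⟨g ∘ f, hg.bij.comp hf.bij, fun S hS => ?_, fun S hS T hT => ?_, fun S hS T hT => ?_,
    fun S hS => ?_, fun S hS => ?_, fun A hA B hB h3 h4 => ?_⟩ <;> simp only [Function.comp]
  · rw [hf.compl S hS, hg.compl _ (hm S hS)]
  · rw [hf.union S hS T hT, hg.union _ (hm S hS) _ (hm T hT)]
  · rw [hf.inter S hS T hT, hg.inter _ (hm S hS) _ (hm T hT)]
  · rw [hf.pr1 S hS, hg.pr1 _ (hm S hS)]
  · rw [hf.pr2 S hS, hg.pr2 _ (hm S hS)]
  · rw [hf.dprod A hA B hB h3 h4, hg.dprod _ (hm A hA) _ (hm B hB)]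
    · rw [← pr1_eq_self h3, hf.pr1 A hA]; exact pr1_subset _
    · rw [← pr2_eq_self h4, hf.pr2 B hB]; exact pr2_subset _

theorem Isomorphic.symm {F G : Set (Set Plane)} (hF : IsProjAlg F) (h : Isomorphic F G) :
    Isomorphic G F := by
  obtain ⟨f, hf⟩ := h
  set g := Function.invFunOn f F with hg
  have hb : BijOn g G F := by
    refine ⟨fun T hT => ?_, fun T hT T' hT' he => ?_, fun S hS => ?_⟩
    · exact Function.invFunOn_mem (hf.bij.surjOn hT)
    · have h1 := Function.invFunOn_eq (hf.bij.surjOn hT)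
      have h2 := Function.invFunOn_eq (hf.bij.surjOn hT')
      rw [← h1, ← h2]
      exact congrArg f he
    · refine ⟨f S, hf.bij.mapsTo hS, ?_⟩
      exact hf.bij.injOn (Function.invFunOn_mem (hf.bij.surjOn (hf.bij.mapsTo hS))) hS
        (Function.invFunOn_eq (hf.bij.surjOn (hf.bij.mapsTo hS)))
  have hm : ∀ T ∈ G, g T ∈ F := fun T hT => hb.mapsTo hT
  have hfg : ∀ T ∈ G, f (g T) = T := fun T hT => Function.invFunOn_eq (hf.bij.surjOn hT)
  have hgf : ∀ S ∈ F, g (f S) = S := fun S hS =>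
    hf.bij.injOn (hm _ (hf.bij.mapsTo hS)) hS (hfg _ (hf.bij.mapsTo hS))
  refine ⟨g, hb, fun S hS => ?_, fun S hS T hT => ?_, fun S hS T hT => ?_,
    fun S hS => ?_, fun S hS => ?_, fun A hA B hB h3 h4 => ?_⟩
  · conv_lhs => rw [← hfg S hS, ← hf.compl _ (hm S hS)]
    exact hgf _ (hF.compl _ (hm S hS))
  · conv_lhs => rw [← hfg S hS, ← hfg T hT, ← hf.union _ (hm S hS) _ (hm T hT)]
    exact hgf _ (hF.union _ (hm S hS) _ (hm T hT))
  · conv_lhs => rw [← hfg S hS, ← hfg T hT, ← hf.inter _ (hm S hS) _ (hm T hT)]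
    exact hgf _ (hF.inter _ (hm S hS) _ (hm T hT))
  · conv_lhs => rw [← hfg S hS, ← hf.pr1 _ (hm S hS)]
    exact hgf _ (hF.pr1 _ (hm S hS))
  · conv_lhs => rw [← hfg S hS, ← hf.pr2 _ (hm S hS)]
    exact hgf _ (hF.pr2 _ (hm S hS))
  · have hA' : g A ⊆ AX := by
      have e : ProjAlg.pr1 (g A) = g A := by
        apply hf.bij.injOn (hF.pr1 _ (hm A hA)) (hm A hA)
        rw [hf.pr1 _ (hm A hA), hfg A hA, pr1_eq_self h3]
      rw [← e]; exact pr1_subset _
    have hB' : g B ⊆ AY := by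
      have e : ProjAlg.pr2 (g B) = g B := by
        apply hf.bij.injOn (hF.pr2 _ (hm B hB)) (hm B hB)
        rw [hf.pr2 _ (hm B hB), hfg B hB, pr2_eq_self h4]
      rw [← e]; exact pr2_subset _
    conv_lhs => rw [← hfg A hA, ← hfg B hB, ← hf.dprod _ (hm A hA) _ (hm B hB) hA' hB']
    exact hgf _ (hF.dprod _ (hm A hA) _ (hm B hB) hA' hB')

/-- Tuples that satisfy the same equations generate isomorphic algebras. -/
theorem isomorphic_of_eval {k : ℕ} (S T : Fin k → Set Plane)
    (h : ∀ s t : Tm k, s.eval S = t.eval S ↔ s.eval T = t.eval T) :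
    Isomorphic (gen S) (gen T) := by
  classical
  have hS : ∀ A ∈ gen S, ∃ t : Tm k, t.eval S = A := by
    intro A hA; rw [gen_eq] at hA; exact hA
  set f : Set Plane → Set Plane := fun A => if hA : A ∈ gen S then (hS A hA).choose.eval T else A
    with hf
  have key : ∀ t : Tm k, f (t.eval S) = t.eval T := by
    intro t
    have hm : t.eval S ∈ gen S := by rw [gen_eq]; exact ⟨t, rfl⟩
    simp only [hf, dif_pos hm]
    exact (h _ _).mp (hS _ hm).choose_spec
  refine ⟨f, ⟨fun A hA => ?_, fun A hA B hB he => ?_, fun B hB => ?_⟩, fun A hA => ?_,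
    fun A hA B hB => ?_, fun A hA B hB => ?_, fun A hA => ?_, fun A hA => ?_,
    fun A hA B hB h3 h4 => ?_⟩
  · obtain ⟨t, rfl⟩ := hS A hA
    rw [key, gen_eq]; exact ⟨t, rfl⟩
  · obtain ⟨s, rfl⟩ := hS A hA
    obtain ⟨t, rfl⟩ := hS B hB
    rw [key, key] at he
    exact (h _ _).mpr he
  · rw [gen_eq] at hB
    obtain ⟨t, rfl⟩ := hB
    exact ⟨t.eval S, by rw [gen_eq]; exact ⟨t, rfl⟩, key t⟩
  · obtain ⟨t, rfl⟩ := hS A hA
    rw [key]; exact key (.compl t)
  · obtain ⟨s, rfl⟩ := hS A hA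
    obtain ⟨t, rfl⟩ := hS B hB
    rw [key, key]; exact key (.union s t)
  · obtain ⟨s, rfl⟩ := hS A hA
    obtain ⟨t, rfl⟩ := hS B hB
    rw [key, key]
    have := key (.compl (.union (.compl s) (.compl t)))
    simpa only [Tm.eval, compl_union, compl_compl] using this
  · obtain ⟨t, rfl⟩ := hS A hA
    rw [key]; exact key (.pr1 t)
  · obtain ⟨t, rfl⟩ := hS A hA
    rw [key]; exact key (.pr2 t)
  · obtain ⟨s, rfl⟩ := hS A hA
    obtain ⟨t, rfl⟩ := hS B hB
    rw [key, key]
    have h5 := key (.box s t)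
    simp only [Tm.eval] at h5
    rw [pr1_eq_self h3, pr2_eq_self h4] at h5
    rw [h5]
    have e1 : ProjAlg.pr1 (s.eval T) = s.eval T := by
      have := (h (.pr1 s) s).mp (pr1_eq_self h3)
      exact this
    have e2 : ProjAlg.pr2 (t.eval T) = t.eval T := by
      have := (h (.pr2 t) t).mp (pr2_eq_self h4)
      exact this
    rw [e1, e2]

/-! ### The sets `SN N` -/

/-- The plane set attached to a set `N` of natural numbers. -/
def SN (N : Set ℕ) : Set Plane :=
  {p | p = (1, 0) ∨ (∃ n : ℕ, p.1 = n + 1 ∧ (p.2 = n + 1 ∨ p.2 = n + 2)) ∨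
    ∃ n ∈ N, p.1 = 0 ∧ p.2 = n + 3}

/-- The intersection of two terms. -/
def Tm.inter {k : ℕ} (s t : Tm k) : Tm k := .compl (.union (.compl s) (.compl t))

theorem Tm.eval_inter {k : ℕ} (S : Fin k → Set Plane) (s t : Tm k) :
    (s.inter t).eval S = s.eval S ∩ t.eval S := by
  simp only [Tm.inter, Tm.eval, compl_union, compl_compl]

/-- A term for the whole plane. -/
def topT (k : ℕ) (i : Fin k) : Tm k := .union (.var i) (.compl (.var i))

/-- A term for the part of the given set outside the axes. -/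
def offT (k : ℕ) (i : Fin k) : Tm k :=
  ((Tm.var i).inter (.compl (.pr1 (topT k i)))).inter (.compl (.pr2 (topT k i)))

/-- Terms for the sets `{(1, 0), ..., (n + 1, 0)}`. -/
def PT (k : ℕ) (i : Fin k) : ℕ → Tm k
  | 0 => .pr1 ((Tm.var i).inter (.pr1 (topT k i)))
  | n + 1 => .pr1 ((offT k i).inter
      (.box (topT k i) (.pr2 ((offT k i).inter (.box (PT k i n) (topT k i))))))

/-- Terms for the sets `{(0, 1), ..., (0, n + 2)}`. -/
def DT (k : ℕ) (i : Fin k) (n : ℕ) : Tm k :=
  .pr2 ((offT k i).inter (.box (PT k i n) (topT k i)))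

/-- A term for the intersection of the given set with `{(0, n + 3)}`. -/
def testT (k : ℕ) (i : Fin k) (n : ℕ) : Tm k :=
  ((Tm.var i).inter (DT k i (n + 1))).inter (.compl (DT k i n))

section eval
variable {k : ℕ} {i : Fin k} {S : Fin k → Set Plane}

theorem eval_topT : (topT k i).eval S = univ := by
  simp only [topT, Tm.eval, union_compl_self]

theorem pr1_univ : pr1 univ = AX := by
  ext p; exact ⟨fun h => h.1, fun h => ⟨h, 0, trivial⟩⟩

theorem pr2_univ : pr2 univ = AY := by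
  ext p; exact ⟨fun h => h.1, fun h => ⟨h, 0, trivial⟩⟩

theorem eval_offT {N : Set ℕ} (hS : S i = SN N) : (offT k i).eval S =
    {p : Plane | ∃ n : ℕ, p.1 = n + 1 ∧ (p.2 = n + 1 ∨ p.2 = n + 2)} := by
  simp only [offT, Tm.eval_inter, Tm.eval, eval_topT, pr1_univ, pr2_univ, hS]
  ext ⟨x, y⟩
  constructor
  · rintro ⟨⟨h1, h2⟩, h3⟩
    rcases h1 with h1 | h1 | ⟨n, _, h1, _⟩
    · exact absurd (congrArg Prod.snd h1) h2
    · exact h1
    · exact absurd h1 h3
  · rintro ⟨n, h1, h2⟩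
    refine ⟨⟨Or.inr (Or.inl ⟨n, h1, h2⟩), fun h => ?_⟩, fun h => ?_⟩
    · have h' : y = 0 := h
      simp only [h'] at h2
      rcases h2 with h2 | h2 <;> · have : (0 : ℝ) ≤ n := Nat.cast_nonneg n; linarith
    · have h' : x = 0 := h
      simp only [h'] at h1
      have : (0 : ℝ) ≤ n := Nat.cast_nonneg n
      linarith

/-- Membership in the value of `box s (topT)` where `s` lies on the first axis. -/
theorem mem_dprod_pr1_AY {A : Set Plane} (p : Plane) :
    p ∈ dprod (pr1 A) AY ↔ ∃ y : ℝ, (p.1, y) ∈ A := by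
  constructor
  · rintro ⟨⟨_, y, hy⟩, _⟩; exact ⟨y, hy⟩
  · rintro ⟨y, hy⟩; exact ⟨⟨rfl, y, hy⟩, rfl⟩

theorem mem_dprod_AX_pr2 {A : Set Plane} (p : Plane) :
    p ∈ dprod AX (pr2 A) ↔ ∃ x : ℝ, (x, p.2) ∈ A := by
  constructor
  · rintro ⟨_, ⟨_, x, hx⟩⟩; exact ⟨x, hx⟩
  · rintro ⟨x, hx⟩; exact ⟨rfl, rfl, x, hx⟩

theorem eval_PT_zero {N : Set ℕ} (hS : S i = SN N) : (PT k i 0).eval S =
    {p : Plane | p.2 = 0 ∧ ∃ j : ℕ, j ≤ 0 ∧ p.1 = j + 1} := by
  simp only [PT, Tm.eval, Tm.eval_inter, eval_topT, pr1_univ, hS]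
  ext ⟨x, y⟩
  constructor
  · rintro ⟨h1, y', h2, h3⟩
    have h3' : y' = 0 := h3
    subst h3'
    refine ⟨h1, 0, le_rfl, ?_⟩
    rcases h2 with h2 | ⟨n, _, h2⟩ | ⟨n, _, _, h2⟩
    · have := congrArg Prod.fst h2
      simpa using this
    · have h0 : (0 : ℝ) ≤ n := Nat.cast_nonneg n
      simp only at h2
      rcases h2 with h2 | h2 <;> linarith
    · have h0 : (0 : ℝ) ≤ n := Nat.cast_nonneg n
      simp only at h2
      linarith
  · rintro ⟨h1, j, hj, h2⟩
    obtain rfl : j = 0 := by omega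
    refine ⟨h1, 0, Or.inl ?_, rfl⟩
    simp only at h2
    rw [h2]; simp

theorem eval_DT_of {N : Set ℕ} (hS : S i = SN N) (n : ℕ) (h : (PT k i n).eval S =
    {p : Plane | p.2 = 0 ∧ ∃ j : ℕ, j ≤ n ∧ p.1 = j + 1}) : (DT k i n).eval S =
    {p : Plane | p.1 = 0 ∧ ∃ j : ℕ, j ≤ n + 1 ∧ p.2 = j + 1} := by
  simp only [DT, Tm.eval, Tm.eval_inter, eval_topT, eval_offT hS, pr2_univ, h]
  ext ⟨x, y⟩
  constructor
  · rintro ⟨h1, x', h2, h3⟩
    rw [mem_dprod_pr1_AY] at h3
    obtain ⟨y', _, j, hj, h4⟩ := h3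
    obtain ⟨m, h5, h6⟩ := h2
    simp only at h4 h5 h6
    have h7 : m = j := by
      have : (m : ℝ) = j := by linarith
      exact_mod_cast this
    subst h7
    refine ⟨h1, ?_⟩
    rcases h6 with h6 | h6
    · exact ⟨m, by omega, h6⟩
    · exact ⟨m + 1, by omega, by simp only; rw [h6]; push_cast; ring⟩
  · rintro ⟨h1, j, hj, h2⟩
    refine ⟨h1, ?_⟩
    simp only at h2
    rcases Nat.eq_zero_or_pos j with h0 | h0
    · subst h0
      refine ⟨1, ⟨0, by simp, Or.inl (by simp only; rw [h2])⟩, ?_⟩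
      rw [mem_dprod_pr1_AY]
      exact ⟨0, rfl, 0, by omega, by simp⟩
    · obtain ⟨m, rfl⟩ : ∃ m, j = m + 1 := ⟨j - 1, by omega⟩
      refine ⟨m + 1, ⟨m, rfl, Or.inr ?_⟩, ?_⟩
      · simp only; rw [h2]; push_cast; ring
      · rw [mem_dprod_pr1_AY]
        exact ⟨0, rfl, m, by omega, rfl⟩

theorem eval_PT {N : Set ℕ} (hS : S i = SN N) (n : ℕ) : (PT k i n).eval S =
    {p : Plane | p.2 = 0 ∧ ∃ j : ℕ, j ≤ n ∧ p.1 = j + 1} := by
  induction n with
  | zero => exact eval_PT_zero hS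
  | succ n ih =>
    have hD := eval_DT_of hS n ih
    simp only [DT] at hD
    simp only [PT]
    rw [Tm.eval, Tm.eval_inter, Tm.eval, hD, eval_topT, pr1_univ, eval_offT hS]
    ext ⟨x, y⟩
    constructor
    · rintro ⟨h1, y', h2, h3⟩
      rw [mem_dprod_AX_pr2] at h3
      obtain ⟨x', _, j, hj, h4⟩ := h3
      obtain ⟨m, h5, h6⟩ := h2
      simp only at h4 h5 h6
      refine ⟨h1, m, ?_, h5⟩
      rcases h6 with h6 | h6
      · have : (m : ℝ) = j := by linarith
        have : m = j := by exact_mod_cast this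
        omega
      · have : ((m + 1 : ℕ) : ℝ) = j := by push_cast; linarith
        have : m + 1 = j := by exact_mod_cast this
        omega
    · rintro ⟨h1, j, hj, h2⟩
      refine ⟨h1, j + 1, ⟨j, h2, Or.inl rfl⟩, ?_⟩
      rw [mem_dprod_AX_pr2]
      exact ⟨0, rfl, j, hj, rfl⟩

theorem eval_DT {N : Set ℕ} (hS : S i = SN N) (n : ℕ) : (DT k i n).eval S =
    {p : Plane | p.1 = 0 ∧ ∃ j : ℕ, j ≤ n + 1 ∧ p.2 = j + 1} :=
  eval_DT_of hS n (eval_PT hS n)

theorem eval_testT {N : Set ℕ} (hS : S i = SN N) (n : ℕ) :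
    (testT k i n).eval S = ∅ ↔ n ∉ N := by
  simp only [testT, Tm.eval_inter, Tm.eval, eval_DT hS, hS]
  constructor
  · intro h hn
    have : ((0 : ℝ), (n : ℝ) + 3) ∈ (∅ : Set Plane) := by
      rw [← h]
      refine ⟨⟨Or.inr (Or.inr ⟨n, hn, rfl, rfl⟩), rfl, n + 2, by omega, ?_⟩, ?_⟩
      · push_cast; ring
      · rintro ⟨_, j, hj, h2⟩
        simp only at h2
        have : (((n + 2 : ℕ)) : ℝ) = j := by push_cast; linarith
        have : n + 2 = j := by exact_mod_cast this
        omega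
    exact this
  · intro hn
    rw [eq_empty_iff_forall_notMem]
    rintro ⟨x, y⟩ ⟨⟨h1, h2, j, hj, h3⟩, h4⟩
    simp only at h2 h3
    subst h2
    have hj' : j = n + 2 := by
      by_contra hne
      exact h4 ⟨rfl, j, by omega, h3⟩
    subst hj'
    rcases h1 with h1 | ⟨m, h1, _⟩ | ⟨m, hm, _, h1⟩
    · have := congrArg Prod.fst h1
      simp at this
    · have h0 : (0 : ℝ) ≤ m := Nat.cast_nonneg m
      simp only at h1
      linarith
    · simp only at h1
      have : (m : ℝ) = n := by rw [h3] at h1; push_cast at h1; linarith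
      have : m = n := by exact_mod_cast this
      exact hn (this ▸ hm)

end eval

/-- If `F` contains `SN N` and `f` is an isomorphism from the projective algebra `F` onto some
family, then `f (SN N)` determines `N`. -/
theorem test_iff {F G : Set (Set Plane)} (hF : IsProjAlg F) {f : Set Plane → Set Plane}
    (hf : IsIso f F G) {N : Set ℕ} (hN : SN N ∈ F) (n : ℕ) :
    (testT 1 0 n).eval (fun _ => f (SN N)) = ∅ ↔ n ∉ N := by
  have hS : ∀ i : Fin 1, (fun _ : Fin 1 => SN N) i ∈ F := fun _ => hN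
  have h1 := hf.eval hF hS (testT 1 0 n)
  have h2 : f ∅ = ∅ := by
    have e1 := hf.inter _ hN _ (hF.compl _ hN)
    rw [hf.compl _ hN, inter_compl_self, inter_compl_self] at e1
    exact e1
  have hm : (testT 1 0 n).eval (fun _ => SN N) ∈ F := hF.eval_mem hS _
  have hempty : (∅ : Set Plane) ∈ F := by
    have := hF.inter _ hN _ (hF.compl _ hN)
    rwa [inter_compl_self] at this
  rw [← eval_testT (k := 1) (i := 0) (S := fun _ => SN N) rfl n, ← h1]
  constructor
  · intro h
    exact hf.bij.injOn hm hempty (h.trans h2.symm)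
  · intro h
    rw [h, h2]

/-- Different sets `N` have different values `f (SN N)`, even for different isomorphisms. -/
theorem eq_of_image_eq {F G F' G' : Set (Set Plane)} (hF : IsProjAlg F) (hF' : IsProjAlg F')
    {f f' : Set Plane → Set Plane} (hf : IsIso f F G) (hf' : IsIso f' F' G') {N N' : Set ℕ}
    (hN : SN N ∈ F) (hN' : SN N' ∈ F') (h : f (SN N) = f' (SN N')) : N = N' := by
  ext n
  have h1 := test_iff hF hf hN n
  have h2 := test_iff hF' hf' hN' n
  rw [h, h2] at h1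
  exact not_iff_not.mp h1.symm

/-- A countable family contains isomorphic copies of only countably many of the algebras. -/
theorem countable_copies {U : Set (Set Plane)} (hU : U.Countable) :
    {N : Set ℕ | ∃ F, IsProjAlg F ∧ SN N ∈ F ∧ ∃ V, V ⊆ U ∧ Isomorphic F V}.Countable := by
  classical
  have h : ∀ N ∈ {N : Set ℕ | ∃ F, IsProjAlg F ∧ SN N ∈ F ∧ ∃ V, V ⊆ U ∧ Isomorphic F V},
      ∃ A ∈ U, ∃ F, IsProjAlg F ∧ SN N ∈ F ∧ ∃ G f, IsIso f F G ∧ f (SN N) = A := by
    rintro N ⟨F, hF, hN, V, hV, f, hf⟩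
    exact ⟨f (SN N), hV (hf.bij.mapsTo hN), F, hF, hN, V, f, hf, rfl⟩
  choose! g hg using h
  refine MapsTo.countable_of_injOn (f := g) (t := U) (fun N hN => (hg N hN).1) ?_ hU
  intro N hN N' hN' he
  obtain ⟨_, F, hF, hm, G, f, hf, h1⟩ := hg N hN
  obtain ⟨_, F', hF', hm', G', f', hf', h1'⟩ := hg N' hN'
  exact eq_of_image_eq hF hF' hf hf' hm hm' (h1.trans (he.trans h1'.symm))

/-- The algebras generated by one plane set are not all isomorphic to subalgebras of one countable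
projective algebra. -/
theorem no_universal {U : Set (Set Plane)} (hU : U.Countable) :
    ∃ S : Fin 1 → Set Plane, ∀ V, V ⊆ U → ¬ Isomorphic (gen S) V := by
  by_contra hcon
  push Not at hcon
  have h1 : {N : Set ℕ | ∃ F, IsProjAlg F ∧ SN N ∈ F ∧ ∃ V, V ⊆ U ∧ Isomorphic F V} = univ := by
    rw [eq_univ_iff_forall]
    intro N
    obtain ⟨V, hV, hi⟩ := hcon fun _ => SN N
    exact ⟨_, gen_isProjAlg _, mem_gen (fun _ : Fin 1 => SN N) 0, V, hV, hi⟩
  have h2 := countable_copies hU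
  rw [h1] at h2
  have h3 : Countable (Set ℕ) := countable_univ_iff.mp h2
  obtain ⟨g, hg⟩ := exists_injective_nat (Set ℕ)
  exact Function.cantor_injective g hg

/-! ### Counting isomorphism types -/

/-- The families generated by a `k`-tuple of plane sets that satisfies the condition `Q`. -/
abbrev GenCond (k : ℕ) (Q : (Fin k → Set Plane) → Prop) : Type :=
  {F : Set (Set Plane) // ∃ S : Fin k → Set Plane, Q S ∧ F = gen S}

/-- Isomorphism as an equivalence relation on the families `GenCond k Q`. -/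
def isoSetoid (k : ℕ) (Q : (Fin k → Set Plane) → Prop) : Setoid (GenCond k Q) where
  r F G := Isomorphic F.1 G.1
  iseqv := by
    refine ⟨fun F => Isomorphic.refl _, fun {F G} h => ?_, fun h1 h2 => h1.trans h2⟩
    obtain ⟨S, _, hS⟩ := F.2
    exact h.symm (hS ▸ gen_isProjAlg S)

theorem mk_le (k : ℕ) (Q : (Fin k → Set Plane) → Prop) :
    Cardinal.mk (Quotient (isoSetoid k Q)) ≤ Cardinal.continuum := by
  classical
  let g : Quotient (isoSetoid k Q) → Set (Tm k × Tm k) := fun q =>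
    {p | p.1.eval q.out.2.choose = p.2.eval q.out.2.choose}
  have hg : Function.Injective g := by
    intro q q' h
    have h1 := q.out.2.choose_spec.2
    have h2 := q'.out.2.choose_spec.2
    have h3 : Isomorphic (gen q.out.2.choose) (gen q'.out.2.choose) := by
      refine isomorphic_of_eval _ _ fun s t => ?_
      have : (s, t) ∈ g q ↔ (s, t) ∈ g q' := by rw [h]
      exact this
    rw [← h1, ← h2] at h3
    have h4 : (isoSetoid k Q).r q.out q'.out := h3
    have h5 := Quotient.sound h4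
    rwa [Quotient.out_eq, Quotient.out_eq] at h5
  have h1 := Cardinal.mk_le_of_injective hg
  rw [Cardinal.mk_set] at h1
  refine h1.trans ?_
  rw [← Cardinal.two_power_aleph0]
  exact Cardinal.power_le_power_left two_ne_zero (Cardinal.mk_le_aleph0)

theorem le_mk (k : ℕ) (Q : (Fin k → Set Plane) → Prop)
    (hQ : ∀ N : Set ℕ, ∃ S, Q S ∧ SN N ∈ gen S) :
    Cardinal.continuum ≤ Cardinal.mk (Quotient (isoSetoid k Q)) := by
  classical
  choose T hT hmem using hQ
  let a : Set ℕ → GenCond k Q := fun N => ⟨gen (T N), T N, hT N, rfl⟩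
  let q : Set ℕ → Quotient (isoSetoid k Q) := fun N => Quotient.mk _ (a N)
  have hq : ∀ N, Isomorphic (gen (T N)) (q N).out.1 := by
    intro N
    have h1 : (isoSetoid k Q).r (a N) (q N).out :=
      (isoSetoid k Q).iseqv.symm (Quotient.exact (Quotient.out_eq (q N)))
    exact h1
  choose f hf using hq
  have hc : ∀ r : Quotient (isoSetoid k Q), r.out.1.Countable := by
    intro r
    obtain ⟨S, _, hS⟩ := r.out.2
    rw [hS]; exact gen_countable S
  have he : ∀ r : Quotient (isoSetoid k Q), ∃ e : Set Plane → ℕ, InjOn e r.out.1 := by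
    intro r
    exact (countable_iff_exists_injOn).mp (hc r)
  choose e he using he
  let g : Set ℕ → Quotient (isoSetoid k Q) × ℕ := fun N => (q N, e (q N) (f N (SN N)))
  have hg : Function.Injective g := by
    intro N N' h
    have h1 : q N = q N' := congrArg Prod.fst h
    have h2 : e (q N) (f N (SN N)) = e (q N') (f N' (SN N')) := congrArg Prod.snd h
    rw [← h1] at h2
    have h3 : f N' (SN N') ∈ (q N).out.1 := by
      rw [h1]; exact (hf N').bij.mapsTo (hmem N')
    have h4 := he (q N) ((hf N).bij.mapsTo (hmem N)) h3 h2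
    exact eq_of_image_eq (gen_isProjAlg _) (gen_isProjAlg _) (hf N) (hf N') (hmem N) (hmem N') h4
  have h1 := Cardinal.mk_le_of_injective hg
  rw [Cardinal.mk_set, Cardinal.mk_nat, Cardinal.two_power_aleph0, Cardinal.mk_prod,
    Cardinal.lift_id, Cardinal.lift_id, Cardinal.mk_nat] at h1
  by_contra hlt
  push Not at hlt
  have h2 : Cardinal.mk (Quotient (isoSetoid k Q)) * Cardinal.aleph0 < Cardinal.continuum :=
    Cardinal.mul_lt_of_lt Cardinal.aleph0_le_continuum hlt Cardinal.aleph0_lt_continuum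
  exact absurd h1 (not_le.mpr h2)

theorem SN_mem_gen (k : ℕ) (N : Set ℕ) : SN N ∈ gen fun _ : Fin (k + 1) => SN N :=
  mem_gen (fun _ : Fin (k + 1) => SN N) 0

/-- A tuple of pairwise distinct sets that contains `SN N`. -/
theorem exists_injective (k : ℕ) (N : Set ℕ) :
    ∃ S : Fin (k + 1) → Set Plane, Function.Injective S ∧ SN N ∈ gen S := by
  let D : ℕ → Set Plane := fun n => {p : Plane | p.1 = 0 ∧ ∃ j : ℕ, j ≤ n + 1 ∧ p.2 = j + 1}
  have hD : Function.Injective D := by
    have key : ∀ m n : ℕ, D m = D n → m ≤ n := by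
      intro m n h
      have h1 : ((0 : ℝ), ((m + 1 : ℕ) : ℝ) + 1) ∈ D n := by
        rw [← h]; exact ⟨rfl, m + 1, le_rfl, rfl⟩
      obtain ⟨_, j, hj, h2⟩ := h1
      have h3 : (((m + 1 : ℕ)) : ℝ) = j := by simp only at h2; linarith
      have h4 : m + 1 = j := by exact_mod_cast h3
      omega
    intro m n h
    exact le_antisymm (key m n h) (key n m h.symm)
  have hS : ∀ n, SN N ≠ D n := by
    intro n h
    have h1 : ((1 : ℝ), (0 : ℝ)) ∈ D n := by rw [← h]; exact Or.inl rfl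
    have h2 : (1 : ℝ) = 0 := h1.1
    norm_num at h2
  refine ⟨fun i => if i = 0 then SN N else D i, ?_, ?_⟩
  · intro i j h
    simp only at h
    by_cases hi : i = 0 <;> by_cases hj : j = 0
    · rw [hi, hj]
    · rw [if_pos hi, if_neg hj] at h; exact absurd h (hS _)
    · rw [if_neg hi, if_pos hj] at h; exact absurd h.symm (hS _)
    · rw [if_neg hi, if_neg hj] at h
      exact Fin.ext (hD h)
  · have := mem_gen (fun i : Fin (k + 1) => if i = 0 then SN N else D i) 0
    simpa using this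

end Pool.Agent.Q297.ProjAlg
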