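import Mathlib.Data.Set.Finite.Lattice
import Mathlib.Data.Finset.Union
import Mathlib.Algebra.Group.Basic
import Mathlib.Order.Lattice
import Mathlib.Tactic

/-!
# `FL_ew`-algebras, MTL-algebras, their formulas and logics

Shared definitions for the hand-ins on axiomatic extensions of `MTL` and `FL_ew` with the
deductive interpolation property, and an abstract criterion for that property.
-/

namespace Pool.Agent.Q297.Residuated

/-- An `FL_ew`-algebra: a lattice with a commutative monoid structure whose unit `1` is the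
largest element, with a least element `bot` and a residual `imp` of the multiplication. -/
class FLewAlgebra (A : Type) extends Lattice A, CommMonoid A where
  /-- The least element. -/
  bot : A
  /-- The residual of the multiplication. -/
  imp : A → A → A
  fbot_le' : ∀ x : A, bot ≤ x
  le_one' : ∀ x : A, x ≤ 1
  residuation : ∀ x y z : A, x * y ≤ z ↔ x ≤ imp y z

/-- An MTL-algebra: a prelinear `FL_ew`-algebra. -/
class MTLAlgebra (A : Type) extends FLewAlgebra A where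
  prelinearity : ∀ x y : A, imp x y ⊔ imp y x = 1

/-- Formulas in the language `∧, ∨, ·, →, 0, 1` over the variables `var n`. -/
inductive Fm : Type
  | var : ℕ → Fm
  | zero : Fm
  | one : Fm
  | and : Fm → Fm → Fm
  | or : Fm → Fm → Fm
  | mul : Fm → Fm → Fm
  | imp : Fm → Fm → Fm
  deriving DecidableEq

namespace Fm

/-- The value of a formula under a valuation. -/
def eval {A : Type} [FLewAlgebra A] (v : ℕ → A) : Fm → A
  | .var n => v n
  | .zero => FLewAlgebra.bot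
  | .one => 1
  | .and φ ψ => eval v φ ⊓ eval v ψ
  | .or φ ψ => eval v φ ⊔ eval v ψ
  | .mul φ ψ => eval v φ * eval v ψ
  | .imp φ ψ => FLewAlgebra.imp (eval v φ) (eval v ψ)

/-- Uniform substitution. -/
def subst (σ : ℕ → Fm) : Fm → Fm
  | .var n => σ n
  | .zero => .zero
  | .one => .one
  | .and φ ψ => .and (subst σ φ) (subst σ ψ)
  | .or φ ψ => .or (subst σ φ) (subst σ ψ)
  | .mul φ ψ => .mul (subst σ φ) (subst σ ψ)
  | .imp φ ψ => .imp (subst σ φ) (subst σ ψ)

/-- The variables occurring in a formula. -/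
def vars : Fm → Set ℕ
  | .var n => {n}
  | .zero => ∅
  | .one => ∅
  | .and φ ψ => vars φ ∪ vars ψ
  | .or φ ψ => vars φ ∪ vars ψ
  | .mul φ ψ => vars φ ∪ vars ψ
  | .imp φ ψ => vars φ ∪ vars ψ

/-- Negation `¬φ = φ → 0`. -/
def neg (φ : Fm) : Fm := .imp φ .zero

/-- Equivalence `(φ → ψ) ∧ (ψ → φ)`. -/
def iff (φ ψ : Fm) : Fm := .and (.imp φ ψ) (.imp ψ φ)

/-- Powers `φ^n`, with `φ^0 = 1`. -/
def pow (φ : Fm) : ℕ → Fm
  | 0 => .one
  | n + 1 => .mul (pow φ n) φ

end Fm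

/-- The variables occurring in a set of formulas. -/
def varsSet (Γ : Set Fm) : Set ℕ := {n | ∃ γ ∈ Γ, n ∈ γ.vars}

/-- The consequence relation of `MTL`: every valuation in every MTL-algebra that sends all of `Γ`
to `1` sends `φ` to `1`. -/
def MTLCons (Γ : Set Fm) (φ : Fm) : Prop :=
  ∀ (A : Type) [MTLAlgebra A] (v : ℕ → A), (∀ γ ∈ Γ, γ.eval v = 1) → φ.eval v = 1

/-- The consequence relation of `FL_ew`: every valuation in every `FL_ew`-algebra that sends all
of `Γ` to `1` sends `φ` to `1`. -/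
def FLewCons (Γ : Set Fm) (φ : Fm) : Prop :=
  ∀ (A : Type) [FLewAlgebra A] (v : ℕ → A), (∀ γ ∈ Γ, γ.eval v = 1) → φ.eval v = 1

/-- `Ax` is closed under substitution. -/
def SubstClosed (Ax : Set Fm) : Prop := ∀ (σ : ℕ → Fm), ∀ φ ∈ Ax, φ.subst σ ∈ Ax

/-- `L` is an axiomatic extension of the logic `D`: for some set `Ax` of formulas closed under
substitution, `Γ ⊢_L φ` iff `Γ ∪ Ax ⊢_D φ`. -/
def IsAxExt (D L : Set Fm → Fm → Prop) : Prop :=
  ∃ Ax : Set Fm, SubstClosed Ax ∧ ∀ Γ φ, L Γ φ ↔ D (Γ ∪ Ax) φ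

/-- The deductive interpolation property of a consequence relation. -/
def DIP (L : Set Fm → Fm → Prop) : Prop :=
  ∀ Γ φ, L Γ φ → ∃ Δ : Set Fm, varsSet Δ ⊆ varsSet Γ ∩ φ.vars ∧ (∀ δ ∈ Δ, L Γ δ) ∧ L Δ φ

/-! ## Basic facts on formulas -/

theorem eval_subst {A : Type} [FLewAlgebra A] (v : ℕ → A) (σ : ℕ → Fm) (φ : Fm) :
    (φ.subst σ).eval v = φ.eval (fun n => (σ n).eval v) := by
  induction φ with
  | var n => rfl
  | zero => rfl
  | one => rfl
  | and φ ψ ih1 ih2 => simp only [Fm.subst, Fm.eval, ih1, ih2]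
  | or φ ψ ih1 ih2 => simp only [Fm.subst, Fm.eval, ih1, ih2]
  | mul φ ψ ih1 ih2 => simp only [Fm.subst, Fm.eval, ih1, ih2]
  | imp φ ψ ih1 ih2 => simp only [Fm.subst, Fm.eval, ih1, ih2]

theorem eval_congr {A : Type} [FLewAlgebra A] {v w : ℕ → A} {φ : Fm}
    (h : ∀ n ∈ φ.vars, v n = w n) : φ.eval v = φ.eval w := by
  induction φ with
  | var n => exact h n rfl
  | zero => rfl
  | one => rfl
  | and φ ψ ih1 ih2 =>
    simp only [Fm.eval, ih1 fun n hn => h n (Or.inl hn), ih2 fun n hn => h n (Or.inr hn)]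
  | or φ ψ ih1 ih2 =>
    simp only [Fm.eval, ih1 fun n hn => h n (Or.inl hn), ih2 fun n hn => h n (Or.inr hn)]
  | mul φ ψ ih1 ih2 =>
    simp only [Fm.eval, ih1 fun n hn => h n (Or.inl hn), ih2 fun n hn => h n (Or.inr hn)]
  | imp φ ψ ih1 ih2 =>
    simp only [Fm.eval, ih1 fun n hn => h n (Or.inl hn), ih2 fun n hn => h n (Or.inr hn)]

/-! ## Basic facts on `FL_ew`-algebras -/

section Alg

variable {A : Type} [FLewAlgebra A]

open FLewAlgebra (imp bot)

theorem le_one (x : A) : x ≤ 1 := FLewAlgebra.le_one' x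

theorem fbot_le (x : A) : (FLewAlgebra.bot : A) ≤ x := FLewAlgebra.fbot_le' x

theorem resid {x y z : A} : x * y ≤ z ↔ x ≤ imp y z := FLewAlgebra.residuation x y z

theorem imp_eq_one {x y : A} : imp x y = 1 ↔ x ≤ y := by
  constructor
  · intro h
    have : (1 : A) * x ≤ y := resid.mpr h.ge
    rwa [one_mul] at this
  · intro h
    refine le_antisymm (le_one _) (resid.mp ?_)
    rwa [one_mul]

theorem one_imp (x : A) : imp 1 x = x := by
  refine le_antisymm ?_ (resid.mp (by rw [mul_one]))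
  have : (imp 1 x) * 1 ≤ x := resid.mpr le_rfl
  rwa [mul_one] at this

theorem bot_imp (x : A) : imp bot x = 1 := imp_eq_one.mpr (fbot_le x)

theorem mul_le_mul_r {x y : A} (h : x ≤ y) (z : A) : x * z ≤ y * z :=
  resid.mpr (h.trans (resid.mp le_rfl))

theorem mul_le_mul_l {x y : A} (h : x ≤ y) (z : A) : z * x ≤ z * y := by
  rw [mul_comm z x, mul_comm z y]; exact mul_le_mul_r h z

theorem mul_mono {x y z w : A} (h : x ≤ y) (h' : z ≤ w) : x * z ≤ y * w :=
  (mul_le_mul_r h z).trans (mul_le_mul_l h' y)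

theorem mul_le_left (x y : A) : x * y ≤ x := by
  have := mul_le_mul_l (le_one y) x
  rwa [mul_one] at this

theorem mul_le_right (x y : A) : x * y ≤ y := by
  rw [mul_comm]; exact mul_le_left y x

theorem mul_bot (x : A) : x * FLewAlgebra.bot = FLewAlgebra.bot :=
  le_antisymm (mul_le_right _ _) (fbot_le _)

theorem bot_mul (x : A) : FLewAlgebra.bot * x = (FLewAlgebra.bot : A) :=
  le_antisymm (mul_le_left _ _) (fbot_le _)

theorem imp_mul_le (x y : A) : imp x y * x ≤ y := resid.mpr le_rfl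

theorem mul_sup' (x y z : A) : x * (y ⊔ z) = x * y ⊔ x * z := by
  refine le_antisymm ?_ (sup_le (mul_le_mul_l le_sup_left x) (mul_le_mul_l le_sup_right x))
  rw [mul_comm, resid]
  refine sup_le ?_ ?_
  · rw [← resid, mul_comm]; exact le_sup_left
  · rw [← resid, mul_comm]; exact le_sup_right

theorem sup_mul' (x y z : A) : (y ⊔ z) * x = y * x ⊔ z * x := by
  rw [mul_comm, mul_sup', mul_comm x y, mul_comm x z]

theorem imp_mul_imp (x y z : A) : imp (x * y) z = imp x (imp y z) := by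
  refine le_antisymm ?_ ?_
  · rw [← resid, ← resid, mul_assoc]
    exact imp_mul_le _ _
  · rw [← resid, ← mul_assoc]
    exact resid.mpr (imp_mul_le _ _)

theorem eval_neg (v : ℕ → A) (φ : Fm) : φ.neg.eval v = 1 ↔ φ.eval v = FLewAlgebra.bot := by
  change imp (φ.eval v) _ = 1 ↔ _
  rw [imp_eq_one]
  exact ⟨fun h => le_antisymm h (fbot_le _), fun h => h.le⟩

theorem eval_iff (v : ℕ → A) (φ ψ : Fm) : (φ.iff ψ).eval v = 1 ↔ φ.eval v = ψ.eval v := by
  change imp (φ.eval v) (ψ.eval v) ⊓ imp (ψ.eval v) (φ.eval v) = 1 ↔ _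
  constructor
  · intro h
    have h1 : (1 : A) ≤ imp (φ.eval v) (ψ.eval v) := h.ge.trans inf_le_left
    have h2 : (1 : A) ≤ imp (ψ.eval v) (φ.eval v) := h.ge.trans inf_le_right
    exact le_antisymm (imp_eq_one.mp (le_antisymm (le_one _) h1))
      (imp_eq_one.mp (le_antisymm (le_one _) h2))
  · intro h
    rw [h, imp_eq_one.mpr le_rfl, inf_idem]

theorem eval_pow (v : ℕ → A) (φ : Fm) (n : ℕ) : (φ.pow n).eval v = φ.eval v ^ n := by
  induction n with
  | zero => simp [Fm.pow, Fm.eval]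
  | succ n ih => simp only [Fm.pow, Fm.eval, ih, pow_succ]

theorem eval_imp_one (v : ℕ → A) {φ ψ : Fm} (h1 : (Fm.imp φ ψ).eval v = 1) (h2 : φ.eval v = 1) :
    ψ.eval v = 1 := by
  change imp (φ.eval v) (ψ.eval v) = 1 at h1
  rwa [h2, one_imp] at h1

theorem vars_pow (φ : Fm) (n : ℕ) : (φ.pow n).vars ⊆ φ.vars := by
  induction n with
  | zero => exact Set.empty_subset _
  | succ n ih => exact Set.union_subset ih subset_rfl

end Alg

/-! ## Consequence relations -/

theorem mtlCons_mem {Γ : Set Fm} {φ : Fm} (h : φ ∈ Γ) : MTLCons Γ φ := fun _ _ _ hv => hv φ h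

theorem mtlCons_mp {Γ : Set Fm} {φ ψ : Fm} (h1 : MTLCons Γ (.imp φ ψ)) (h2 : MTLCons Γ φ) :
    MTLCons Γ ψ := fun A _ v hv => eval_imp_one v (h1 A v hv) (h2 A v hv)

theorem flewCons_mem {Γ : Set Fm} {φ : Fm} (h : φ ∈ Γ) : FLewCons Γ φ := fun _ _ _ hv => hv φ h

theorem flewCons_mp {Γ : Set Fm} {φ ψ : Fm} (h1 : FLewCons Γ (.imp φ ψ)) (h2 : FLewCons Γ φ) :
    FLewCons Γ ψ := fun A _ v hv => eval_imp_one v (h1 A v hv) (h2 A v hv)

/-! ## An abstract criterion for the DIP -/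

/-- The iterated implication `φ → (φ → … (φ → ψ))`, with `N` copies of `φ`. -/
def impN (φ : Fm) (ψ : Fm) : ℕ → Fm
  | 0 => ψ
  | n + 1 => .imp φ (impN φ ψ n)

/-- The nested iterated implications from a list of formulas. -/
def impList (N : ℕ) : List Fm → Fm → Fm
  | [], ψ => ψ
  | φ :: l, ψ => impN φ (impList N l ψ) N

theorem vars_impN {Y : Set ℕ} {φ ψ : Fm} (h1 : φ.vars ⊆ Y) (h2 : ψ.vars ⊆ Y) (n : ℕ) :
    (impN φ ψ n).vars ⊆ Y := by
  induction n with
  | zero => exact h2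
  | succ n ih => exact Set.union_subset h1 ih

theorem vars_impList {Y : Set ℕ} (N : ℕ) {l : List Fm} {ψ : Fm} (h1 : ∀ φ ∈ l, φ.vars ⊆ Y)
    (h2 : ψ.vars ⊆ Y) : (impList N l ψ).vars ⊆ Y := by
  induction l with
  | nil => exact h2
  | cons a l ih =>
    exact vars_impN (h1 a (by simp)) (ih fun φ hφ => h1 φ (by simp [hφ])) N

/-- The abstract criterion.  `D` is a consequence relation that contains its premises and is
closed under modus ponens, and `M` is a family of truth sets for which `N`-fold implication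
behaves like classical implication. If `D` (with the common part of the truth sets as axioms) is
sound, `M` is compact and the truth sets amalgamate, then the extension of `D` by the common part
of the truth sets has the DIP. -/
theorem dip_criterion (D : Set Fm → Fm → Prop) (M : Set (Set Fm)) (N : ℕ)
    (hD1 : ∀ Γ φ, φ ∈ Γ → D Γ φ)
    (hD2 : ∀ Γ φ ψ, D Γ (.imp φ ψ) → D Γ φ → D Γ ψ)
    (hsound : ∀ Γ φ, D (Γ ∪ {ψ | ∀ m ∈ M, ψ ∈ m}) φ → ∀ m ∈ M, Γ ⊆ m → φ ∈ m)
    (hzero : ∀ m ∈ M, Fm.zero ∉ m)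
    (himp : ∀ m ∈ M, ∀ φ ψ, impN φ ψ N ∈ m ↔ (φ ∈ m → ψ ∈ m))
    (hcomp : ∀ (P : Set Fm) (φ : Fm),
      (∀ F : Finset Fm, ↑F ⊆ P → ∃ m ∈ M, ↑F ⊆ m ∧ φ ∉ m) → ∃ m ∈ M, P ⊆ m ∧ φ ∉ m)
    (ham : ∀ m ∈ M, ∀ m' ∈ M, ∀ Z Z' : Set ℕ,
      (∀ θ : Fm, θ.vars ⊆ Z ∩ Z' → (θ ∈ m ↔ θ ∈ m')) →
      ∃ m'' ∈ M, (∀ θ : Fm, θ.vars ⊆ Z → (θ ∈ m ↔ θ ∈ m'')) ∧
        (∀ θ : Fm, θ.vars ⊆ Z' → (θ ∈ m' ↔ θ ∈ m''))) :
    DIP (fun Γ φ => D (Γ ∪ {ψ | ∀ m ∈ M, ψ ∈ m}) φ) := by
  set Th : Set Fm := {ψ | ∀ m ∈ M, ψ ∈ m} with hTh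
  have himpL : ∀ m ∈ M, ∀ (l : List Fm) ψ, impList N l ψ ∈ m ↔ ((∀ φ ∈ l, φ ∈ m) → ψ ∈ m) := by
    intro m hm l ψ
    induction l with
    | nil => simp [impList]
    | cons a l ih =>
      simp only [impList, himp m hm, ih, List.mem_cons, forall_eq_or_imp]
      tauto
  have hmpN : ∀ (Γ : Set Fm) φ ψ (n : ℕ), D Γ (impN φ ψ n) → D Γ φ → D Γ ψ := by
    intro Γ φ ψ n h1 h2
    induction n with
    | zero => exact h1
    | succ n ih => exact ih (hD2 Γ _ _ h1 h2)
  have hmpL : ∀ (Γ : Set Fm) (l : List Fm) ψ, D Γ (impList N l ψ) → (∀ φ ∈ l, D Γ φ) →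
      D Γ ψ := by
    intro Γ l ψ h1 h2
    induction l with
    | nil => exact h1
    | cons a l ih =>
      exact ih (hmpN Γ _ _ N h1 (h2 a (by simp))) fun φ hφ => h2 φ (by simp [hφ])
  intro Γ φ hφ
  set Y := varsSet Γ ∩ φ.vars with hY
  set Δ : Set Fm := {δ | δ.vars ⊆ Y ∧ D (Γ ∪ Th) δ} with hΔ
  refine ⟨Δ, ?_, fun δ hδ => hδ.2, ?_⟩
  · rintro n ⟨γ, hγ, hn⟩
    exact hγ.1 hn
  -- a finite part of `Δ` suffices
  by_cases hfin : ∃ F : Finset Fm, ↑F ⊆ Δ ∧ ∀ m ∈ M, ↑F ⊆ m → φ ∈ m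
  · obtain ⟨F, hF, hFm⟩ := hfin
    refine hmpL (Δ ∪ Th) F.toList φ (hD1 _ _ (Or.inr ?_)) ?_
    · intro m hm
      rw [himpL m hm]
      intro h
      exact hFm m hm fun ψ hψ => h ψ (Finset.mem_toList.mpr hψ)
    · intro ψ hψ
      exact hD1 _ _ (Or.inl (hF (Finset.mem_toList.mp hψ)))
  exfalso
  push Not at hfin
  obtain ⟨m, hm, hΔm, hφm⟩ := hcomp Δ φ fun F hF => by
    obtain ⟨m, hm, h1, h2⟩ := hfin F hF
    exact ⟨m, hm, h1, h2⟩
  set T : Set Fm := {θ | θ.vars ⊆ Y ∧ θ ∈ m} with hT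
  obtain ⟨m', hm', hΓT, _⟩ : ∃ m' ∈ M, Γ ∪ T ⊆ m' ∧ Fm.zero ∉ m' := by
    refine hcomp (Γ ∪ T) Fm.zero ?_
    intro F hF
    by_contra hcon
    push Not at hcon
    classical
    set G := (F.filter (· ∈ Γ)).toList with hG
    set H := (F.filter (· ∈ T)).toList with hH
    have hδ : impList N H Fm.zero ∈ Δ := by
      refine ⟨vars_impList N ?_ (Set.empty_subset _), ?_⟩
      · intro ψ hψ
        simp only [hH, Finset.mem_toList, Finset.mem_filter] at hψ
        exact hψ.2.1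
      · refine hmpL _ G _ (hD1 _ _ (Or.inr ?_)) ?_
        · intro k hk
          rw [himpL k hk, himpL k hk]
          intro h1 h2
          refine absurd (hcon k hk ?_) (hzero k hk)
          intro ψ hψ
          rcases hF hψ with h | h
          · exact h1 ψ (by simp only [hG, Finset.mem_toList, Finset.mem_filter]; exact ⟨hψ, h⟩)
          · exact h2 ψ (by simp only [hH, Finset.mem_toList, Finset.mem_filter]; exact ⟨hψ, h⟩)
        · intro ψ hψ
          simp only [hG, Finset.mem_toList, Finset.mem_filter] at hψ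
          exact hD1 _ _ (Or.inl hψ.2)
    have hδm := hΔm hδ
    rw [himpL m hm] at hδm
    refine hzero m hm (hδm ?_)
    intro ψ hψ
    simp only [hH, Finset.mem_toList, Finset.mem_filter] at hψ
    exact hψ.2.2
  obtain ⟨m'', hm'', h1, h2⟩ := ham m' hm' m hm (varsSet Γ) φ.vars (by
    intro θ hθ
    constructor
    · intro hθm'
      by_contra hθm
      have : impN θ Fm.zero N ∈ m := (himp m hm _ _).mpr fun h => absurd h hθm
      have h' : impN θ Fm.zero N ∈ m' :=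
        hΓT (Or.inr ⟨vars_impN hθ (Set.empty_subset _) N, this⟩)
      exact hzero m' hm' ((himp m' hm' _ _).mp h' hθm')
    · intro hθm
      exact hΓT (Or.inr ⟨hθ, hθm⟩))
  have h3 : Γ ⊆ m'' := by
    intro γ hγ
    rw [← h1 γ fun n hn => ⟨γ, hγ, hn⟩]
    exact hΓT (Or.inl hγ)
  exact hφm ((h2 φ subset_rfl).mpr (hsound Γ φ hφ m'' hm'' h3))

/-- The set of formulas true under a valuation. -/
def truths {A : Type} [FLewAlgebra A] (v : ℕ → A) : Set Fm := {φ | φ.eval v = 1}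

theorem impN_eval {A : Type} [FLewAlgebra A] {N : ℕ} (hN : ∀ x : A, x ≠ 1 → x ^ N =
    FLewAlgebra.bot) (v : ℕ → A) (φ ψ : Fm) :
    (impN φ ψ N).eval v = 1 ↔ (φ.eval v = 1 → ψ.eval v = 1) := by
  have key : ∀ n, (impN φ ψ n).eval v = FLewAlgebra.imp (φ.eval v ^ n) (ψ.eval v) := by
    intro n
    induction n with
    | zero => simp only [impN, pow_zero, one_imp]
    | succ n ih =>
      simp only [impN, Fm.eval, ih, pow_succ']
      rw [imp_mul_imp]
  rw [key]
  by_cases h : φ.eval v = 1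
  · simp only [h, one_pow, one_imp, forall_const]
  · simp only [hN _ h, bot_imp, h, false_imp_iff]

end Pool.Agent.Q297.Residuated
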