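import Mathlib

/-! Operators `x ↦ q x + ∑ ℓ(p' i x) p i` on a field extension, and unit-regularity. -/

namespace Pool.Q297.UR

open Finset

section basic

variable {F K : Type} [Field F] [Field K] [Algebra F K]

/-- the operator attached to a functional and a symbol -/
def T (l : K →ₗ[F] F) (q : K) {ι : Type} [Fintype ι] (p p' : ι → K) : Module.End F K where
  toFun x := q * x + ∑ i, l (p' i * x) • p i
  map_add' x y := by
    simp only [mul_add, map_add, add_smul, Finset.sum_add_distrib]
    ring
  map_smul' c x := by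
    simp only [mul_smul_comm, map_smul, smul_eq_mul, mul_smul, RingHom.id_apply, smul_add,
      Finset.smul_sum]

theorem T_apply (l : K →ₗ[F] F) (q : K) {ι : Type} [Fintype ι] (p p' : ι → K) (x : K) :
    T l q p p' x = q * x + ∑ i, l (p' i * x) • p i := rfl

theorem T_mul (l : K →ₗ[F] F) (q s : K) {ι κ : Type} [Fintype ι] [Fintype κ]
    (p p' : ι → K) (r r' : κ → K) :
    T l q p p' * T l s r r' = T l (q * s)
      (Sum.elim p (fun j => q * r j + ∑ i, l (p' i * r j) • p i))
      (Sum.elim (fun i => p' i * s) r') := by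
  ext x
  simp only [Module.End.mul_apply, T_apply, Fintype.sum_sum_type, Sum.elim_inl, Sum.elim_inr]
  have h1 : ∀ i, l (p' i * (s * x + ∑ j, l (r' j * x) • r j)) =
      l (p' i * s * x) + ∑ j, l (r' j * x) * l (p' i * r j) := by
    intro i
    rw [mul_add, map_add, Finset.mul_sum, map_sum, mul_assoc]
    congr 1
    apply Finset.sum_congr rfl
    intro j _
    rw [mul_smul_comm, map_smul, smul_eq_mul]
  have h3 : ∑ i, l (p' i * (s * x + ∑ j, l (r' j * x) • r j)) • p i =
      ∑ i, l (p' i * s * x) • p i + ∑ j, l (r' j * x) • ∑ i, l (p' i * r j) • p i := by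
    simp only [h1, add_smul, Finset.sum_add_distrib, Finset.sum_smul, Finset.smul_sum]
    congr 1
    rw [Finset.sum_comm]
    apply Finset.sum_congr rfl
    intro j _
    apply Finset.sum_congr rfl
    intro i _
    rw [mul_smul]
  rw [h3]
  have h4 : q * (s * x + ∑ j, l (r' j * x) • r j) =
      q * s * x + ∑ j, l (r' j * x) • (q * r j) := by
    rw [mul_add, Finset.mul_sum, mul_assoc]
    congr 1
    apply Finset.sum_congr rfl
    intro j _
    rw [mul_smul_comm]
  rw [h4]
  simp only [smul_add, Finset.sum_add_distrib]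
  ring

theorem T_add (l : K →ₗ[F] F) (q s : K) {ι κ : Type} [Fintype ι] [Fintype κ]
    (p p' : ι → K) (r r' : κ → K) :
    T l q p p' + T l s r r' = T l (q + s) (Sum.elim p r) (Sum.elim p' r') := by
  ext x
  simp only [LinearMap.add_apply, T_apply, Fintype.sum_sum_type, Sum.elim_inl, Sum.elim_inr]
  ring

theorem T_neg (l : K →ₗ[F] F) (q : K) {ι : Type} [Fintype ι] (p p' : ι → K) :
    - T l q p p' = T l (-q) (fun i => - p i) p' := by
  ext x
  simp only [LinearMap.neg_apply, T_apply, smul_neg, Finset.sum_neg_distrib]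
  ring

theorem T_one (l : K →ₗ[F] F) : (1 : Module.End F K) =
    T l 1 (fun _ : Fin 0 => (0 : K)) (fun _ => 0) := by
  ext x
  simp [T_apply]

theorem T_zero (l : K →ₗ[F] F) : (0 : Module.End F K) =
    T l 0 (fun _ : Fin 0 => (0 : K)) (fun _ => 0) := by
  ext x
  simp [T_apply]

/-- Any endomorphism of a finite-dimensional space has a unit inner inverse. -/
theorem end_unit_regular {V : Type} [AddCommGroup V] [Module F V] [FiniteDimensional F V]
    (X : V →ₗ[F] V) : ∃ Y Y' : V →ₗ[F] V, Y * Y' = 1 ∧ Y' * Y = 1 ∧ X * Y * X = X := by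
  obtain ⟨C, hC⟩ := Submodule.exists_isCompl (LinearMap.ker X)
  obtain ⟨D, hD⟩ := Submodule.exists_isCompl (LinearMap.range X)
  let e1 := LinearMap.kerComplementEquivRange X hC.symm
  have hfr : Module.finrank F D = Module.finrank F (LinearMap.ker X) := by
    have h1 := Submodule.finrank_add_eq_of_isCompl hD
    have h2 := X.finrank_range_add_finrank_ker
    omega
  let e2 : D ≃ₗ[F] (LinearMap.ker X) := LinearEquiv.ofFinrankEq _ _ hfr
  let eV1 : ((LinearMap.range X) × D) ≃ₗ[F] V := Submodule.prodEquivOfIsCompl _ _ hD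
  let eV2 : (C × (LinearMap.ker X)) ≃ₗ[F] V := Submodule.prodEquivOfIsCompl _ _ hC.symm
  let Y : V ≃ₗ[F] V := eV1.symm.trans ((LinearEquiv.prodCongr e1.symm e2).trans eV2)
  refine ⟨Y, Y.symm, ?_, ?_, ?_⟩
  · ext x; simp
  · ext x; simp
  · ext x
    simp only [Module.End.mul_apply, LinearEquiv.coe_coe]
    obtain ⟨c, n, rfl⟩ : ∃ (c : C) (n : LinearMap.ker X), (c : V) + n = x := by
      refine ⟨(eV2.symm x).1, (eV2.symm x).2, ?_⟩
      have := eV2.apply_symm_apply x
      conv_rhs => rw [← this]
      rfl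
    have hX : X ((c : V) + n) = X c := by
      rw [map_add, LinearMap.mem_ker.mp n.2, add_zero]
    rw [hX]
    have hs : eV1.symm (X c) = (e1 c, 0) := by
      rw [LinearEquiv.symm_apply_eq]
      change X c = (e1 c : V) + ((0 : D) : V)
      rw [LinearMap.kerComplementEquivRange_apply_coe]
      simp
    have : Y (X c) = c := by
      change eV2 ((LinearEquiv.prodCongr e1.symm e2) (eV1.symm (X c))) = c
      rw [hs]
      change eV2 (e1.symm (e1 c), e2 0) = c
      rw [e1.symm_apply_apply, map_zero]
      change (c : V) + ((0 : LinearMap.ker X) : V) = c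
      simp
    rw [this]

/-- radical of the form `l (x y)` on a subspace -/
def rad (l : K →ₗ[F] F) (E : Submodule F K) : Submodule F K where
  carrier := {x | x ∈ E ∧ ∀ y ∈ E, l (x * y) = 0}
  add_mem' := by
    rintro a b ⟨ha, ha'⟩ ⟨hb, hb'⟩
    exact ⟨E.add_mem ha hb, fun y hy => by rw [add_mul, map_add, ha' y hy, hb' y hy, add_zero]⟩
  zero_mem' := ⟨E.zero_mem, fun y _ => by rw [zero_mul, map_zero]⟩
  smul_mem' := by
    rintro c x ⟨hx, hx'⟩
    exact ⟨E.smul_mem c hx, fun y hy => by rw [smul_mul_assoc, map_smul, hx' y hy, smul_zero]⟩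

theorem mem_rad {l : K →ₗ[F] F} {E : Submodule F K} {x : K} :
    x ∈ rad l E ↔ x ∈ E ∧ ∀ y ∈ E, l (x * y) = 0 := Iff.rfl

theorem exists_nondeg (l : K →ₗ[F] F) (hl : l 1 = 1) (n : ℕ) :
    ∀ E : Submodule F K, FiniteDimensional F E → Module.finrank F (rad l E) ≤ n →
      ∃ E' : Submodule F K, E ≤ E' ∧ FiniteDimensional F E' ∧ rad l E' = ⊥ := by
  induction n with
  | zero =>
    intro E hE h
    refine ⟨E, le_refl _, hE, ?_⟩
    have hle : rad l E ≤ E := fun x hx => hx.1
    have : FiniteDimensional F (rad l E) := Submodule.finiteDimensional_of_le hle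
    exact Submodule.finrank_eq_zero.mp (Nat.le_zero.mp h)
  | succ n ih =>
    intro E hE h
    by_cases hb : rad l E = ⊥
    · exact ⟨E, le_refl _, hE, hb⟩
    obtain ⟨r, hr, hr0⟩ := (Submodule.ne_bot_iff _).mp hb
    let E1 : Submodule F K := E ⊔ Submodule.span F {r⁻¹}
    have hE1 : FiniteDimensional F E1 := Submodule.finiteDimensional_sup _ _
    have hle1 : rad l E ≤ E := fun x hx => hx.1
    have : FiniteDimensional F (rad l E) := Submodule.finiteDimensional_of_le hle1
    have hlt : rad l E1 < rad l E := by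
      refine lt_of_le_of_ne ?_ ?_
      · rintro x ⟨hx, hx'⟩
        obtain ⟨e, he, z, hz, rfl⟩ := Submodule.mem_sup.mp hx
        obtain ⟨c, rfl⟩ := Submodule.mem_span_singleton.mp hz
        have h1 := hx' r (Submodule.mem_sup_left hr.1)
        have h2 : l (e * r) = 0 := by
          rw [mul_comm]; exact hr.2 e he
        have h3 : c = 0 := by
          rw [add_mul, map_add, h2, zero_add, smul_mul_assoc, inv_mul_cancel₀ hr0, map_smul,
            hl, smul_eq_mul, mul_one] at h1
          exact h1
        rw [h3, zero_smul, add_zero]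
        refine ⟨he, fun y hy => ?_⟩
        have := hx' y (Submodule.mem_sup_left hy)
        rwa [h3, zero_smul, add_zero] at this
      · intro heq
        have : r ∈ rad l E1 := heq ▸ hr
        have h1 := this.2 r⁻¹ (Submodule.mem_sup_right (Submodule.mem_span_singleton_self _))
        rw [mul_inv_cancel₀ hr0, hl] at h1
        exact one_ne_zero h1
    have := Submodule.finrank_lt_finrank_of_lt hlt
    obtain ⟨E', h1, h2, h3⟩ := ih E1 hE1 (by omega)
    exact ⟨E', le_trans le_sup_left h1, h2, h3⟩

end basic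

end Pool.Q297.UR
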