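import Pool.Agent.Q297.URA

/-! Uniform unit inner inverses for the operators `T l q p p'`. -/

namespace Pool.Q297.UR

open Finset

section uniform

variable {F K : Type} [Field F] [Field K] [Algebra F K]

/-- projection attached to a functional and two families in a subspace -/
def gp (l : K →ₗ[F] F) (E : Submodule F K) {κ : Type} [Fintype κ] (b : κ → E) (e' : κ → K) :
    K →ₗ[F] E where
  toFun x := ∑ j, l (e' j * x) • b j
  map_add' x y := by
    simp only [mul_add, map_add, add_smul, Finset.sum_add_distrib]
  map_smul' c x := by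
    simp only [mul_smul_comm, map_smul, smul_eq_mul, mul_smul, RingHom.id_apply,
      Finset.smul_sum]

theorem gp_apply (l : K →ₗ[F] F) (E : Submodule F K) {κ : Type} [Fintype κ] (b : κ → E)
    (e' : κ → K) (x : K) : gp l E b e' x = ∑ j, l (e' j * x) • b j := rfl

/-- extension by the identity -/
noncomputable def psi (l : K →ₗ[F] F) (E : Submodule F K) {κ : Type} [Fintype κ] (b : κ → E)
    (e' : κ → K) (Y : Module.End F E) : Module.End F K :=
  1 + E.subtype ∘ₗ (Y - 1) ∘ₗ gp l E b e'

/-- extension by zero -/
noncomputable def phi (l : K →ₗ[F] F) (E : Submodule F K) {κ : Type} [Fintype κ] (b : κ → E)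
    (e' : κ → K) (Y : Module.End F E) : Module.End F K :=
  E.subtype ∘ₗ Y ∘ₗ gp l E b e'

theorem psi_eq_T (l : K →ₗ[F] F) (E : Submodule F K) {κ : Type} [Fintype κ] (b : κ → E)
    (e' : κ → K) (Y : Module.End F E) :
    psi l E b e' Y = T l 1 (fun j => (((Y - 1) (b j) : E) : K)) e' := by
  ext x
  simp only [psi, LinearMap.add_apply, Module.End.one_apply, LinearMap.comp_apply,
    Submodule.subtype_apply, gp_apply, map_sum, map_smul, T_apply, one_mul, Submodule.coe_sum,
    Submodule.coe_smul]

theorem phi_eq_T (l : K →ₗ[F] F) (E : Submodule F K) {κ : Type} [Fintype κ] (b : κ → E)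
    (e' : κ → K) (Y : Module.End F E) :
    phi l E b e' Y = T l 0 (fun j => ((Y (b j) : E) : K)) e' := by
  ext x
  simp only [phi, LinearMap.comp_apply,
    Submodule.subtype_apply, gp_apply, map_sum, map_smul, T_apply, zero_mul, zero_add,
    Submodule.coe_sum, Submodule.coe_smul]

section dual

variable (l : K →ₗ[F] F) (E : Submodule F K) {κ : Type} [Fintype κ] (b : κ → E)
    (e' : κ → K) (hg : ∀ y : E, gp l E b e' y = y)

include hg

theorem psi_mul (Y Z : Module.End F E) :
    psi l E b e' Y * psi l E b e' Z = psi l E b e' (Y * Z) := by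
  ext x
  simp only [psi, LinearMap.add_apply, Module.End.one_apply, LinearMap.comp_apply,
    Submodule.subtype_apply, Module.End.mul_apply, map_add, hg, LinearMap.sub_apply, map_sub,
    Submodule.coe_sub]
  ring

theorem phi_psi (Y Z : Module.End F E) :
    phi l E b e' Y * psi l E b e' Z = phi l E b e' (Y * Z) := by
  ext x
  simp only [psi, phi, LinearMap.add_apply, Module.End.one_apply, LinearMap.comp_apply,
    Submodule.subtype_apply, Module.End.mul_apply, map_add, hg, LinearMap.sub_apply, map_sub,
    Submodule.coe_sub, Submodule.coe_add]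
  ring

theorem phi_phi (Y Z : Module.End F E) :
    phi l E b e' Y * phi l E b e' Z = phi l E b e' (Y * Z) := by
  ext x
  simp only [phi, LinearMap.comp_apply,
    Submodule.subtype_apply, Module.End.mul_apply, hg]

end dual

theorem psi_one (l : K →ₗ[F] F) (E : Submodule F K) {κ : Type} [Fintype κ] (b : κ → E)
    (e' : κ → K) : psi l E b e' 1 = 1 := by
  ext x
  simp [psi]

/-- existence of a dual window -/
theorem exists_window (l0 : K →ₗ[F] F) (hl0 : l0 1 = 1) (S : Set K) (hS : S.Finite) :
    ∃ (E : Submodule F K) (_ : FiniteDimensional F E) (κ : Type) (_ : Fintype κ) (b : κ → E)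
      (e' : κ → K) (W : Finset K), S ⊆ E ∧
      (∀ l : K →ₗ[F] F, (∀ w ∈ W, l w = l0 w) →
        (∀ y : E, gp l E b e' y = y) ∧
        (∀ z ∈ E, ∀ x : K, l (z * x) = l0 (z * (gp l E b e' x)))) := by
  have hfin0 : FiniteDimensional F (Submodule.span F S) := FiniteDimensional.span_of_finite F hS
  obtain ⟨E, hE1, hE2, hE3⟩ := exists_nondeg l0 hl0 _ (Submodule.span F S) hfin0 (le_refl _)
  let B : LinearMap.BilinForm F E := LinearMap.mk₂ F (fun x y : E => l0 ((x : K) * y))
    (by intro a b c; simp [add_mul]) (by intro c a b; simp)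
    (by intro a b c; simp [mul_add]) (by intro c a b; simp)
  have hBapp : ∀ x y : E, B x y = l0 ((x : K) * y) := fun x y => rfl
  have hB : B.Nondegenerate := by
    have h1 : ∀ x : E, (∀ y : E, B x y = 0) → x = 0 := by
      intro x hx
      have : (x : K) ∈ rad l0 E := ⟨x.2, fun y hy => by
        have := hx ⟨y, hy⟩
        rwa [hBapp] at this⟩
      rw [hE3] at this
      exact Subtype.ext ((Submodule.mem_bot F).mp this)
    constructor
    · intro x hx
      exact h1 x hx
    · intro x hx
      apply h1 x
      intro y
      have := hx y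
      rw [hBapp] at this ⊢
      rwa [mul_comm]
  let b := Module.finBasis F E
  let d := B.dualBasis hB b
  classical
  refine ⟨E, hE2, _, inferInstance, fun i => b i, fun i => (d i : K),
    (Finset.univ.image fun ij : (Fin (Module.finrank F E)) × (Fin (Module.finrank F E)) =>
      (d ij.1 : K) * (b ij.2 : K)), fun s hs => hE1 (Submodule.subset_span hs), ?_⟩
  intro l hl
  have hdual : ∀ i j, l ((d i : K) * (b j : K)) = if j = i then 1 else 0 := by
    intro i j
    rw [hl _ (Finset.mem_image.mpr ⟨(i, j), Finset.mem_univ _, rfl⟩)]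
    have := LinearMap.BilinForm.apply_dualBasis_left (B := B) hB b i j
    rw [hBapp] at this
    exact this
  constructor
  · intro y
    rw [gp_apply]
    have h1 : ∀ j, l ((d j : K) * (y : K)) = b.repr y j := by
      intro j
      have hy : (y : K) = ∑ i, b.repr y i • (b i : K) := by
        have := congrArg (fun z : E => (z : K)) (b.sum_repr y)
        simp only [Submodule.coe_sum, Submodule.coe_smul] at this
        exact this.symm
      conv_lhs => rw [hy]
      rw [Finset.mul_sum, map_sum]
      simp only [mul_smul_comm, map_smul, hdual, smul_eq_mul]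
      simp
    simp only [h1]
    exact b.sum_repr y
  · intro z hz x
    have hz' : z = ∑ j, l0 (z * (b j : K)) • (d j : K) := by
      have h2 := congrArg (fun z : E => (z : K)) (d.sum_repr ⟨z, hz⟩)
      simp only [Submodule.coe_sum, Submodule.coe_smul] at h2
      rw [← h2]
      apply Finset.sum_congr rfl
      intro j _
      have h3 := LinearMap.BilinForm.dualBasis_repr_apply (B := B) hB b (⟨z, hz⟩ : E) j
      rw [hBapp] at h3
      change (d.repr ⟨z, hz⟩ j) • (d j : K) = _
      rw [show d.repr ⟨z, hz⟩ j = l0 (z * (b j : K)) from h3]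
      rw [h2]
    rw [gp_apply, Submodule.coe_sum, Finset.mul_sum, map_sum]
    conv_lhs => rw [hz']
    rw [Finset.sum_mul, map_sum]
    apply Finset.sum_congr rfl
    intro j _
    rw [smul_mul_assoc, map_smul, Submodule.coe_smul, mul_smul_comm, map_smul, smul_eq_mul,
      smul_eq_mul, mul_comm]

end uniform

end Pool.Q297.UR
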