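import Pool.Agent.Q297.URB

/-! Uniform unit inner inverses, second part. -/

namespace Pool.Q297.UR

open Finset

section uniform

variable {F K : Type} [Field F] [Field K] [Algebra F K]

theorem uniform_unit (l0 : K →ₗ[F] F) (hl0 : l0 1 = 1) (q : K) {ι : Type} [Fintype ι]
    (p p' : ι → K) :
    ∃ (κ : Type) (_ : Fintype κ) (s : K) (r r' : κ → K) (t : K) (v v' : κ → K) (W : Finset K),
      ∀ l : K →ₗ[F] F, (∀ w ∈ W, l w = l0 w) →
        T l q p p' * T l s r r' * T l q p p' = T l q p p' ∧
        T l s r r' * T l t v v' = 1 ∧ T l t v v' * T l s r r' = 1 := by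
  by_cases hq : q = 0
  · -- finite rank case
    obtain ⟨E, hE, κ, hκ, b, e', W, hS, hW⟩ := exists_window l0 hl0
      (Set.range p ∪ Set.range p') ((Set.finite_range p).union (Set.finite_range p'))
    have hp : ∀ i, p i ∈ E := fun i => hS (Or.inl ⟨i, rfl⟩)
    have hp' : ∀ i, p' i ∈ E := fun i => hS (Or.inr ⟨i, rfl⟩)
    let X : Module.End F E :=
      { toFun := fun y => ∑ i, l0 (p' i * y) • (⟨p i, hp i⟩ : E)
        map_add' := by
          intro x y
          simp only [Submodule.coe_add, mul_add, map_add, add_smul, Finset.sum_add_distrib]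
        map_smul' := by
          intro c x
          simp only [Submodule.coe_smul, mul_smul_comm, map_smul, smul_eq_mul, mul_smul,
            RingHom.id_apply, Finset.smul_sum] }
    have hX : ∀ y : E, ((X y : E) : K) = ∑ i, l0 (p' i * y) • p i := by
      intro y
      change (((∑ i, l0 (p' i * y) • (⟨p i, hp i⟩ : E)) : E) : K) = _
      simp only [Submodule.coe_sum, Submodule.coe_smul]
    obtain ⟨Y, Y', h1, h2, h3⟩ := end_unit_regular X
    refine ⟨κ, hκ, 1, fun j => (((Y - 1) (b j) : E) : K), e', 1,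
      fun j => (((Y' - 1) (b j) : E) : K), e', W, ?_⟩
    intro l hl
    obtain ⟨hg, hz⟩ := hW l hl
    have hT : T l q p p' = phi l E b e' X := by
      ext x
      rw [T_apply, hq, zero_mul, zero_add]
      simp only [phi, LinearMap.comp_apply, Submodule.subtype_apply]
      rw [hX]
      apply Finset.sum_congr rfl
      intro i _
      rw [hz _ (hp' i)]
    rw [hT, ← psi_eq_T, ← psi_eq_T, phi_psi l E b e' hg, phi_phi l E b e' hg,
      psi_mul l E b e' hg, psi_mul l E b e' hg, h1, h2, h3, psi_one]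
    exact ⟨rfl, rfl, rfl⟩
  · obtain ⟨E, hE, κ, hκ, b, e', W, hS, hW⟩ := exists_window l0 hl0
      (Set.range (fun i => q⁻¹ * p i) ∪ Set.range p')
      ((Set.finite_range _).union (Set.finite_range p'))
    have hp : ∀ i, q⁻¹ * p i ∈ E := fun i => hS (Or.inl ⟨i, rfl⟩)
    have hp' : ∀ i, p' i ∈ E := fun i => hS (Or.inr ⟨i, rfl⟩)
    let X : Module.End F E :=
      { toFun := fun y => ∑ i, l0 (p' i * y) • (⟨q⁻¹ * p i, hp i⟩ : E)
        map_add' := by
          intro x y
          simp only [Submodule.coe_add, mul_add, map_add, add_smul, Finset.sum_add_distrib]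
        map_smul' := by
          intro c x
          simp only [Submodule.coe_smul, mul_smul_comm, map_smul, smul_eq_mul, mul_smul,
            RingHom.id_apply, Finset.smul_sum] }
    have hX : ∀ y : E, ((X y : E) : K) = ∑ i, l0 (p' i * y) • (q⁻¹ * p i) := by
      intro y
      change (((∑ i, l0 (p' i * y) • (⟨q⁻¹ * p i, hp i⟩ : E)) : E) : K) = _
      simp only [Submodule.coe_sum, Submodule.coe_smul]
    obtain ⟨Y, Y', h1, h2, h3⟩ := end_unit_regular (1 + X)
    refine ⟨κ, hκ, q⁻¹, fun j => (((Y - 1) (b j) : E) : K), fun j => e' j * q⁻¹, q,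
      fun j => q * (((Y' - 1) (b j) : E) : K), e', W, ?_⟩
    intro l hl
    obtain ⟨hg, hz⟩ := hW l hl
    have hT : T l q p p' = LinearMap.mulLeft F q * psi l E b e' (1 + X) := by
      ext x
      have h1X : (1 + X - 1 : Module.End F E) = X := add_sub_cancel_left 1 X
      rw [T_apply, Module.End.mul_apply, LinearMap.mulLeft_apply, psi, h1X]
      simp only [LinearMap.add_apply, Module.End.one_apply, LinearMap.comp_apply,
        Submodule.subtype_apply]
      rw [hX, mul_add, Finset.mul_sum]
      congr 1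
      apply Finset.sum_congr rfl
      intro i _
      rw [hz _ (hp' i), mul_smul_comm, mul_inv_cancel_left₀ hq]
    have hs : T l q⁻¹ (fun j => (((Y - 1) (b j) : E) : K)) (fun j => e' j * q⁻¹) =
        psi l E b e' Y * LinearMap.mulLeft F q⁻¹ := by
      rw [psi_eq_T]
      ext x
      rw [T_apply, Module.End.mul_apply, LinearMap.mulLeft_apply, T_apply]
      simp only [one_mul, mul_assoc]
    have ht : T l q (fun j => q * (((Y' - 1) (b j) : E) : K)) e' =
        LinearMap.mulLeft F q * psi l E b e' Y' := by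
      rw [psi_eq_T]
      ext x
      rw [Module.End.mul_apply, LinearMap.mulLeft_apply, T_apply, T_apply]
      simp only [one_mul, mul_add, Finset.mul_sum, mul_smul_comm]
    have hqq : LinearMap.mulLeft F q⁻¹ * LinearMap.mulLeft F q = (1 : Module.End F K) := by
      ext x
      simp [inv_mul_cancel_left₀ hq]
    have hqq' : LinearMap.mulLeft F q * LinearMap.mulLeft F q⁻¹ = (1 : Module.End F K) := by
      ext x
      simp [mul_inv_cancel_left₀ hq]
    rw [hT, hs, ht]
    refine ⟨?_, ?_, ?_⟩
    · calc LinearMap.mulLeft F q * psi l E b e' (1 + X) *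
            (psi l E b e' Y * LinearMap.mulLeft F q⁻¹) *
            (LinearMap.mulLeft F q * psi l E b e' (1 + X))
          = LinearMap.mulLeft F q * (psi l E b e' (1 + X) * psi l E b e' Y *
            (LinearMap.mulLeft F q⁻¹ * LinearMap.mulLeft F q) * psi l E b e' (1 + X)) := by
            simp only [mul_assoc]
        _ = _ := by
            rw [hqq, mul_one, psi_mul l E b e' hg, psi_mul l E b e' hg, h3]
    · calc psi l E b e' Y * LinearMap.mulLeft F q⁻¹ * (LinearMap.mulLeft F q * psi l E b e' Y')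
          = psi l E b e' Y * (LinearMap.mulLeft F q⁻¹ * LinearMap.mulLeft F q) *
            psi l E b e' Y' := by simp only [mul_assoc]
        _ = 1 := by rw [hqq, mul_one, psi_mul l E b e' hg, h1, psi_one]
    · calc LinearMap.mulLeft F q * psi l E b e' Y' * (psi l E b e' Y * LinearMap.mulLeft F q⁻¹)
          = LinearMap.mulLeft F q * (psi l E b e' Y' * psi l E b e' Y) *
            LinearMap.mulLeft F q⁻¹ := by simp only [mul_assoc]
        _ = 1 := by rw [psi_mul l E b e' hg, h2, psi_one, mul_one, hqq']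

end uniform

section ring

variable {F K : Type} [Field F] [Field K] [Algebra F K]

/-- The ring of sequences of operators that are eventually given by one symbol. -/
def RR (c : K →ₗ[F] F) (lam : ℕ → (K →ₗ[F] F))
    (hc : ∀ x : K, ∀ᶠ n in Filter.atTop, lam n x = c x) : Subring (ℕ → Module.End F K) where
  carrier := {x | (∀ n, ∃ (q : K) (ι : Type) (_ : Fintype ι) (p p' : ι → K),
        x n = T (lam n) q p p') ∧
      ∃ (q : K) (ι : Type) (_ : Fintype ι) (p p' : ι → K),
        ∀ᶠ n in Filter.atTop, x n = T (lam n) q p p'}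
  mul_mem' := by
    rintro x y ⟨hx1, q, ι, hι, p, p', hx2⟩ ⟨hy1, s, κ, hκ, r, r', hy2⟩
    constructor
    · intro n
      obtain ⟨q, ι, hι, p, p', hx⟩ := hx1 n
      obtain ⟨s, κ, hκ, r, r', hy⟩ := hy1 n
      exact ⟨_, _, inferInstance, _, _, by rw [Pi.mul_apply, hx, hy, T_mul]⟩
    · refine ⟨q * s, ι ⊕ κ, inferInstance,
        Sum.elim p (fun j => q * r j + ∑ i, c (p' i * r j) • p i),
        Sum.elim (fun i => p' i * s) r', ?_⟩
      have h3 : ∀ᶠ n in Filter.atTop, ∀ i j, lam n (p' i * r j) = c (p' i * r j) := by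
        rw [Filter.eventually_all]
        intro i
        rw [Filter.eventually_all]
        intro j
        exact hc _
      filter_upwards [hx2, hy2, h3] with n h1 h2 h3
      rw [Pi.mul_apply, h1, h2, T_mul]
      simp only [h3]
  one_mem' := by
    constructor
    · intro n
      exact ⟨_, _, inferInstance, _, _, by rw [Pi.one_apply]; exact T_one (lam n)⟩
    · exact ⟨1, Fin 0, inferInstance, fun _ => 0, fun _ => 0, Filter.Eventually.of_forall
        (fun n => by rw [Pi.one_apply]; exact T_one (lam n))⟩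
  add_mem' := by
    rintro x y ⟨hx1, q, ι, hι, p, p', hx2⟩ ⟨hy1, s, κ, hκ, r, r', hy2⟩
    constructor
    · intro n
      obtain ⟨q, ι, hι, p, p', hx⟩ := hx1 n
      obtain ⟨s, κ, hκ, r, r', hy⟩ := hy1 n
      exact ⟨_, _, inferInstance, _, _, by rw [Pi.add_apply, hx, hy, T_add]⟩
    · refine ⟨q + s, ι ⊕ κ, inferInstance, Sum.elim p r, Sum.elim p' r', ?_⟩
      filter_upwards [hx2, hy2] with n h1 h2
      rw [Pi.add_apply, h1, h2, T_add]
  zero_mem' := by
    constructor
    · intro n
      exact ⟨_, _, inferInstance, _, _, by rw [Pi.zero_apply]; exact T_zero (lam n)⟩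
    · exact ⟨0, Fin 0, inferInstance, fun _ => 0, fun _ => 0, Filter.Eventually.of_forall
        (fun n => by rw [Pi.zero_apply]; exact T_zero (lam n))⟩
  neg_mem' := by
    rintro x ⟨hx1, q, ι, hι, p, p', hx2⟩
    constructor
    · intro n
      obtain ⟨q, ι, hι, p, p', hx⟩ := hx1 n
      exact ⟨_, _, inferInstance, _, _, by rw [Pi.neg_apply, hx, T_neg]⟩
    · refine ⟨-q, ι, hι, fun i => - p i, p', ?_⟩
      filter_upwards [hx2] with n h1
      rw [Pi.neg_apply, h1, T_neg]

theorem RR_unit_regular (c : K →ₗ[F] F) (hc1 : c 1 = 1) (lam : ℕ → (K →ₗ[F] F))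
    (hlam : ∀ n, lam n 1 = 1)
    (hc : ∀ x : K, ∀ᶠ n in Filter.atTop, lam n x = c x) (x : RR c lam hc) :
    ∃ v : (RR c lam hc)ˣ, x * v * x = x := by
  obtain ⟨x, hx1, q, ι, hι, p, p', hx2⟩ := x
  obtain ⟨κ, hκ, s, r, r', t, v, v', W, hW⟩ := uniform_unit c hc1 q p p'
  have h3 : ∀ᶠ n in Filter.atTop, ∀ w ∈ W, lam n w = c w := by
    rw [Filter.eventually_all_finset]
    intro w _
    exact hc w
  have h4 : ∀ᶠ n in Filter.atTop, x n * T (lam n) s r r' * x n = x n ∧
      T (lam n) s r r' * T (lam n) t v v' = 1 ∧ T (lam n) t v v' * T (lam n) s r r' = 1 := by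
    filter_upwards [hx2, h3] with n h1 h3
    rw [h1]
    exact hW (lam n) h3
  have h5 : ∀ n, ∃ y z : Module.End F K,
      (∃ (q : K) (ι : Type) (_ : Fintype ι) (p p' : ι → K), y = T (lam n) q p p') ∧
      (∃ (q : K) (ι : Type) (_ : Fintype ι) (p p' : ι → K), z = T (lam n) q p p') ∧
      x n * y * x n = x n ∧ y * z = 1 ∧ z * y = 1 := by
    intro n
    obtain ⟨q, ι, hι, p, p', hx⟩ := hx1 n
    obtain ⟨κ, hκ, s, r, r', t, v, v', W, hW⟩ := uniform_unit (lam n) (hlam n) q p p'
    refine ⟨_, _, ⟨s, κ, hκ, r, r', rfl⟩, ⟨t, κ, hκ, v, v', rfl⟩, ?_⟩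
    rw [hx]
    exact hW (lam n) (fun w _ => rfl)
  choose y z hy hz hxy hyz hzy using h5
  classical
  let P : ℕ → Prop := fun n => x n * T (lam n) s r r' * x n = x n ∧
      T (lam n) s r r' * T (lam n) t v v' = 1 ∧ T (lam n) t v v' * T (lam n) s r r' = 1
  let Y : ℕ → Module.End F K := fun n => if P n then T (lam n) s r r' else y n
  let Z : ℕ → Module.End F K := fun n => if P n then T (lam n) t v v' else z n
  have hYm : Y ∈ RR c lam hc := by
    constructor
    · intro n
      by_cases h : P n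
      · exact ⟨s, κ, hκ, r, r', if_pos h⟩
      · obtain ⟨q, ι, hι, p, p', h'⟩ := hy n
        exact ⟨q, ι, hι, p, p', (if_neg h).trans h'⟩
    · refine ⟨s, κ, hκ, r, r', ?_⟩
      filter_upwards [h4] with n h
      exact if_pos h
  have hZm : Z ∈ RR c lam hc := by
    constructor
    · intro n
      by_cases h : P n
      · exact ⟨t, κ, hκ, v, v', if_pos h⟩
      · obtain ⟨q, ι, hι, p, p', h'⟩ := hz n
        exact ⟨q, ι, hι, p, p', (if_neg h).trans h'⟩
    · refine ⟨t, κ, hκ, v, v', ?_⟩
      filter_upwards [h4] with n h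
      exact if_pos h
  have hYZ : ∀ n, x n * Y n * x n = x n ∧ Y n * Z n = 1 ∧ Z n * Y n = 1 := by
    intro n
    by_cases h : P n
    · have e1 : Y n = T (lam n) s r r' := if_pos h
      have e2 : Z n = T (lam n) t v v' := if_pos h
      rw [e1, e2]
      exact h
    · have e1 : Y n = y n := if_neg h
      have e2 : Z n = z n := if_neg h
      rw [e1, e2]
      exact ⟨hxy n, hyz n, hzy n⟩
  refine ⟨⟨⟨Y, hYm⟩, ⟨Z, hZm⟩, ?_, ?_⟩, ?_⟩
  · apply Subtype.ext
    funext n
    exact (hYZ n).2.1
  · apply Subtype.ext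
    funext n
    exact (hYZ n).2.2
  · apply Subtype.ext
    funext n
    exact (hYZ n).1

end ring

end Pool.Q297.UR
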