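import Pool.Agent.Q297.URC

/-! The element without a common inner inverse of its powers: one component. -/

namespace Pool.Q297.UR

open Finset Polynomial

section comp

variable {F K : Type} [Field F] [Field K] [Algebra F K]

/-- the operator `x ↦ u⁻¹ (x - l x)` -/
noncomputable def aop (l : K →ₗ[F] F) (u : K) : Module.End F K :=
  T l u⁻¹ (fun _ : Unit => - u⁻¹) (fun _ => 1)

theorem aop_apply (l : K →ₗ[F] F) (u x : K) : aop l u x = u⁻¹ * x - l x • u⁻¹ := by
  rw [aop, T_apply]
  simp only [one_mul, Finset.univ_unique, Finset.sum_singleton, smul_neg]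
  ring

theorem mul_aop (l : K →ₗ[F] F) (u : K) (hu : u ≠ 0) (x : K) :
    u * aop l u x = x - l x • (1 : K) := by
  rw [aop_apply, mul_sub, mul_inv_cancel_left₀ hu, mul_smul_comm, mul_inv_cancel₀ hu]

theorem aop_of (l : K →ₗ[F] F) (u : K) (hu : u ≠ 0) (hl1 : l 1 = 1) (y : K)
    (hy : l (u * y) = 0) (c : F) : aop l u (u * y + c • (1 : K)) = y := by
  apply mul_left_cancel₀ hu
  rw [mul_aop l u hu, map_add, hy, zero_add, map_smul, hl1, smul_eq_mul, mul_one]
  ring

theorem aop_expand (l : K →ₗ[F] F) (u : K) (hu : u ≠ 0) (x : K) (m : ℕ) :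
    x = ∑ k ∈ range m, l ((aop l u ^ k) x) • u ^ k + u ^ m * (aop l u ^ m) x := by
  induction m with
  | zero => simp
  | succ m ih =>
    rw [Finset.sum_range_succ, pow_succ u m, mul_assoc, pow_succ' (aop l u) m,
      Module.End.mul_apply, mul_aop l u hu, mul_sub, mul_smul_comm, mul_one]
    conv_lhs => rw [ih]
    ring

/-- span of the first powers -/
def U (F : Type) {K : Type} [Field F] [Field K] [Algebra F K] (u : K) (m : ℕ) : Submodule F K :=
  Submodule.span F {x | ∃ j < m, x = u ^ j}

theorem U_pow (u : K) {j m : ℕ} (h : j < m) : u ^ j ∈ U F u m :=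
  Submodule.subset_span ⟨j, h, rfl⟩

theorem U_map (u : K) (m m' : ℕ) (f : K →ₗ[F] K) (h : ∀ j < m, f (u ^ j) ∈ U F u m') :
    ∀ y ∈ U F u m, f y ∈ U F u m' := by
  intro y hy
  have : U F u m ≤ (U F u m').comap f := by
    apply Submodule.span_le.mpr
    rintro x ⟨j, hj, rfl⟩
    exact h j hj
  exact this hy

variable (l : K →ₗ[F] F) (u : K) (hu : u ≠ 0) (N : ℕ) (hN : 1 ≤ N)
  (hl : ∀ j, l (u ^ j) = (if j = 0 then 1 else 0) + (if j = N then 1 else 0))

include hN hl

theorem l_one : l 1 = 1 := by
  have := hl 0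
  rw [pow_zero] at this
  rw [this, if_pos rfl, if_neg (by omega), add_zero]

theorem l_mid {j : ℕ} (h1 : 1 ≤ j) (h2 : j < N) : l (u ^ j) = 0 := by
  rw [hl, if_neg (by omega), if_neg (by omega), add_zero]

theorem l_top : l (u ^ N) = 1 := by
  rw [hl, if_neg (by omega), if_pos rfl, zero_add]

include hu

theorem A_U (m : ℕ) (hm : m + 1 ≤ N) : ∀ y ∈ U F u (m + 1), aop l u y ∈ U F u m := by
  apply U_map
  intro j hj
  rcases Nat.eq_zero_or_pos j with h | h
  · rw [h, pow_zero]
    have := aop_of l u hu (l_one l u N hN hl) 0 (by simp) 1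
    rw [mul_zero, zero_add, one_smul] at this
    rw [this]
    exact Submodule.zero_mem _
  · obtain ⟨i, rfl⟩ : ∃ i, j = i + 1 := ⟨j - 1, by omega⟩
    have := aop_of l u hu (l_one l u N hN hl) (u ^ i)
      (by rw [← pow_succ']; exact l_mid l u N hN hl (by omega) (by omega)) 0
    rw [zero_smul, add_zero, ← pow_succ'] at this
    rw [this]
    exact U_pow u (by omega)

theorem A_pow_U (m : ℕ) (hm : m ≤ N) : ∀ y ∈ U F u m, (aop l u ^ m) y = 0 := by
  induction m with
  | zero =>
    intro y hy
    have : U F u 0 = ⊥ := by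
      rw [U]
      convert Submodule.span_empty
      ext x
      simp
    rw [this, Submodule.mem_bot] at hy
    rw [hy, map_zero]
  | succ m ih =>
    intro y hy
    rw [pow_succ, Module.End.mul_apply]
    exact ih (by omega) _ (A_U l u hu N hN hl m hm y hy)

variable (D : K →ₗ[F] F[X]) (hD : ∀ j, D (u ^ j) = X ^ j)

include hD

omit hl hN hu in
theorem D_U (m : ℕ) : ∀ y ∈ U F u m, ∀ k, m ≤ k → (D y).coeff k = 0 := by
  intro y hy k hk
  have : U F u m ≤ LinearMap.ker ((Polynomial.lcoeff F k) ∘ₗ D) := by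
    apply Submodule.span_le.mpr
    rintro x ⟨j, hj, rfl⟩
    change (D (u ^ j)).coeff k = 0
    rw [hD, coeff_X_pow, if_neg (by omega)]
  exact this hy

theorem coeff_zero_of_kill (x : K) (hx : (aop l u ^ (N + 1)) x = 0) : (D x).coeff N = 0 := by
  have h1 := aop_expand l u hu x (N + 1)
  rw [hx, mul_zero, add_zero] at h1
  have h2 : (D x).coeff N = l ((aop l u ^ N) x) := by
    conv_lhs => rw [h1]
    rw [map_sum, finset_sum_coeff, Finset.sum_range_succ]
    rw [Finset.sum_eq_zero, zero_add, map_smul, hD, coeff_smul, coeff_X_pow_self, smul_eq_mul,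
      mul_one]
    intro k hk
    rw [map_smul, hD, coeff_smul, coeff_X_pow, if_neg (by have := mem_range.mp hk; omega),
      smul_zero]
  rw [h2]
  have h3 := aop_expand l u hu (aop l u x) N
  have h4 : (aop l u ^ N) (aop l u x) = 0 := by
    rw [← Module.End.mul_apply, ← pow_succ]; exact hx
  rw [h4, mul_zero, add_zero] at h3
  have h5 : l (u * aop l u x) = 0 := by
    rw [mul_aop l u hu, map_sub, map_smul, l_one l u N hN hl, smul_eq_mul, mul_one, sub_self]
  rw [h3, Finset.mul_sum, map_sum] at h5
  obtain ⟨M, rfl⟩ : ∃ M, N = M + 1 := ⟨N - 1, by omega⟩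
  rw [Finset.sum_range_succ, Finset.sum_eq_zero, zero_add, mul_smul_comm, ← pow_succ', map_smul,
    l_top l u (M + 1) hN hl, smul_eq_mul, mul_one, ← Module.End.mul_apply, ← pow_succ] at h5
  · exact h5
  · intro k hk
    rw [mul_smul_comm, ← pow_succ', map_smul,
      l_mid l u (M + 1) hN hl (by omega) (by have := mem_range.mp hk; omega), smul_zero]

omit hD in
/-- consequence of the first inner inverse condition -/
theorem w_of (w : Module.End F K) (h1 : aop l u * w * aop l u = aop l u) (y : K)
    (hy : l (u * y) = 0) : w y = u * y + l (w y) • (1 : K) := by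
  have h2 := aop_of l u hu (l_one l u N hN hl) y hy 0
  rw [zero_smul, add_zero] at h2
  have h3 := congrArg (fun f : Module.End F K => f (u * y)) h1
  simp only [Module.End.mul_apply, h2] at h3
  have h4 := mul_aop l u hu (w y)
  rw [h3] at h4
  rw [h4]
  ring

theorem component {ι : Type} [Fintype ι] (p p' : ι → K)
    (hp : ∀ i, (D (p i)).coeff N = 0) (hp' : ∀ i, (D (p' i)).coeff (N + 1) = 0)
    (h1 : aop l u * T l u p p' * aop l u = aop l u)
    (h2 : aop l u ^ (N + 1) * T l u p p' ^ (N + 1) * aop l u ^ (N + 1) = aop l u ^ (N + 1)) :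
    False := by
  set w := T l u p p' with hw
  set A := aop l u with hA
  have hw1 : ∀ y, l (u * y) = 0 → w y = u * y + l (w y) • (1 : K) :=
    w_of l u hu N hN hl w h1
  -- action on U
  have hwpow : ∀ i, i + 1 < N → ∃ c : F, w (u ^ i) = u ^ (i + 1) + c • (1 : K) := by
    intro i hi
    refine ⟨l (w (u ^ i)), ?_⟩
    have := hw1 (u ^ i) (by rw [← pow_succ']; exact l_mid l u N hN hl (by omega) hi)
    rw [← pow_succ'] at this
    exact this
  have h1U : ∀ m, 1 ≤ m → (1 : K) ∈ U F u m := by
    intro m hm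
    have := U_pow (F := F) u (j := 0) (m := m) (by omega)
    rwa [pow_zero] at this
  have hwU : ∀ m, m < N → ∀ y ∈ U F u m, w y ∈ U F u (m + 1) := by
    intro m hm
    apply U_map
    intro j hj
    obtain ⟨c, hc⟩ := hwpow j (by omega)
    rw [hc]
    exact Submodule.add_mem _ (U_pow u (by omega)) (Submodule.smul_mem _ _ (h1U _ (by omega)))
  have hw1k : ∀ k, k < N → (w ^ k) 1 - u ^ k ∈ U F u k := by
    intro k
    induction k with
    | zero => intro _; simp
    | succ k ih =>
      intro hk
      have := ih (by omega)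
      obtain ⟨c, hc⟩ := hwpow k hk
      have h3 := hwU k (by omega) _ this
      rw [map_sub, hc] at h3
      rw [pow_succ' w k, Module.End.mul_apply]
      have h4 : w ((w ^ k) 1) - u ^ (k + 1) =
          (w ((w ^ k) 1) - (u ^ (k + 1) + c • (1 : K))) + c • (1 : K) := by ring
      rw [h4]
      exact Submodule.add_mem _ h3 (Submodule.smul_mem _ _ (h1U _ (by omega)))
  have hmono : ∀ m m', m ≤ m' → U F u m ≤ U F u m' := by
    intro m m' h
    apply Submodule.span_mono
    rintro x ⟨j, hj, rfl⟩
    exact ⟨j, by omega, rfl⟩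
  have hw1k' : ∀ k, k < N → (w ^ k) 1 ∈ U F u (k + 1) := by
    intro k hk
    have h3 := hmono k (k + 1) (by omega) (hw1k k hk)
    have h4 := Submodule.add_mem _ h3 (U_pow (F := F) u (j := k) (m := k + 1) (by omega))
    rwa [sub_add_cancel] at h4
  -- the operator b
  let b : Module.End F K := LinearMap.mulLeft F u -
    (l ∘ₗ LinearMap.mulLeft F (u ^ (N + 1))).smulRight (1 : K)
  have hb : ∀ v, b v = u * v - l (u ^ (N + 1) * v) • (1 : K) := by
    intro v
    simp [b]
  let I : K → Prop := fun v => ∀ j, 1 ≤ j → j ≤ N → l (u ^ j * v) = 0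
  have hbI : ∀ v, I v → I (b v) := by
    intro v hv j hj1 hj2
    rw [hb, mul_sub, map_sub, ← mul_assoc, ← pow_succ, mul_smul_comm, mul_one, map_smul,
      smul_eq_mul]
    rcases Nat.lt_or_ge j N with h | h
    · rw [hv (j + 1) (by omega) (by omega), l_mid l u N hN hl hj1 h, mul_zero, sub_zero]
    · have : j = N := by omega
      rw [this, l_top l u N hN hl, mul_one, sub_self]
  have hAb : ∀ v, I v → A (b v) = v := by
    intro v hv
    have := aop_of l u hu (l_one l u N hN hl) v
      (by have := hv 1 (by omega) hN; rwa [pow_one] at this) (- l (u ^ (N + 1) * v))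
    rw [hb, sub_eq_add_neg, ← neg_smul]
    exact this
  have hbkI : ∀ k v, I v → I ((b ^ k) v) := by
    intro k
    induction k with
    | zero => intro v hv; simpa using hv
    | succ k ih =>
      intro v hv
      rw [pow_succ', Module.End.mul_apply]
      exact hbI _ (ih v hv)
  have hAbk : ∀ k v, I v → (A ^ k) ((b ^ k) v) = v := by
    intro k
    induction k with
    | zero => intro v _; simp
    | succ k ih =>
      intro v hv
      rw [pow_succ A, pow_succ' b, Module.End.mul_apply, Module.End.mul_apply,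
        hAb _ (hbkI k v hv)]
      exact ih v hv
  let mu : K → F := fun v => l (w v) + l (u ^ (N + 1) * v)
  have hwb : ∀ v, I v → w v = b v + mu v • (1 : K) := by
    intro v hv
    rw [hw1 v (by have := hv 1 (by omega) hN; rwa [pow_one] at this), hb]
    simp only [mu, add_smul]
    ring
  have hk : ∀ k, k ≤ N → ∀ v, I v → (w ^ k) v - (b ^ k) v ∈ U F u k := by
    intro k
    induction k with
    | zero => intro _ v _; simp
    | succ k ih =>
      intro hkN v hv
      rw [pow_succ w, pow_succ b, Module.End.mul_apply, Module.End.mul_apply, hwb v hv, map_add,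
        map_smul]
      have h3 := hmono k (k + 1) (by omega) (ih (by omega) (b v) (hbI v hv))
      have h4 := Submodule.smul_mem _ (mu v) (hw1k' k (by omega))
      have h5 := Submodule.add_mem _ h3 h4
      have h6 : (w ^ k) (b v) + mu v • (w ^ k) 1 - (b ^ k) (b v) =
        (w ^ k) (b v) - (b ^ k) (b v) + mu v • (w ^ k) 1 := by ring
      rw [h6]
      exact h5
  have hkill : ∀ y ∈ U F u N, (A ^ (N + 1)) y = 0 := by
    intro y hy
    rw [pow_succ', Module.End.mul_apply, A_pow_U l u hu N hN hl N (le_refl _) y hy, map_zero]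
  have hmain : ∀ v, I v → mu v • (A ^ (N + 1)) ((w ^ N) 1) = 0 := by
    intro v hv
    have h3 : (A ^ (N + 1)) ((w ^ (N + 1)) v) = v := by
      have h4 := congrArg (fun f : Module.End F K => f ((b ^ (N + 1)) v)) h2
      simp only [Module.End.mul_apply] at h4
      rw [hAbk _ v hv] at h4
      exact h4
    rw [pow_succ w, Module.End.mul_apply, hwb v hv, map_add, map_smul, map_add, map_smul] at h3
    have h5 := hkill _ (hk N (le_refl _) (b v) (hbI v hv))
    rw [map_sub] at h5
    have h6 : (A ^ (N + 1)) ((b ^ N) (b v)) = v := by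
      rw [← Module.End.mul_apply (b ^ N), ← pow_succ]
      exact hAbk _ v hv
    rw [h6] at h5
    rw [sub_eq_zero.mp h5] at h3
    exact add_eq_left.mp h3
  by_cases hcase : ∃ v, I v ∧ mu v ≠ 0
  · obtain ⟨v, hv, hmu⟩ := hcase
    have h3 := (smul_eq_zero.mp (hmain v hv)).resolve_left hmu
    have h4 := coeff_zero_of_kill l u hu N hN hl D hD _ h3
    obtain ⟨M, hM⟩ : ∃ M, N = M + 1 := ⟨N - 1, by omega⟩
    have h5 : (w ^ N) 1 = u ^ N + ∑ i, l (p' i * u ^ M) • p i +
        w ((w ^ M) 1 - u ^ M) := by
      rw [map_sub, hM, pow_succ' w, Module.End.mul_apply]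
      have h6 : w (u ^ M) = u ^ (M + 1) + ∑ i, l (p' i * u ^ M) • p i := by
        rw [hw, T_apply, pow_succ']
      rw [h6]
      ring
    have h7 := D_U u D hD (M + 1) _ (hwU M (by omega) _ (hw1k M (by omega))) N (by omega)
    rw [h5, map_add, map_add, coeff_add, coeff_add, h7, hD, coeff_X_pow_self, map_sum,
      finset_sum_coeff, Finset.sum_eq_zero, add_zero, add_zero] at h4
    · exact one_ne_zero h4
    · intro i _
      rw [map_smul, coeff_smul, hp i, smul_zero]
  · push Not at hcase
    let y : K := u ^ (N + 1) + ∑ i, l (p i) • p' i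
    have h3 : ∀ v, I v → l (y * v) = 0 := by
      intro v hv
      have h4 := hcase v hv
      simp only [mu] at h4
      rw [hw, T_apply, map_add, map_sum] at h4
      have h5 : l (u * v) = 0 := by
        have := hv 1 (by omega) hN; rwa [pow_one] at this
      rw [h5, zero_add] at h4
      simp only [y]
      rw [add_mul, map_add, Finset.sum_mul, map_sum, add_comm]
      rw [← h4]
      congr 1
      apply Finset.sum_congr rfl
      intro i _
      rw [smul_mul_assoc, map_smul, map_smul, smul_eq_mul, smul_eq_mul, mul_comm]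
    have h4 : l ∘ₗ LinearMap.mulLeft F y ∈ Submodule.span F
        (Set.range (fun j : Fin N => l ∘ₗ LinearMap.mulLeft F (u ^ ((j : ℕ) + 1)))) := by
      apply mem_span_of_iInf_ker_le_ker
      intro v hv
      rw [Submodule.mem_iInf] at hv
      rw [LinearMap.mem_ker, LinearMap.comp_apply, LinearMap.mulLeft_apply]
      apply h3
      intro j hj1 hj2
      have := hv ⟨j - 1, by omega⟩
      rw [LinearMap.mem_ker, LinearMap.comp_apply, LinearMap.mulLeft_apply] at this
      have hj : j - 1 + 1 = j := by omega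
      simpa [hj] using this
    rw [Submodule.mem_span_range_iff_exists_fun] at h4
    obtain ⟨c, hc⟩ := h4
    have h5 : y = ∑ j : Fin N, c j • u ^ ((j : ℕ) + 1) := by
      by_contra hne
      have hz : y - ∑ j : Fin N, c j • u ^ ((j : ℕ) + 1) ≠ 0 := sub_ne_zero.mpr hne
      have h6 := congrArg (fun f : K →ₗ[F] F => f (y - ∑ j : Fin N, c j • u ^ ((j : ℕ) + 1))⁻¹) hc
      simp only [LinearMap.sum_apply, LinearMap.smul_apply, LinearMap.comp_apply,
        LinearMap.mulLeft_apply] at h6
      have h7 : l ((y - ∑ j : Fin N, c j • u ^ ((j : ℕ) + 1)) *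
          (y - ∑ j : Fin N, c j • u ^ ((j : ℕ) + 1))⁻¹) = 1 := by
        rw [mul_inv_cancel₀ hz]
        exact l_one l u N hN hl
      rw [sub_mul, map_sub, Finset.sum_mul, map_sum, ← h6] at h7
      simp only [smul_mul_assoc, map_smul, smul_eq_mul, sub_self] at h7
      exact zero_ne_one h7
    have h8 := congrArg (fun z : K => (D z).coeff (N + 1)) h5
    simp only [y] at h8
    rw [map_add, coeff_add, hD, coeff_X_pow_self, map_sum, finset_sum_coeff, map_sum,
      finset_sum_coeff, Finset.sum_eq_zero, Finset.sum_eq_zero, add_zero] at h8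
    · exact one_ne_zero h8
    · intro j _
      rw [map_smul, coeff_smul, hD, coeff_X_pow, if_neg (by have := j.2; omega), smul_zero]
    · intro i _
      rw [map_smul, coeff_smul, hp' i, smul_zero]

end comp

end Pool.Q297.UR
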